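import Pool.Agent.Lib.MP_1bacea_co.Defs

/-!
The finite-sum probability equals Mathlib's G(V,p): both sides are sums over graphs of point masses
(binomialRandom_singleton); Pr p (Q ∘ Gr) = ∑_ω wt p ω [Q (Gr ω)], group by Gr ω = Γ: the bits on the diagonal are
free and sum to 1 (e.g. Ex_prod with factors [ω e = (e ∈ Γ.edgeSet)] for non-diagonal e).
-/

set_option autoImplicit false

open Finset

namespace Pool.MP_1bacea_co

variable {V : Type*} [Fintype V] [DecidableEq V]

open Classical in
/-- the factor of the pair `e` in the indicator of `Gr ω = Γ` -/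
noncomputable def brFac (Γ : SimpleGraph V) (e : Sym2 V) (b : Bool) : ℝ :=
  if e.IsDiag then 1 else if (b = true ↔ e ∈ Γ.edgeSet) then 1 else 0

omit [Fintype V] [DecidableEq V] in
theorem br_gr_eq_iff (Γ : SimpleGraph V) (ω : Sym2 V → Bool) :
    Gr ω = Γ ↔ ∀ e : Sym2 V, ¬ e.IsDiag → (ω e = true ↔ e ∈ Γ.edgeSet) := by
  constructor
  · rintro rfl e
    induction e with
    | _ u v =>
      intro h
      rw [Sym2.mk_isDiag_iff] at h
      rw [SimpleGraph.mem_edgeSet]
      exact ⟨fun h' => ⟨h, h'⟩, fun h' => h'.2⟩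
  · intro h
    ext u v
    constructor
    · rintro ⟨h1, h2⟩
      have := (h s(u, v) (by rwa [Sym2.mk_isDiag_iff])).1 h2
      rwa [SimpleGraph.mem_edgeSet] at this
    · intro h1
      refine ⟨h1.ne, ?_⟩
      exact (h s(u, v) (by rw [Sym2.mk_isDiag_iff]; exact h1.ne)).2
        (by rw [SimpleGraph.mem_edgeSet]; exact h1)

theorem br_ind_eq (Γ : SimpleGraph V) (ω : Sym2 V → Bool) :
    ind (Gr ω = Γ) = ∏ e, brFac Γ e (ω e) := by
  classical
  by_cases h : Gr ω = Γ
  · rw [ind_true h]
    rw [br_gr_eq_iff] at h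
    symm
    refine Finset.prod_eq_one fun e _ => ?_
    unfold brFac
    by_cases hd : e.IsDiag
    · rw [if_pos hd]
    · rw [if_neg hd, if_pos (h e hd)]
  · rw [ind_false h]
    rw [br_gr_eq_iff] at h
    push Not at h
    obtain ⟨e, hd, he⟩ := h
    symm
    refine Finset.prod_eq_zero (Finset.mem_univ e) ?_
    unfold brFac
    rw [if_neg hd, if_neg]
    intro h'
    rcases he with ⟨h1, h2⟩ | ⟨h1, h2⟩
    · exact h2 (h'.1 h1)
    · exact h1 (h'.2 h2)

theorem br_point (p : ℝ) (Γ : SimpleGraph V) :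
    Pr p (fun ω => Gr ω = Γ) =
      p ^ Γ.edgeSet.ncard * (1 - p) ^ ((Nat.card V).choose 2 - Γ.edgeSet.ncard) := by
  classical
  unfold Pr
  have h1 : (fun ω : Sym2 V → Bool => ind (Gr ω = Γ)) = fun ω => ∏ e, brFac Γ e (ω e) := by
    funext ω
    exact br_ind_eq Γ ω
  rw [h1, Ex_prod]
  have h2 : ∀ e : Sym2 V, p * brFac Γ e true + (1 - p) * brFac Γ e false =
      (if e ∈ Γ.edgeSet then p else 1) * (if ¬ e.IsDiag ∧ e ∉ Γ.edgeSet then 1 - p else 1) := by
    intro e
    unfold brFac
    by_cases hd : e.IsDiag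
    · have hne : e ∉ Γ.edgeSet := fun h => Γ.not_isDiag_of_mem_edgeSet h hd
      simp [hd, hne]
    · by_cases he : e ∈ Γ.edgeSet
      · simp [hd, he]
      · simp [hd, he]
  rw [Finset.prod_congr rfl fun e _ => h2 e, Finset.prod_mul_distrib, Finset.prod_ite,
    Finset.prod_const_one, mul_one, Finset.prod_const, Finset.prod_ite, Finset.prod_const_one,
    mul_one, Finset.prod_const]
  have h3 : ((univ : Finset (Sym2 V)).filter fun e => e ∈ Γ.edgeSet).card =
      Γ.edgeSet.ncard := by
    rw [Set.ncard_eq_toFinset_card']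
    congr 1
    ext e
    simp
  have h4 : ((univ : Finset (Sym2 V)).filter fun e => ¬ e.IsDiag).card =
      (Nat.card V).choose 2 := by
    rw [Nat.card_eq_fintype_card, ← Sym2.card_diagSet_compl, Fintype.card_of_subtype]
    intro e
    simp [Sym2.diagSet]
  have h5 : ((univ : Finset (Sym2 V)).filter fun e => ¬ e.IsDiag ∧ e ∉ Γ.edgeSet).card =
      (Nat.card V).choose 2 - Γ.edgeSet.ncard := by
    rw [← h3, ← h4, ← Finset.card_sdiff_of_subset]
    · congr 1
      ext e
      simp only [mem_filter, mem_univ, true_and, mem_sdiff]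
    · intro e he
      rw [mem_filter] at he ⊢
      exact ⟨he.1, Γ.not_isDiag_of_mem_edgeSet he.2⟩
  rw [h3, h5]

theorem br_split (p : ℝ) (Q : SimpleGraph V → Prop) :
    Pr p (fun ω : Sym2 V → Bool => Q (Gr ω)) =
      open scoped Classical in
      ∑ Γ ∈ (univ : Finset (SimpleGraph V)).filter Q, Pr p (fun ω => Gr ω = Γ) := by
  classical
  unfold Pr
  rw [← Ex_sum]
  congr 1
  funext ω
  by_cases h : Q (Gr ω)
  · rw [ind_true h, Finset.sum_eq_single (Gr ω)]
    · rw [ind_true rfl]
    · intro Γ _ hne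
      exact ind_false fun h' => hne h'.symm
    · intro h'
      exact absurd (by rw [mem_filter]; exact ⟨mem_univ _, h⟩) h'
  · rw [ind_false h]
    symm
    refine Finset.sum_eq_zero fun Γ hΓ => ind_false fun h' => ?_
    rw [mem_filter] at hΓ
    exact h (by rw [h']; exact hΓ.2)

omit [DecidableEq V] in
theorem br_singleton_class : MeasurableSingletonClass (SimpleGraph V) := by
  refine ⟨fun Γ => ?_⟩
  have h := SimpleGraph.measurable_edgeSet (V := V)
    (measurableSet_singleton (Γ.edgeSet : Set (Sym2 V)))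
  have h2 : (SimpleGraph.edgeSet : SimpleGraph V → Set (Sym2 V)) ⁻¹' {Γ.edgeSet} = {Γ} := by
    ext Γ'
    simp
  rwa [h2] at h

open scoped SimpleGraph in
theorem binomial_eq_Pr (p : unitInterval) (Q : SimpleGraph V → Prop) :
    (SimpleGraph.binomialRandom V p).real {Γ | Q Γ} = Pr (p : ℝ) (fun ω => Q (Gr ω)) := by
  classical
  have := br_singleton_class (V := V)
  rw [br_split]
  have h1 : {Γ : SimpleGraph V | Q Γ} =
      (((univ : Finset (SimpleGraph V)).filter Q : Finset (SimpleGraph V)) :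
        Set (SimpleGraph V)) := by
    ext Γ
    simp
  rw [h1, ← MeasureTheory.sum_measureReal_singleton]
  refine Finset.sum_congr rfl fun Γ _ => ?_
  rw [br_point, MeasureTheory.measureReal_def, SimpleGraph.binomialRandom_singleton]
  simp only [ENNReal.toReal_mul, ENNReal.toReal_pow, ENNReal.coe_toReal]
  rfl

end Pool.MP_1bacea_co
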