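import Pool.Agent.Lib.MP_1bacea_co.Defs

/-!
Kleitman–Winston algorithm. State S (start S = R), stop when |S| ≤ β|R|; else let v be a vertex of S with
the largest number of conf-partners in S (≥ γ|S| of them, by averaging and h). If v ∈ I put v in the
fingerprint T and delete v and its partners from S (|S| drops by a factor 1-γ at least); if v ∉ I
delete v from S. The final S depends only on T (and R); C(T) := final S minus T. The number of steps of
the first kind: (1-γ)^{|T|-1}|R| ≥ β|R|, so |T| ≤ log(1/β)/γ + 1.
-/

set_option autoImplicit false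

open Finset

namespace Pool.MP_1bacea_co

variable {V : Type*} [Fintype V] [DecidableEq V]

omit [Fintype V] in
open scoped Classical in
theorem kw_npairs (conf : V → V → Prop) (S : Finset V) :
    npairs conf S = ∑ v ∈ S, (S.filter fun u => conf v u).card := by
  unfold npairs
  rw [Finset.card_filter, Finset.sum_product]
  apply Finset.sum_congr rfl
  intro v _
  rw [Finset.card_filter]

omit [Fintype V] in
open scoped Classical in
theorem kw_step (R : Finset V) (conf : V → V → Prop)
    {β γ : ℝ} (hβ : 0 < β) 
    (h : ∀ S ⊆ R, β * R.card ≤ S.card → γ * (S.card : ℝ) ^ 2 ≤ npairs conf S) :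
    ∀ (n : ℕ) (S : Finset V), S.card = n → S ⊆ R → ∃ C : Finset V → Finset V,
      (∀ T, C T ⊆ S ∧ Disjoint T (C T) ∧ ((C T).card : ℝ) ≤ β * R.card) ∧
      ∀ I ⊆ S, (∀ z ∈ I, ∀ z' ∈ I, ¬ conf z z') →
        ∃ T ⊆ I, (T.Nonempty → β * R.card < S.card * Real.exp (-(γ * ((T.card : ℝ) - 1)))) ∧
          I ⊆ T ∪ C T := by
  intro n
  induction n using Nat.strong_induction_on with
  | _ n ih =>
  intro S hSn hSR
  by_cases hstop : (S.card : ℝ) ≤ β * R.card
  · refine ⟨fun T => S \ T, ?_, ?_⟩
    · intro T
      refine ⟨Finset.sdiff_subset, Finset.disjoint_sdiff, ?_⟩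
      refine le_trans ?_ hstop
      exact_mod_cast Finset.card_le_card Finset.sdiff_subset
    · intro I hI _
      refine ⟨∅, Finset.empty_subset _, ?_, ?_⟩
      · intro h
        exact absurd h Finset.not_nonempty_empty
      · simpa using hI
  · push Not at hstop
    have hSpos : (0:ℝ) < S.card := lt_of_le_of_lt (by positivity) hstop
    have hSne : S.Nonempty := by
      rw [← Finset.card_pos]
      exact_mod_cast hSpos
    have h1 := h S hSR hstop.le
    rw [kw_npairs] at h1
    -- a vertex of large degree
    have h2 : ∃ v ∈ S, γ * S.card ≤ ((S.filter fun u => conf v u).card : ℝ) := by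
      by_contra hcon
      push Not at hcon
      have h3 : ∑ v ∈ S, ((S.filter fun u => conf v u).card : ℝ) < ∑ v ∈ S, γ * S.card :=
        Finset.sum_lt_sum_of_nonempty hSne hcon
      rw [Finset.sum_const, nsmul_eq_mul] at h3
      push_cast at h1
      nlinarith
    obtain ⟨v, hvS, hv⟩ := h2
    have hlt1 : (S.erase v).card < n := by
      rw [← hSn]
      exact Finset.card_erase_lt_of_mem hvS
    have hsub2 : ((S.erase v).filter fun u => ¬ conf v u) ⊆ S.erase v := Finset.filter_subset _ _
    have hlt2 : ((S.erase v).filter fun u => ¬ conf v u).card < n :=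
      lt_of_le_of_lt (Finset.card_le_card hsub2) hlt1
    obtain ⟨C1, hC1, hI1⟩ := ih _ hlt1 (S.erase v) rfl ((Finset.erase_subset _ _).trans hSR)
    obtain ⟨C2, hC2, hI2⟩ := ih _ hlt2 ((S.erase v).filter fun u => ¬ conf v u) rfl
      (hsub2.trans ((Finset.erase_subset _ _).trans hSR))
    have hcard2 : (((S.erase v).filter fun u => ¬ conf v u).card : ℝ) ≤ S.card * Real.exp (-γ) := by
      have h3 : ((S.erase v).filter fun u => ¬ conf v u).card + (S.filter fun u => conf v u).card
          ≤ S.card := by
        calc ((S.erase v).filter fun u => ¬ conf v u).card + (S.filter fun u => conf v u).card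
            ≤ (S.filter fun u => ¬ conf v u).card + (S.filter fun u => conf v u).card := by
              apply Nat.add_le_add_right
              apply Finset.card_le_card
              exact Finset.filter_subset_filter _ (Finset.erase_subset _ _)
          _ = S.card := by
              rw [add_comm]
              exact Finset.card_filter_add_card_filter_not _
      have h4 : (((S.erase v).filter fun u => ¬ conf v u).card : ℝ) +
          (S.filter fun u => conf v u).card ≤ S.card := by exact_mod_cast h3
      have h5 := Real.add_one_le_exp (-γ)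
      nlinarith
    refine ⟨fun T => if v ∈ T then C2 (T.erase v) else C1 T, ?_, ?_⟩
    · intro T
      by_cases hvT : v ∈ T
      · simp only [if_pos hvT]
        obtain ⟨a1, a2, a3⟩ := hC2 (T.erase v)
        refine ⟨a1.trans (hsub2.trans (Finset.erase_subset _ _)), ?_, a3⟩
        rw [Finset.disjoint_left] at a2 ⊢
        intro x hx hxC
        by_cases hxv : x = v
        · rw [hxv] at hxC
          have := hsub2 (a1 hxC)
          exact absurd rfl (Finset.ne_of_mem_erase this)
        · exact a2 (Finset.mem_erase.mpr ⟨hxv, hx⟩) hxC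
      · simp only [if_neg hvT]
        obtain ⟨a1, a2, a3⟩ := hC1 T
        exact ⟨a1.trans (Finset.erase_subset _ _), a2, a3⟩
    · intro I hIS hind
      by_cases hvI : v ∈ I
      · obtain ⟨T, hTI, hT1, hT2⟩ := hI2 (I.erase v) (by
          intro x hx
          rw [Finset.mem_erase] at hx
          rw [Finset.mem_filter, Finset.mem_erase]
          exact ⟨⟨hx.1, hIS hx.2⟩, hind v hvI x hx.2⟩)
          (fun z hz z' hz' => hind z (Finset.mem_of_mem_erase hz) z' (Finset.mem_of_mem_erase hz'))
        have hvT : v ∉ T := fun h => absurd rfl (Finset.ne_of_mem_erase (hTI h))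
        refine ⟨insert v T, ?_, ?_, ?_⟩
        · intro x hx
          rw [Finset.mem_insert] at hx
          rcases hx with hx | hx
          · rw [hx]; exact hvI
          · exact Finset.mem_of_mem_erase (hTI hx)
        · intro _
          rw [Finset.card_insert_of_notMem hvT]
          rcases T.eq_empty_or_nonempty with hT | hT
          · rw [hT]
            simpa using hstop
          · have b1 := hT1 hT
            refine lt_of_lt_of_le b1 ?_
            calc (((S.erase v).filter fun u => ¬ conf v u).card : ℝ) *
                  Real.exp (-(γ * ((T.card : ℝ) - 1)))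
                ≤ (S.card * Real.exp (-γ)) * Real.exp (-(γ * ((T.card : ℝ) - 1))) :=
                  mul_le_mul_of_nonneg_right hcard2 (Real.exp_pos _).le
              _ = S.card * Real.exp (-(γ * (((T.card + 1 : ℕ) : ℝ) - 1))) := by
                  rw [mul_assoc, ← Real.exp_add]
                  congr 2
                  push_cast
                  ring
        · simp only [Finset.mem_insert_self, if_true, Finset.erase_insert hvT]
          intro x hx
          by_cases hxv : x = v
          · rw [hxv]; simp
          · have := hT2 (Finset.mem_erase.mpr ⟨hxv, hx⟩)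
            rw [Finset.mem_union] at this ⊢
            rcases this with h | h
            · exact Or.inl (Finset.mem_insert_of_mem h)
            · exact Or.inr h
      · obtain ⟨T, hTI, hT1, hT2⟩ := hI1 I (by
          intro x hx
          rw [Finset.mem_erase]
          exact ⟨fun h => hvI (h ▸ hx), hIS hx⟩) hind
        have hvT : v ∉ T := fun h => hvI (hTI h)
        refine ⟨T, hTI, ?_, ?_⟩
        · intro hT
          refine lt_of_lt_of_le (hT1 hT) ?_
          apply mul_le_mul_of_nonneg_right _ (Real.exp_pos _).le
          exact_mod_cast Finset.card_le_card (Finset.erase_subset _ _)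
        · simp only [if_neg hvT]
          exact hT2

theorem container (R : Finset V) (conf : V → V → Prop) (hsymm : ∀ a b, conf a b → conf b a)
    {β γ : ℝ} (hβ : 0 < β) (hβ1 : β ≤ 1) (hγ : 0 < γ)
    (h : ∀ S ⊆ R, β * R.card ≤ S.card → γ * (S.card : ℝ) ^ 2 ≤ npairs conf S) :
    ∃ C : Finset V → Finset V,
      (∀ T, C T ⊆ R ∧ Disjoint T (C T) ∧ ((C T).card : ℝ) ≤ β * R.card) ∧
      ∀ I ⊆ R, (∀ z ∈ I, ∀ z' ∈ I, ¬ conf z z') →
        ∃ T ⊆ I, (T.card : ℝ) ≤ Real.log (1 / β) / γ + 1 ∧ I ⊆ T ∪ C T := by
  obtain ⟨C, hC, hI⟩ := kw_step R conf hβ h R.card R rfl (Finset.Subset.refl R)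
  refine ⟨C, hC, ?_⟩
  intro I hIR hind
  obtain ⟨T, hTI, hT1, hT2⟩ := hI I hIR hind
  refine ⟨T, hTI, ?_, hT2⟩
  have hlog : 0 ≤ Real.log (1 / β) := Real.log_nonneg (by rw [le_div_iff₀ hβ]; linarith)
  rcases T.eq_empty_or_nonempty with hT | hT
  · rw [hT]
    simp only [Finset.card_empty, Nat.cast_zero]
    positivity
  · have h1 := hT1 hT
    have hR : (0:ℝ) < R.card := by
      have : R.Nonempty := hT.mono (hTI.trans hIR)
      exact_mod_cast this.card_pos
    have h2 : β < Real.exp (-(γ * ((T.card : ℝ) - 1))) := by
      rw [mul_comm] at h1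
      exact lt_of_mul_lt_mul_left h1 hR.le
    have h3 : Real.log β < -(γ * ((T.card : ℝ) - 1)) := by
      rw [← Real.log_exp (-(γ * ((T.card : ℝ) - 1)))]
      exact Real.log_lt_log hβ h2
    have h4 : (T.card : ℝ) - 1 ≤ Real.log (1 / β) / γ := by
      rw [le_div_iff₀ hγ, one_div, Real.log_inv]
      linarith
    linarith

end Pool.MP_1bacea_co
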