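import Pool.Agent.Lib.MP_1bacea_co.Trace

/-!
Common definitions.
-/

set_option autoImplicit false

open Finset

namespace Pool.MP_1bacea_co

variable {V : Type*} [Fintype V] [DecidableEq V]

/-- the random graph of a configuration -/
def Gr (ω : Sym2 V → Bool) : SimpleGraph V where
  Adj u v := u ≠ v ∧ ω s(u, v) = true
  symm := ⟨fun u v h => ⟨h.1.symm, by rw [Sym2.eq_swap]; exact h.2⟩⟩
  loopless := ⟨fun u h => h.1 rfl⟩

/-- number of neighbours of `v` in `A` -/
noncomputable def dg (G : SimpleGraph V) (v : V) (A : Finset V) : ℕ :=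
  open scoped Classical in (A.filter fun u => G.Adj v u).card

/-- real adjacency matrix -/
noncomputable def adj (G : SimpleGraph V) : Matrix V V ℝ := fun u v => ind (G.Adj u v)

/-- `z` and `z'` are joined by a path on `2r+2` vertices of `G` -/
def Conf (G : SimpleGraph V) (r : ℕ) (z z' : V) : Prop :=
  ∃ x : Fin (2 * r + 2) → V, Function.Injective x ∧
    (∀ i : Fin (2 * r + 1), G.Adj (x i.castSucc) (x i.succ)) ∧ x 0 = z ∧ x (Fin.last _) = z'

/-- the number of ordered pairs of `S` in the relation `conf` -/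
noncomputable def npairs (conf : V → V → Prop) (S : Finset V) : ℕ :=
  open scoped Classical in ((S ×ˢ S).filter fun q => conf q.1 q.2).card

/-- every nonempty set of at most `amax` vertices has a vertex with at most `D0` neighbours in it -/
def LocSp (G : SimpleGraph V) (amax : ℝ) (D0 : ℕ) : Prop :=
  ∀ A : Finset V, A.Nonempty → (A.card : ℝ) ≤ amax → ∃ v ∈ A, dg G v A ≤ D0

/-- no large family of conflict-free neighbourhood sets for dense conflict relations -/
def PropD (G : SimpleGraph V) (r : ℕ) (γ β ρ t : ℝ) : Prop :=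
  ∀ (P R : Finset V) (G₀ : SimpleGraph V), G₀ ≤ G → (∀ u v, G₀.Adj u v → u ∈ P ∧ v ∈ P) → R ⊆ P →
    ρ * Fintype.card V ≤ R.card →
    (∀ S ⊆ R, β * R.card ≤ S.card → γ * (S.card : ℝ) ^ 2 ≤ npairs (Conf G₀ r) S) →
    ∀ I : V → Finset V, (∀ w, I w ⊆ R ∧ (∀ z ∈ I w, G.Adj w z) ∧
      ∀ z ∈ I w, ∀ z' ∈ I w, ¬ Conf G₀ r z z') →
      ∑ w ∈ univ \ P, ((I w).card : ℝ) < t * R.card

/-- sum of the squares of the column sums -/
noncomputable def c2 (X : Matrix V V ℝ) : ℝ := ∑ v, (∑ u, X u v) ^ 2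

end Pool.MP_1bacea_co
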