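import Pool.Agent.Lib.MP_1bacea_co.Defs

/-!
Definitions for the bound `1/2`.
-/

set_option autoImplicit false

open Finset

namespace Pool.MP_1bacea_co

variable {V : Type*} [Fintype V] [DecidableEq V]

/-- for every small `P` and every graph inside `P` with dense conflict relation, some outside
vertex has no large conflict-free set of neighbours in `P` -/
def PropE (G : SimpleGraph V) (r : ℕ) (γ a b : ℝ) : Prop :=
  ∀ (P : Finset V) (G₀ : SimpleGraph V), G₀ ≤ G → (∀ u v, G₀.Adj u v → u ∈ P ∧ v ∈ P) →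
    (P.card : ℝ) ≤ b →
    (∀ S ⊆ P, (P.card : ℝ) / 2 ≤ S.card → γ * (S.card : ℝ) ^ 2 ≤ npairs (Conf G₀ r) S) →
    ∀ I : V → Finset V, (∀ w, w ∉ P → I w ⊆ P ∧ (∀ z ∈ I w, G.Adj w z) ∧
      ∀ z ∈ I w, ∀ z' ∈ I w, ¬ Conf G₀ r z z') →
      ∃ w, w ∉ P ∧ ((I w).card : ℝ) < a

end Pool.MP_1bacea_co
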