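import Pool.Agent.Lib.MP_1bacea_co.Defs

/-!
Greedy colouring of degenerate sets: induction on |W|.
-/

set_option autoImplicit false

open Finset

namespace Pool.MP_1bacea_co

variable {V : Type*} [Fintype V] [DecidableEq V]

theorem degen_color (G : SimpleGraph V) (D : ℕ) (W : Finset V)
    (h : ∀ A ⊆ W, A.Nonempty → ∃ v ∈ A, dg G v A ≤ D) :
    ∃ c : V → Fin (D + 1), ∀ u ∈ W, ∀ v ∈ W, G.Adj u v → c u ≠ c v := by
  classical
  induction W using Finset.strongInduction with
  | H W ih =>
    rcases W.eq_empty_or_nonempty with rfl | hW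
    · exact ⟨fun _ => 0, by simp⟩
    obtain ⟨v, hv, hd⟩ := h W (Finset.Subset.refl _) hW
    obtain ⟨c, hc⟩ := ih (W.erase v) (Finset.erase_ssubset hv)
      (fun A hA hne => h A (hA.trans (Finset.erase_subset _ _)) hne)
    have hd' : (W.filter fun u => G.Adj v u).card ≤ D := by
      unfold dg at hd
      convert hd
    have hU : ((W.filter fun u => G.Adj v u).image c).card < (univ : Finset (Fin (D + 1))).card := by
      rw [card_univ, Fintype.card_fin]
      exact lt_of_le_of_lt (card_image_le.trans hd') (Nat.lt_succ_self _)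
    obtain ⟨k, -, hk⟩ := Finset.exists_mem_notMem_of_card_lt_card hU
    have hk' : ∀ u ∈ W, G.Adj v u → c u ≠ k := by
      intro u hu hvu he
      apply hk
      rw [mem_image]
      exact ⟨u, mem_filter.mpr ⟨hu, hvu⟩, he⟩
    refine ⟨Function.update c v k, ?_⟩
    intro a ha b hb hab
    by_cases hav : a = v
    · subst hav
      have hba : b ≠ a := hab.ne'
      rw [Function.update_self, Function.update_of_ne hba]
      exact (hk' b hb hab).symm
    · by_cases hbv : b = v
      · subst hbv
        rw [Function.update_self, Function.update_of_ne hav]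
        exact hk' a ha hab.symm
      · rw [Function.update_of_ne hav, Function.update_of_ne hbv]
        exact hc a (mem_erase.mpr ⟨hav, ha⟩) b (mem_erase.mpr ⟨hbv, hb⟩) hab

end Pool.MP_1bacea_co
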