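import Pool.Agent.Lib.MP_1bacea_co.Defs

/-!
Counting pairs of walks.
-/

set_option autoImplicit false

open Finset

namespace Pool.MP_1bacea_co

variable {V : Type*} [Fintype V] [DecidableEq V]

/-- `x` is a walk of `G` -/
def WkIs (G : SimpleGraph V) {r : ℕ} (x : Fin (r + 1) → V) : Prop :=
  ∀ i : Fin r, G.Adj (x i.castSucc) (x i.succ)

open scoped Classical in
/-- the walks with `r` steps starting at `u` -/
noncomputable def WkSet (G : SimpleGraph V) (r : ℕ) (u : V) : Finset (Fin (r + 1) → V) :=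
  univ.filter fun x => x 0 = u ∧ WkIs G x

lemma wk_mem {G : SimpleGraph V} {r : ℕ} {u : V} {x : Fin (r + 1) → V} :
    x ∈ WkSet G r u ↔ x 0 = u ∧ WkIs G x := by
  classical
  simp [WkSet]

omit [Fintype V] [DecidableEq V] in
lemma wk_pw_adj (G : SimpleGraph V) {m : ℕ} (x : Fin (m + 1) → V) :
    pw (adj G) x = ind (WkIs G x) := by
  by_cases h : WkIs G x
  · rw [ind_true h]
    unfold pw adj
    exact prod_eq_one fun i _ => ind_true (h i)
  · rw [ind_false h]
    unfold WkIs at h
    push Not at h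
    obtain ⟨i, hi⟩ := h
    unfold pw adj
    exact prod_eq_zero (mem_univ i) (ind_false hi)

lemma wk_sum_pow (G : SimpleGraph V) (r : ℕ) (u : V) (S : Finset V) (f : V → ℝ) :
    ∑ z ∈ S, f z * (adj G ^ r) u z =
      ∑ x ∈ (WkSet G r u).filter (fun x => x (Fin.last r) ∈ S), f (x (Fin.last r)) := by
  classical
  have h1 : ∀ z ∈ S, f z * (adj G ^ r) u z =
      ∑ x ∈ WkSet G r u, if x (Fin.last r) = z then f z else 0 := by
    intro z _
    rw [pow_apply_eq_sum, mul_sum, WkSet, sum_filter]
    refine sum_congr rfl fun x _ => ?_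
    rw [wk_pw_adj]
    by_cases h0 : x 0 = u
    · by_cases hl : x (Fin.last r) = z
      · by_cases hw : WkIs G x
        · rw [if_pos ⟨h0, hl⟩, ind_true hw, if_pos ⟨h0, hw⟩, if_pos hl, mul_one]
        · rw [if_pos ⟨h0, hl⟩, ind_false hw, if_neg (fun h => hw h.2), mul_zero]
      · rw [if_neg (fun h => hl h.2), mul_zero, if_neg hl, ite_self]
    · rw [if_neg (fun h => h0 h.1), mul_zero, if_neg (fun h => h0 h.1)]
  rw [sum_congr rfl h1, sum_comm, sum_filter]
  refine sum_congr rfl fun x _ => ?_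
  rw [sum_ite_eq]

section count

variable {G : SimpleGraph V} {D : ℕ}

lemma wk_card_fiber_le (hD : ∀ v, dg G v univ ≤ D) {r : ℕ} {u : V} (P : (Fin (r + 2) → V) → Prop)
    [DecidablePred P] (y : Fin (r + 1) → V) :
    (((WkSet G (r + 1) u).filter P).filter (fun x => (Fin.init x : Fin (r + 1) → V) = y)).card ≤ D := by
  classical
  refine le_trans ?_ (hD (y (Fin.last r)))
  unfold dg
  refine card_le_card_of_injOn (fun x => x (Fin.last (r + 1))) ?_ ?_
  · intro x hx
    simp only [coe_filter, Set.mem_ofPred_eq, mem_filter] at hx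
    simp only [coe_filter, Set.mem_ofPred_eq, mem_univ, true_and]
    have h := (wk_mem.mp hx.1.1).2 (Fin.last r)
    rw [Fin.succ_last] at h
    have e : y (Fin.last r) = x (Fin.last r).castSucc := by rw [← hx.2]; rfl
    rw [e]; exact h
  · intro x hx x' hx' h
    simp only [coe_filter, Set.mem_ofPred_eq, mem_filter] at hx hx'
    rw [← Fin.snoc_init_self x, ← Fin.snoc_init_self x']
    have e1 : (Fin.init x : Fin (r + 1) → V) = Fin.init x' := hx.2.trans hx'.2.symm
    have e2 : x (Fin.last (r + 1)) = x' (Fin.last (r + 1)) := h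
    rw [e1, e2]

lemma wk_init_mem {r : ℕ} {u : V} {x : Fin (r + 2) → V} (hx : x ∈ WkSet G (r + 1) u) :
    (Fin.init x : Fin (r + 1) → V) ∈ WkSet G r u := by
  rw [wk_mem] at hx ⊢
  refine ⟨hx.1, fun i => ?_⟩
  exact hx.2 i.castSucc

lemma wk_card_le (hD : ∀ v, dg G v univ ≤ D) (r : ℕ) (u : V) : (WkSet G r u).card ≤ D ^ r := by
  classical
  induction r with
  | zero =>
    rw [pow_zero, card_le_one]
    intro x hx y hy
    rw [wk_mem] at hx hy
    ext i
    rw [show i = 0 from Fin.ext (by omega), hx.1, hy.1]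
  | succ r ih =>
    have h := card_le_mul_card_image_of_maps_to (s := WkSet G (r + 1) u) (t := WkSet G r u)
      (f := fun x => (Fin.init x : Fin (r + 1) → V)) (fun x hx => wk_init_mem hx) D
      (fun y _ => by
        have := wk_card_fiber_le hD (u := u) (fun _ => True) y
        simpa using this)
    refine h.trans ?_
    rw [pow_succ, mul_comm]
    exact Nat.mul_le_mul_right _ ih

lemma wk_card_fix_le (hD : ∀ v, dg G v univ ≤ D) (r : ℕ) (u : V) (j : Fin (r + 1)) (hj : j ≠ 0)
    (g : (Fin (r + 1) → V) → V) (hg : ∀ x x', (∀ k < j, x k = x' k) → g x = g x') :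
    ((WkSet G r u).filter (fun x => x j = g x)).card ≤ D ^ (r - 1) := by
  classical
  induction r with
  | zero => exact absurd (Fin.ext (by omega)) hj
  | succ r ih =>
    rw [Nat.add_sub_cancel]
    induction j using Fin.lastCases with
    | last =>
      refine le_trans ?_ (wk_card_le hD r u)
      refine card_le_card_of_injOn (fun x => (Fin.init x : Fin (r + 1) → V)) ?_ ?_
      · intro x hx
        simp only [coe_filter, Set.mem_ofPred_eq] at hx
        exact wk_init_mem hx.1
      · intro x hx x' hx' h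
        simp only [coe_filter, Set.mem_ofPred_eq] at hx hx'
        have h' : (Fin.init x : Fin (r + 1) → V) = Fin.init x' := h
        have hlt : ∀ k < Fin.last (r + 1), x k = x' k := by
          intro k hk
          have := congrFun h' (k.castLT hk)
          simpa [Fin.init] using this
        have e2 : x (Fin.last (r + 1)) = x' (Fin.last (r + 1)) := by
          rw [hx.2, hx'.2]; exact hg _ _ hlt
        rw [← Fin.snoc_init_self x, ← Fin.snoc_init_self x', h', e2]
    | cast j =>
      have hj' : j ≠ 0 := by rintro rfl; exact hj rfl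
      have hr : 1 ≤ r := by
        rcases Nat.eq_zero_or_pos r with rfl | h
        · exact absurd (Fin.ext (by omega)) hj'
        · exact h
      set g' : (Fin (r + 1) → V) → V := fun y => g (Fin.snoc (α := fun _ => V) y u) with hg'
      have hgg : ∀ x x' : Fin (r + 1) → V, (∀ k < j, x k = x' k) → g' x = g' x' := by
        intro x x' h
        refine hg _ _ fun k hk => ?_
        have hk2 : k.val < r + 1 := lt_of_lt_of_le (Fin.lt_def.mp hk) (Fin.is_le _)
        obtain ⟨k', rfl⟩ : ∃ k' : Fin (r + 1), k = k'.castSucc := ⟨⟨k.val, hk2⟩, by ext; rfl⟩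
        rw [Fin.snoc_castSucc, Fin.snoc_castSucc]
        exact h k' (by simpa using hk)
      have h1 := ih j hj' g' hgg
      have h := card_le_mul_card_image_of_maps_to
        (s := (WkSet G (r + 1) u).filter (fun x => x j.castSucc = g x))
        (t := (WkSet G r u).filter (fun y => y j = g' y))
        (f := fun x => (Fin.init x : Fin (r + 1) → V))
        (fun x hx => by
          rw [mem_filter] at hx ⊢
          refine ⟨wk_init_mem hx.1, ?_⟩
          show x j.castSucc = g (Fin.snoc (α := fun _ => V) (Fin.init x) u)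
          rw [hx.2]
          refine hg _ _ fun k hk => ?_
          have hk2 : k.val < r + 1 := lt_of_lt_of_le (Fin.lt_def.mp hk) (Fin.is_le _)
          obtain ⟨k', rfl⟩ : ∃ k' : Fin (r + 1), k = k'.castSucc := ⟨⟨k.val, hk2⟩, by ext; rfl⟩
          rw [Fin.snoc_castSucc]
          rfl) D
        (fun y _ => wk_card_fiber_le hD _ y)
      refine h.trans ?_
      obtain ⟨s, rfl⟩ := Nat.exists_eq_add_of_le' hr
      rw [Nat.add_sub_cancel] at h1
      rw [pow_succ, mul_comm]
      exact Nat.mul_le_mul_right _ h1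

end count

/-- joining two walks without coincidences gives a path -/
lemma wk_conf_of {G : SimpleGraph V} {r : ℕ} {u u' : V} (h : G.Adj u u') {x y : Fin (r + 1) → V}
    (hx : x ∈ WkSet G r u) (hy : y ∈ WkSet G r u') (hxi : Function.Injective x)
    (hyi : Function.Injective y) (hd : ∀ i j, x i ≠ y j) :
    Conf G r (x (Fin.last r)) (y (Fin.last r)) := by
  rw [wk_mem] at hx hy
  let z : Fin (2 * r + 2) → V := fun k => if hk : k.val ≤ r then x ⟨r - k.val, by omega⟩ else
    y ⟨k.val - (r + 1), by omega⟩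
  have hz1 : ∀ (k : Fin (2 * r + 2)) (i : Fin (r + 1)), i.val + k.val = r → z k = x i := by
    intro k i hki
    simp only [z]
    rw [dif_pos (by omega)]
    congr 1
    ext
    simp only
    omega
  have hz2 : ∀ (k : Fin (2 * r + 2)) (i : Fin (r + 1)), k.val = i.val + (r + 1) → z k = y i := by
    intro k i hki
    simp only [z]
    rw [dif_neg (by omega)]
    congr 1
    ext
    simp only
    omega
  refine ⟨z, ?_, ?_, ?_, ?_⟩
  · intro a b hab
    by_cases ha : a.val ≤ r
    · rw [hz1 a ⟨r - a.val, by omega⟩ (by simp only; omega)] at hab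
      by_cases hb : b.val ≤ r
      · rw [hz1 b ⟨r - b.val, by omega⟩ (by simp only; omega)] at hab
        have := hxi hab
        rw [Fin.mk.injEq] at this
        ext; omega
      · rw [hz2 b ⟨b.val - (r + 1), by omega⟩ (by simp only; omega)] at hab
        exact absurd hab (hd _ _)
    · rw [hz2 a ⟨a.val - (r + 1), by omega⟩ (by simp only; omega)] at hab
      by_cases hb : b.val ≤ r
      · rw [hz1 b ⟨r - b.val, by omega⟩ (by simp only; omega)] at hab
        exact absurd hab.symm (hd _ _)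
      · rw [hz2 b ⟨b.val - (r + 1), by omega⟩ (by simp only; omega)] at hab
        have := hyi hab
        rw [Fin.mk.injEq] at this
        ext; omega
  · intro i
    rcases lt_trichotomy i.val r with hlt | heq | hgt
    · have := hx.2 ⟨r - (i.val + 1), by omega⟩
      rw [hz1 i.castSucc (⟨r - (i.val + 1), by omega⟩ : Fin r).succ
        (by simp only [Fin.val_succ, Fin.val_castSucc]; omega),
        hz1 i.succ (⟨r - (i.val + 1), by omega⟩ : Fin r).castSucc
        (by simp only [Fin.val_succ, Fin.val_castSucc]; omega)]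
      exact this.symm
    · rw [hz1 i.castSucc 0 (by simp only [Fin.val_zero, Fin.val_castSucc]; omega),
        hz2 i.succ 0 (by simp only [Fin.val_succ, Fin.val_zero]; omega), hx.1, hy.1]
      exact h
    · have := hy.2 ⟨i.val - (r + 1), by omega⟩
      rw [hz2 i.castSucc (⟨i.val - (r + 1), by omega⟩ : Fin r).castSucc
        (by simp only [Fin.val_castSucc]; omega),
        hz2 i.succ (⟨i.val - (r + 1), by omega⟩ : Fin r).succ
        (by simp only [Fin.val_succ]; omega)]
      exact this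
  · exact hz1 0 (Fin.last r) (by simp)
  · exact hz2 (Fin.last (2 * r + 1)) (Fin.last r) (by simp only [Fin.val_last]; omega)

section bad

variable {G : SimpleGraph V} {D : ℕ}

lemma wk_card_x_le (hD : ∀ v, dg G v univ ≤ D) (r : ℕ) (hr : 1 ≤ r) (u u' : V)
    (c : (Fin (r + 1) → V) → (Fin (r + 1) → V) → Prop) [∀ y, DecidablePred (fun x => c x y)]
    [DecidablePred (fun q : (Fin (r + 1) → V) × (Fin (r + 1) → V) => c q.1 q.2)]
    (h : ∀ y, ((WkSet G r u).filter (fun x => c x y)).card ≤ D ^ (r - 1)) :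
    ((WkSet G r u ×ˢ WkSet G r u').filter (fun q => c q.1 q.2)).card ≤ D ^ (2 * r - 1) := by
  classical
  have h1 : ((WkSet G r u ×ˢ WkSet G r u').filter (fun q => c q.1 q.2)).card ≤
      D ^ (r - 1) * (WkSet G r u').card := by
    refine card_le_mul_card_image_of_maps_to (f := Prod.snd)
      (fun q hq => (mem_product.mp (mem_filter.mp hq).1).2) _ fun y _ => ?_
    refine le_trans (card_le_card_of_injOn Prod.fst ?_ ?_) (h y)
    · intro q hq
      simp only [coe_filter, Set.mem_ofPred_eq, mem_filter, mem_product] at hq ⊢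
      refine ⟨hq.1.1.1, ?_⟩
      rw [← hq.2]; exact hq.1.2
    · intro q hq q' hq' he
      simp only [coe_filter, Set.mem_ofPred_eq, mem_filter, mem_product] at hq hq'
      exact Prod.ext he (hq.2.trans hq'.2.symm)
  refine h1.trans ?_
  rw [show 2 * r - 1 = (r - 1) + r by omega, pow_add]
  exact Nat.mul_le_mul_left _ (wk_card_le hD r u')

lemma wk_card_y_le (hD : ∀ v, dg G v univ ≤ D) (r : ℕ) (hr : 1 ≤ r) (u u' : V)
    (c : (Fin (r + 1) → V) → (Fin (r + 1) → V) → Prop) [∀ x, DecidablePred (fun y => c x y)]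
    [DecidablePred (fun q : (Fin (r + 1) → V) × (Fin (r + 1) → V) => c q.1 q.2)]
    (h : ∀ x, ((WkSet G r u').filter (fun y => c x y)).card ≤ D ^ (r - 1)) :
    ((WkSet G r u ×ˢ WkSet G r u').filter (fun q => c q.1 q.2)).card ≤ D ^ (2 * r - 1) := by
  classical
  have h1 : ((WkSet G r u ×ˢ WkSet G r u').filter (fun q => c q.1 q.2)).card ≤
      D ^ (r - 1) * (WkSet G r u).card := by
    refine card_le_mul_card_image_of_maps_to (f := Prod.fst)
      (fun q hq => (mem_product.mp (mem_filter.mp hq).1).1) _ fun y _ => ?_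
    refine le_trans (card_le_card_of_injOn Prod.snd ?_ ?_) (h y)
    · intro q hq
      simp only [coe_filter, Set.mem_ofPred_eq, mem_filter, mem_product] at hq ⊢
      refine ⟨hq.1.1.2, ?_⟩
      rw [← hq.2]; exact hq.1.2
    · intro q hq q' hq' he
      simp only [coe_filter, Set.mem_ofPred_eq, mem_filter, mem_product] at hq hq'
      exact Prod.ext (hq.2.trans hq'.2.symm) he
  refine h1.trans ?_
  rw [show 2 * r - 1 = (r - 1) + r by omega, pow_add]
  exact Nat.mul_le_mul_left _ (wk_card_le hD r u)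

open scoped Classical in
lemma wk_card_bad_le (hD : ∀ v, dg G v univ ≤ D) (r : ℕ) (hr : 1 ≤ r) {u u' : V} (h : G.Adj u u') :
    ((WkSet G r u ×ˢ WkSet G r u').filter
      (fun q => ¬ Conf G r (q.1 (Fin.last r)) (q.2 (Fin.last r)))).card ≤
      2 * (r + 1) ^ 2 * D ^ (2 * r - 1) := by
  set P := WkSet G r u ×ˢ WkSet G r u' with hP
  let F1 : Fin (r + 1) × Fin (r + 1) → Finset ((Fin (r + 1) → V) × (Fin (r + 1) → V)) := fun k =>
    P.filter fun q => (k.1 < k.2 ∧ q.1 k.2 = q.1 k.1) ∨ (k.2 < k.1 ∧ q.2 k.1 = q.2 k.2)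
  let F2 : Fin (r + 1) × Fin (r + 1) → Finset ((Fin (r + 1) → V) × (Fin (r + 1) → V)) := fun k =>
    P.filter fun q => k ≠ (0, 0) ∧ q.1 k.1 = q.2 k.2
  have h1 : ∀ k, (F1 k).card ≤ D ^ (2 * r - 1) := by
    intro k
    rcases lt_trichotomy k.1 k.2 with hlt | heq | hgt
    · have : F1 k = P.filter fun q => q.1 k.2 = q.1 k.1 := by
        refine filter_congr fun q _ => ?_
        constructor
        · rintro (⟨_, h⟩ | ⟨h, _⟩)
          · exact h
          · exact absurd h (not_lt.mpr hlt.le)
        · intro h; exact Or.inl ⟨hlt, h⟩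
      rw [this]
      refine wk_card_x_le hD r hr u u' (fun x _ => x k.2 = x k.1) fun _ => ?_
      refine wk_card_fix_le hD r u k.2 (fun h0 => ?_) (fun x => x k.1) fun x x' hxx => hxx _ hlt
      rw [h0] at hlt
      exact absurd hlt (Fin.not_lt_zero _)
    · have : F1 k = ∅ := by
        refine filter_eq_empty_iff.mpr fun q _ => ?_
        rintro (⟨h, _⟩ | ⟨h, _⟩)
        · exact absurd h (by rw [heq]; exact lt_irrefl _)
        · exact absurd h (by rw [heq]; exact lt_irrefl _)
      rw [this]; simp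
    · have : F1 k = P.filter fun q => q.2 k.1 = q.2 k.2 := by
        refine filter_congr fun q _ => ?_
        constructor
        · rintro (⟨h, _⟩ | ⟨_, h⟩)
          · exact absurd h (not_lt.mpr hgt.le)
          · exact h
        · intro h; exact Or.inr ⟨hgt, h⟩
      rw [this]
      refine wk_card_y_le hD r hr u u' (fun _ y => y k.1 = y k.2) fun _ => ?_
      refine wk_card_fix_le hD r u' k.1 (fun h0 => ?_) (fun x => x k.2) fun x x' hxx => hxx _ hgt
      rw [h0] at hgt
      exact absurd hgt (Fin.not_lt_zero _)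
  have h2 : ∀ k, (F2 k).card ≤ D ^ (2 * r - 1) := by
    intro k
    by_cases hk : k = (0, 0)
    · have : F2 k = ∅ := filter_eq_empty_iff.mpr fun q _ hq => hq.1 hk
      rw [this]; simp
    have hF : F2 k = P.filter fun q => q.1 k.1 = q.2 k.2 := by
      refine filter_congr fun q _ => ?_
      exact ⟨fun h => h.2, fun h => ⟨hk, h⟩⟩
    rw [hF]
    by_cases hk2 : k.1 = 0
    · have hk3 : k.2 ≠ 0 := fun h => hk (Prod.ext hk2 h)
      refine wk_card_y_le hD r hr u u' (fun x y => x k.1 = y k.2) fun x => ?_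
      have := wk_card_fix_le hD r u' k.2 hk3 (fun _ => x k.1) fun _ _ _ => rfl
      simpa only [eq_comm] using this
    · refine wk_card_x_le hD r hr u u' (fun x y => x k.1 = y k.2) fun y => ?_
      exact wk_card_fix_le hD r u k.1 hk2 (fun _ => y k.2) fun _ _ _ => rfl
  have hsub : P.filter (fun q => ¬ Conf G r (q.1 (Fin.last r)) (q.2 (Fin.last r))) ⊆
      (univ.biUnion F1) ∪ (univ.biUnion F2) := by
    intro q hq
    rw [mem_filter] at hq
    obtain ⟨hqP, hq⟩ := hq
    have hq1 := (mem_product.mp hqP).1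
    have hq2 := (mem_product.mp hqP).2
    by_contra hcon
    rw [mem_union, not_or, mem_biUnion, mem_biUnion] at hcon
    push Not at hcon
    obtain ⟨hc1, hc2⟩ := hcon
    apply hq
    refine wk_conf_of h hq1 hq2 ?_ ?_ ?_
    · intro a b hab
      by_contra hne
      rcases lt_or_gt_of_ne hne with hlt | hlt
      · exact hc1 (a, b) (mem_univ _) (mem_filter.mpr ⟨hqP, Or.inl ⟨hlt, hab.symm⟩⟩)
      · exact hc1 (b, a) (mem_univ _) (mem_filter.mpr ⟨hqP, Or.inl ⟨hlt, hab⟩⟩)
    · intro a b hab
      by_contra hne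
      rcases lt_or_gt_of_ne hne with hlt | hlt
      · exact hc1 (b, a) (mem_univ _) (mem_filter.mpr ⟨hqP, Or.inr ⟨hlt, hab.symm⟩⟩)
      · exact hc1 (a, b) (mem_univ _) (mem_filter.mpr ⟨hqP, Or.inr ⟨hlt, hab⟩⟩)
    · intro i j hij
      by_cases h0 : (i, j) = ((0 : Fin (r + 1)), (0 : Fin (r + 1)))
      · rw [Prod.mk.injEq] at h0
        rw [h0.1, h0.2, (wk_mem.mp hq1).1, (wk_mem.mp hq2).1] at hij
        exact h.ne hij
      · exact hc2 (i, j) (mem_univ _) (mem_filter.mpr ⟨hqP, h0, hij⟩)
  refine (card_le_card hsub).trans ((card_union_le _ _).trans ?_)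
  have c1 : (univ.biUnion F1).card ≤ (r + 1) ^ 2 * D ^ (2 * r - 1) := by
    refine card_biUnion_le.trans ((sum_le_sum fun k _ => h1 k).trans ?_)
    rw [sum_const, card_univ, Fintype.card_prod, Fintype.card_fin, smul_eq_mul, sq]
  have c2 : (univ.biUnion F2).card ≤ (r + 1) ^ 2 * D ^ (2 * r - 1) := by
    refine card_biUnion_le.trans ((sum_le_sum fun k _ => h2 k).trans ?_)
    rw [sum_const, card_univ, Fintype.card_prod, Fintype.card_fin, smul_eq_mul, sq]
  calc _ ≤ (r + 1) ^ 2 * D ^ (2 * r - 1) + (r + 1) ^ 2 * D ^ (2 * r - 1) := add_le_add c1 c2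
    _ = _ := by ring

end bad

theorem walk_pairs (G : SimpleGraph V) {Δ : ℝ} (hΔ : 1 ≤ Δ)
    (hdeg : ∀ v, (dg G v univ : ℝ) ≤ Δ) (r : ℕ) (hr : 1 ≤ r) (S : Finset V) {u u' : V}
    (h : G.Adj u u') :
    (∑ z ∈ S, (adj G ^ r) u z) * (∑ z ∈ S, (adj G ^ r) u' z) ≤
      ∑ z ∈ S, ∑ z' ∈ S, ind (Conf G r z z') * ((adj G ^ r) u z * (adj G ^ r) u' z') +
        2 * ((r : ℝ) + 1) ^ 2 * Δ ^ (2 * r - 1) := by
  classical
  set D := ⌊Δ⌋₊ with hDdef
  have hD : ∀ v, dg G v univ ≤ D := fun v => Nat.le_floor (hdeg v)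
  have hDΔ : (D : ℝ) ≤ Δ := Nat.floor_le (by linarith)
  set A := (WkSet G r u).filter (fun x => x (Fin.last r) ∈ S) with hA
  set B := (WkSet G r u').filter (fun x => x (Fin.last r) ∈ S) with hB
  have e1 : ∑ z ∈ S, (adj G ^ r) u z = ∑ x ∈ A, (1 : ℝ) := by
    have := wk_sum_pow G r u S (fun _ => 1)
    simpa only [one_mul] using this
  have e2 : ∑ z ∈ S, (adj G ^ r) u' z = ∑ x ∈ B, (1 : ℝ) := by
    have := wk_sum_pow G r u' S (fun _ => 1)
    simpa only [one_mul] using this
  have e3 : ∑ z ∈ S, ∑ z' ∈ S, ind (Conf G r z z') * ((adj G ^ r) u z * (adj G ^ r) u' z') =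
      ∑ x ∈ A, ∑ y ∈ B, ind (Conf G r (x (Fin.last r)) (y (Fin.last r))) := by
    have f1 : ∀ z ∈ S, ∑ z' ∈ S, ind (Conf G r z z') * ((adj G ^ r) u z * (adj G ^ r) u' z') =
        (∑ y ∈ B, ind (Conf G r z (y (Fin.last r)))) * (adj G ^ r) u z := by
      intro z _
      have := wk_sum_pow G r u' S (fun z' => ind (Conf G r z z'))
      rw [← this, sum_mul]
      refine sum_congr rfl fun z' _ => ?_
      ring
    rw [sum_congr rfl f1]
    exact wk_sum_pow G r u S (fun z => ∑ y ∈ B, ind (Conf G r z (y (Fin.last r))))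
  rw [e1, e2, e3, sum_mul_sum, ← sub_le_iff_le_add', ← sum_sub_distrib]
  simp_rw [← sum_sub_distrib]
  rw [← sum_product']
  have h4 : ∑ q ∈ A ×ˢ B, ((1 : ℝ) * 1 - ind (Conf G r (q.1 (Fin.last r)) (q.2 (Fin.last r)))) ≤
      (((WkSet G r u ×ˢ WkSet G r u').filter
      (fun q => ¬ Conf G r (q.1 (Fin.last r)) (q.2 (Fin.last r)))).card : ℝ) := by
    rw [card_eq_sum_ones, Nat.cast_sum, sum_filter]
    have hsub : A ×ˢ B ⊆ WkSet G r u ×ˢ WkSet G r u' :=
      product_subset_product (filter_subset _ _) (filter_subset _ _)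
    refine le_trans ?_ (sum_le_sum_of_subset_of_nonneg hsub fun q _ _ => ?_)
    · refine sum_le_sum fun q _ => ?_
      by_cases hc : Conf G r (q.1 (Fin.last r)) (q.2 (Fin.last r))
      · rw [ind_true hc, if_neg (not_not_intro hc)]; norm_num
      · rw [ind_false hc, if_pos hc]; norm_num
    · split_ifs <;> norm_num
  refine h4.trans ?_
  have h5 := wk_card_bad_le hD r hr h
  calc (((WkSet G r u ×ˢ WkSet G r u').filter
      (fun q => ¬ Conf G r (q.1 (Fin.last r)) (q.2 (Fin.last r)))).card : ℝ)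
      ≤ ((2 * (r + 1) ^ 2 * D ^ (2 * r - 1) : ℕ) : ℝ) := by exact_mod_cast h5
    _ = 2 * ((r : ℝ) + 1) ^ 2 * (D : ℝ) ^ (2 * r - 1) := by push_cast; ring
    _ ≤ _ := by
      refine mul_le_mul_of_nonneg_left ?_ (by positivity)
      exact pow_le_pow_left₀ (Nat.cast_nonneg _) hDΔ _

end Pool.MP_1bacea_co
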