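import Pool.Agent.Lib.MP_1bacea_co.Frob
import Pool.Agent.Lib.MP_1bacea_co.Walk

/-!
Many edges between vertices which send many walks to `S` give many conflict pairs in `S`.
-/

set_option autoImplicit false

open Finset

namespace Pool.MP_1bacea_co

variable {V : Type*} [Fintype V] [DecidableEq V]

lemma adj_isSymm (G : SimpleGraph V) : (adj G).IsSymm := by
  ext u v
  simp only [Matrix.transpose_apply, adj, G.adj_comm]

lemma adj_nonneg (G : SimpleGraph V) (u v : V) : 0 ≤ adj G u v := ind_nonneg _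

lemma adj_mono {G G' : SimpleGraph V} (h : G ≤ G') (u v : V) : adj G u v ≤ adj G' u v :=
  ind_mono fun h' => h h'

lemma sum_adj (G : SimpleGraph V) (v : V) (A : Finset V) : ∑ u ∈ A, adj G v u = dg G v A := by
  classical
  unfold adj dg
  rw [card_filter]
  push_cast
  refine sum_congr rfl fun u _ => ?_
  by_cases h : G.Adj v u
  · rw [ind_true h]; simp [h]
  · rw [ind_false h]; simp [h]

lemma pow_nonneg_entries {M : Matrix V V ℝ} (h : ∀ u v, 0 ≤ M u v) (r : ℕ) (u v : V) :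
    0 ≤ (M ^ r) u v := by
  induction r generalizing u v with
  | zero =>
    rw [pow_zero, Matrix.one_apply]
    split_ifs <;> norm_num
  | succ r ih =>
    rw [pow_succ, Matrix.mul_apply]
    exact sum_nonneg fun w _ => mul_nonneg (ih _ _) (h _ _)

lemma mul_mono_entries {M N M' N' : Matrix V V ℝ} (h : ∀ u v, M u v ≤ N u v)
    (h' : ∀ u v, M' u v ≤ N' u v) (hM' : ∀ u v, 0 ≤ M' u v) (hN : ∀ u v, 0 ≤ N u v) (u v : V) :
    (M * M') u v ≤ (N * N') u v := by
  rw [Matrix.mul_apply, Matrix.mul_apply]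
  exact sum_le_sum fun w _ => mul_le_mul (h _ _) (h' _ _) (hM' _ _) (hN _ _)

lemma pow_mono_entries {M N : Matrix V V ℝ} (h0 : ∀ u v, 0 ≤ M u v) (h : ∀ u v, M u v ≤ N u v)
    (r : ℕ) (u v : V) : (M ^ r) u v ≤ (N ^ r) u v := by
  induction r generalizing u v with
  | zero => simp
  | succ r ih =>
    rw [pow_succ, pow_succ]
    exact mul_mono_entries ih h h0
      (fun a b => pow_nonneg_entries (fun a b => (h0 a b).trans (h a b)) r a b) u v

lemma mul_nonneg_entries {M N : Matrix V V ℝ} (h : ∀ u v, 0 ≤ M u v)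
    (h' : ∀ u v, 0 ≤ N u v) (u v : V) : 0 ≤ (M * N) u v := by
  rw [Matrix.mul_apply]
  exact sum_nonneg fun w _ => mul_nonneg (h _ _) (h' _ _)

lemma fr_mono {M N : Matrix V V ℝ} (h0 : ∀ u v, 0 ≤ M u v) (h : ∀ u v, M u v ≤ N u v) :
    fr M ≤ fr N :=
  sum_le_sum fun u _ => sum_le_sum fun v _ => pow_le_pow_left₀ (h0 u v) (h u v) 2

/-- the matrix of the edges of `G` inside `W` -/
noncomputable def HW (G : SimpleGraph V) (W : Finset V) : Matrix V V ℝ :=
  fun u v => ind (G.Adj u v ∧ u ∈ W ∧ v ∈ W)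

omit [Fintype V] [DecidableEq V] in
lemma HW_isSymm (G : SimpleGraph V) (W : Finset V) : (HW G W).IsSymm := by
  ext u v
  simp only [Matrix.transpose_apply, HW, G.adj_comm, and_comm (a := u ∈ W)]

omit [Fintype V] [DecidableEq V] in
lemma HW_nonneg (G : SimpleGraph V) (W : Finset V) (u v : V) : 0 ≤ HW G W u v := ind_nonneg _

omit [Fintype V] [DecidableEq V] in
lemma HW_01 (G : SimpleGraph V) (W : Finset V) (u v : V) : HW G W u v = 0 ∨ HW G W u v = 1 := by
  unfold HW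
  by_cases h : G.Adj u v ∧ u ∈ W ∧ v ∈ W
  · right; exact ind_true h
  · left; exact ind_false h

/-- the main counting inequality -/
theorem dense_count (G₀ Γ : SimpleGraph V) (hG : G₀ ≤ Γ) {Δ : ℝ} (hΔ : 1 ≤ Δ)
    (hdeg : ∀ v, (dg Γ v univ : ℝ) ≤ Δ) (r : ℕ) (hr : 1 ≤ r) (S W : Finset V) {K : ℝ} (hK0 : 0 ≤ K)
    (hK : 2 * ((r : ℝ) + 1) ^ 2 * Δ ^ (2 * r - 1) ≤ K ^ 2 / 2)
    (hW : ∀ u ∈ W, K ≤ ∑ z ∈ S, (adj G₀ ^ r) u z) :
    ((∑ u, ∑ v, HW G₀ W u v) * (K ^ 2 / 2)) ^ 2 ≤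
      npairs (Conf G₀ r) S * fr (adj Γ ^ r * HW G₀ W * adj Γ ^ r) := by
  classical
  set M := adj G₀ with hM
  set H := HW G₀ W with hH
  have hdeg0 : ∀ v, (dg G₀ v univ : ℝ) ≤ Δ := by
    intro v
    refine le_trans ?_ (hdeg v)
    rw [← sum_adj, ← sum_adj]
    exact sum_le_sum fun u _ => adj_mono hG _ _
  have hM0 : ∀ u v, 0 ≤ M u v := adj_nonneg G₀
  have hMr0 : ∀ u v, 0 ≤ (M ^ r) u v := pow_nonneg_entries hM0 r
  have hMs : (M ^ r).IsSymm := (adj_isSymm G₀).pow r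
  -- step 1
  have h1 : ∀ u u', H u u' * (K ^ 2 / 2) ≤ H u u' * ∑ z ∈ S, ∑ z' ∈ S,
      ind (Conf G₀ r z z') * ((M ^ r) u z * (M ^ r) u' z') := by
    intro u u'
    rcases HW_01 G₀ W u u' with h0 | h1
    · rw [hH, h0]; simp
    · rw [hH, h1, one_mul, one_mul]
      have hadj : G₀.Adj u u' ∧ u ∈ W ∧ u' ∈ W := by
        by_contra hc
        have : HW G₀ W u u' = 0 := ind_false hc
        rw [this] at h1; norm_num at h1
      have h2 := walk_pairs G₀ hΔ hdeg0 r hr S hadj.1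
      have h3 : K ^ 2 ≤ (∑ z ∈ S, (adj G₀ ^ r) u z) * (∑ z ∈ S, (adj G₀ ^ r) u' z) := by
        rw [sq]
        exact mul_le_mul (hW u hadj.2.1) (hW u' hadj.2.2) hK0 (hK0.trans (hW u hadj.2.1))
      linarith
  have h2 : (∑ u, ∑ v, H u v) * (K ^ 2 / 2) ≤
      ∑ z ∈ S, ∑ z' ∈ S, ind (Conf G₀ r z z') * (M ^ r * H * M ^ r) z z' := by
    calc (∑ u, ∑ v, H u v) * (K ^ 2 / 2) = ∑ u, ∑ u', H u u' * (K ^ 2 / 2) := by
          rw [sum_mul]
          exact sum_congr rfl fun u _ => by rw [sum_mul]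
      _ ≤ ∑ u, ∑ u', H u u' * ∑ z ∈ S, ∑ z' ∈ S,
          ind (Conf G₀ r z z') * ((M ^ r) u z * (M ^ r) u' z') :=
          sum_le_sum fun u _ => sum_le_sum fun u' _ => h1 u u'
      _ = _ := by
          have e : ∀ z z', (M ^ r * H * M ^ r) z z' = ∑ u, ∑ u', H u u' * ((M ^ r) u z * (M ^ r) u' z') := by
            intro z z'
            rw [Matrix.mul_apply]
            simp_rw [Matrix.mul_apply, sum_mul]
            rw [sum_comm]
            refine sum_congr rfl fun u _ => sum_congr rfl fun u' _ => ?_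
            have : (M ^ r) z u = (M ^ r) u z := hMs.apply u z
            rw [this]
            ring
          simp_rw [e, mul_sum]
          calc ∑ u, ∑ u', ∑ z ∈ S, ∑ z' ∈ S, H u u' * (ind (Conf G₀ r z z') * ((M ^ r) u z * (M ^ r) u' z'))
              = ∑ u, ∑ z ∈ S, ∑ u', ∑ z' ∈ S, H u u' * (ind (Conf G₀ r z z') * ((M ^ r) u z * (M ^ r) u' z')) := by
                refine sum_congr rfl fun u _ => ?_
                rw [sum_comm]
            _ = ∑ z ∈ S, ∑ u, ∑ u', ∑ z' ∈ S, H u u' * (ind (Conf G₀ r z z') * ((M ^ r) u z * (M ^ r) u' z')) := by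
                rw [sum_comm]
            _ = ∑ z ∈ S, ∑ u, ∑ z' ∈ S, ∑ u', H u u' * (ind (Conf G₀ r z z') * ((M ^ r) u z * (M ^ r) u' z')) := by
                refine sum_congr rfl fun z _ => sum_congr rfl fun u _ => ?_
                rw [sum_comm]
            _ = ∑ z ∈ S, ∑ z' ∈ S, ∑ u, ∑ u', H u u' * (ind (Conf G₀ r z z') * ((M ^ r) u z * (M ^ r) u' z')) := by
                refine sum_congr rfl fun z _ => ?_
                rw [sum_comm]
            _ = _ := by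
                refine sum_congr rfl fun z _ => sum_congr rfl fun z' _ => sum_congr rfl fun u _ =>
                  sum_congr rfl fun u' _ => ?_
                ring
  -- Cauchy–Schwarz
  have hN0 : ∀ z z', 0 ≤ (M ^ r * H * M ^ r) z z' := fun z z' =>
    mul_nonneg_entries (fun a b => mul_nonneg_entries hMr0 (HW_nonneg G₀ W) a b) hMr0 z z'
  have h3 : (∑ z ∈ S, ∑ z' ∈ S, ind (Conf G₀ r z z') * (M ^ r * H * M ^ r) z z') ^ 2 ≤
      npairs (Conf G₀ r) S * fr (M ^ r * H * M ^ r) := by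
    rw [← sum_product']
    refine (sum_mul_sq_le_sq_mul_sq (S ×ˢ S) (fun q => ind (Conf G₀ r q.1 q.2))
      (fun q => (M ^ r * H * M ^ r) q.1 q.2)).trans ?_
    refine mul_le_mul ?_ ?_ (sum_nonneg fun _ _ => sq_nonneg _) (Nat.cast_nonneg _)
    · unfold npairs
      rw [card_filter]
      push_cast
      refine sum_le_sum fun q _ => ?_
      by_cases h : Conf G₀ r q.1 q.2
      · rw [ind_true h]; simp [h]
      · rw [ind_false h]; simp [h]
    · unfold fr
      rw [← Fintype.sum_prod_type']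
      exact sum_le_sum_of_subset_of_nonneg (subset_univ _) fun _ _ _ => sq_nonneg _
  have h4 : fr (M ^ r * H * M ^ r) ≤ fr (adj Γ ^ r * H * adj Γ ^ r) := by
    have hp : ∀ u v, (M ^ r) u v ≤ (adj Γ ^ r) u v := pow_mono_entries hM0 (adj_mono hG) r
    have hΓ0 : ∀ u v, 0 ≤ (adj Γ ^ r) u v := pow_nonneg_entries (adj_nonneg Γ) r
    refine fr_mono hN0 fun u v => ?_
    refine mul_mono_entries (fun a b => ?_) hp hMr0 ?_ u v
    · exact mul_mono_entries hp (fun _ _ => le_rfl) (HW_nonneg G₀ W) hΓ0 a b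
    · exact fun a b => mul_nonneg_entries hΓ0 (HW_nonneg G₀ W) a b
  have h5 : 0 ≤ (∑ u, ∑ v, H u v) * (K ^ 2 / 2) :=
    mul_nonneg (sum_nonneg fun u _ => sum_nonneg fun v _ => HW_nonneg G₀ W u v) (by positivity)
  calc ((∑ u, ∑ v, H u v) * (K ^ 2 / 2)) ^ 2 ≤ _ := pow_le_pow_left₀ h5 h2 2
    _ ≤ _ := h3
    _ ≤ _ := mul_le_mul_of_nonneg_left h4 (Nat.cast_nonneg _)

end Pool.MP_1bacea_co
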