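import Pool.Agent.Lib.MP_1bacea_co.Walk

/-!
Counting single walks of length 2r+1 (a walk with 2r+2 distinct vertices gives Conf).
(adj G ^ m) z z' = number of walks (lemma wk_sum_pow in Walk.lean); a walk of length 2r+1 from z that is not
injective has x_i = x_j for some i < j, at most Δ^{2r} walks for each such pair (wk_card_fix_le or the same
induction); total ≤ (2r+2)^2 Δ^{2r}.
-/

set_option autoImplicit false

open Finset

namespace Pool.MP_1bacea_co

variable {V : Type*} [Fintype V] [DecidableEq V]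

open scoped Classical in
/-- the walks of length `2r+1` from `z` whose endpoints are not in conflict are few -/
lemma wo_card_bad_le {G : SimpleGraph V} {D : ℕ} (hD : ∀ v, dg G v univ ≤ D) (r : ℕ) (z : V) :
    ((WkSet G (2 * r + 1) z).filter (fun x => ¬ Conf G r z (x (Fin.last (2 * r + 1))))).card ≤
      (2 * r + 2) ^ 2 * D ^ (2 * r) := by
  let F : Fin (2 * r + 1 + 1) × Fin (2 * r + 1 + 1) → Finset (Fin (2 * r + 1 + 1) → V) := fun k =>
    (WkSet G (2 * r + 1) z).filter fun x => k.1 < k.2 ∧ x k.2 = x k.1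
  have h1 : ∀ k, (F k).card ≤ D ^ (2 * r) := by
    intro k
    by_cases hlt : k.1 < k.2
    · have : F k = (WkSet G (2 * r + 1) z).filter fun x => x k.2 = x k.1 := by
        refine filter_congr fun q _ => ?_
        exact ⟨fun h => h.2, fun h => ⟨hlt, h⟩⟩
      rw [this]
      refine wk_card_fix_le hD (2 * r + 1) z k.2 (fun h0 => ?_) (fun x => x k.1)
        fun x x' hxx => hxx _ hlt
      rw [h0] at hlt
      exact absurd hlt (Fin.not_lt_zero _)
    · have : F k = ∅ := filter_eq_empty_iff.mpr fun q _ hq => hlt hq.1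
      rw [this]; simp
  have hsub : (WkSet G (2 * r + 1) z).filter
      (fun x => ¬ Conf G r z (x (Fin.last (2 * r + 1)))) ⊆ univ.biUnion F := by
    intro x hx
    rw [mem_filter] at hx
    obtain ⟨hxW, hx⟩ := hx
    by_contra hcon
    rw [mem_biUnion] at hcon
    push Not at hcon
    apply hx
    refine ⟨x, ?_, (wk_mem.mp hxW).2, (wk_mem.mp hxW).1, rfl⟩
    intro a b hab
    by_contra hne
    rcases lt_or_gt_of_ne hne with hlt | hlt
    · exact hcon (a, b) (mem_univ _) (mem_filter.mpr ⟨hxW, hlt, hab.symm⟩)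
    · exact hcon (b, a) (mem_univ _) (mem_filter.mpr ⟨hxW, hlt, hab⟩)
  refine (card_le_card hsub).trans (card_biUnion_le.trans ((sum_le_sum fun k _ => h1 k).trans ?_))
  rw [sum_const, card_univ, Fintype.card_prod, Fintype.card_fin, smul_eq_mul, sq]

theorem walk_one (G : SimpleGraph V) {Δ : ℝ} (hΔ : 1 ≤ Δ)
    (hdeg : ∀ v, (dg G v univ : ℝ) ≤ Δ) (r : ℕ) (S : Finset V) (z : V) :
    ∑ z' ∈ S, (adj G ^ (2 * r + 1)) z z' ≤
      ∑ z' ∈ S, ind (Conf G r z z') * (adj G ^ (2 * r + 1)) z z' +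
        (2 * (r : ℝ) + 2) ^ 2 * Δ ^ (2 * r) := by
  classical
  set D := ⌊Δ⌋₊ with hDdef
  have hD : ∀ v, dg G v univ ≤ D := fun v => Nat.le_floor (hdeg v)
  have hDΔ : (D : ℝ) ≤ Δ := Nat.floor_le (by linarith)
  set A := (WkSet G (2 * r + 1) z).filter (fun x => x (Fin.last (2 * r + 1)) ∈ S) with hA
  have e1 : ∑ z' ∈ S, (adj G ^ (2 * r + 1)) z z' = ∑ x ∈ A, (1 : ℝ) := by
    have := wk_sum_pow G (2 * r + 1) z S (fun _ => 1)
    simpa only [one_mul] using this
  have e3 : ∑ z' ∈ S, ind (Conf G r z z') * (adj G ^ (2 * r + 1)) z z' =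
      ∑ x ∈ A, ind (Conf G r z (x (Fin.last (2 * r + 1)))) :=
    wk_sum_pow G (2 * r + 1) z S (fun z' => ind (Conf G r z z'))
  have hsub : A ⊆ WkSet G (2 * r + 1) z := filter_subset _ _
  rw [e1, e3, ← sub_le_iff_le_add', ← sum_sub_distrib]
  clear e1 e3
  clear_value A
  have h4 : ∑ x ∈ A, ((1 : ℝ) - ind (Conf G r z (x (Fin.last (2 * r + 1))))) ≤
      (((WkSet G (2 * r + 1) z).filter
        (fun x => ¬ Conf G r z (x (Fin.last (2 * r + 1))))).card : ℝ) := by
    rw [card_eq_sum_ones, Nat.cast_sum, sum_filter]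
    refine le_trans ?_ (sum_le_sum_of_subset_of_nonneg hsub fun q _ _ => ?_)
    · refine sum_le_sum fun q _ => ?_
      by_cases hc : Conf G r z (q (Fin.last (2 * r + 1)))
      · rw [ind_true hc, if_neg (not_not_intro hc)]; norm_num
      · rw [ind_false hc, if_pos hc]; norm_num
    · split_ifs <;> norm_num
  refine h4.trans ?_
  have h5 := wo_card_bad_le hD r z
  calc (((WkSet G (2 * r + 1) z).filter
      (fun x => ¬ Conf G r z (x (Fin.last (2 * r + 1))))).card : ℝ)
      ≤ (((2 * r + 2) ^ 2 * D ^ (2 * r) : ℕ) : ℝ) := by exact_mod_cast h5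
    _ = (2 * (r : ℝ) + 2) ^ 2 * (D : ℝ) ^ (2 * r) := by push_cast; ring
    _ ≤ _ := by
      refine mul_le_mul_of_nonneg_left ?_ (by positivity)
      exact pow_le_pow_left₀ (Nat.cast_nonneg _) hDΔ _

end Pool.MP_1bacea_co
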