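import Pool.Agent.Lib.MP_1bacea_co.Determ
import Pool.Agent.Lib.MP_1bacea_co.WalkOne
import Pool.Agent.Lib.MP_1bacea_co.DefsC

/-!
Deterministic part of the bound `1/2`.
-/

set_option autoImplicit false

open Finset

namespace Pool.MP_1bacea_co

variable {V : Type*} [Fintype V] [DecidableEq V]

/-- the numerical conditions -/
structure NumC (n p Δ Θ γ a b b0 h : ℝ) (r : ℕ) : Prop where
  hn : 0 < n
  hp : 0 ≤ p
  hΔ : 1 ≤ Δ
  hΘ : 0 ≤ Θ
  hΘΔ : 2 * Θ ≤ Δ ^ 2
  hpΔ : 2 * (p * n) ^ 2 ≤ Δ ^ 2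
  ha : 0 < a
  hb0 : 0 < b0
  hh : 0 < h
  hab : p * (b / 2) + 2 * h ≤ a
  hbad : Θ * n * Δ ^ (2 * r) ≤ h ^ 2 * (b0 / 2) * (a ^ (2 * r) / 4)
  hpath : (2 * (r : ℝ) + 2) ^ 2 * Δ ^ (2 * r) ≤ h * a ^ (2 * r) / 4
  hγ : γ * ((2 * Θ) ^ (2 * r + 1) * n + ((2 * r + 1 : ℕ) : ℝ) * Δ ^ (2 * (2 * r + 1))) ≤
    (h * a ^ (2 * r) / 2) ^ 2

section

variable {Γ G : SimpleGraph V} {p Δ Θ γ a b b0 h : ℝ} {r : ℕ}

lemma row_pow_le {M : Matrix V V ℝ} (h0 : ∀ u v, 0 ≤ M u v) (hΔ : 0 ≤ Δ)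
    (hrow : ∀ u, ∑ v, M u v ≤ Δ) (m : ℕ) (u : V) : ∑ v, (M ^ m) u v ≤ Δ ^ m := by
  induction m generalizing u with
  | zero => simp [Matrix.one_apply]
  | succ m ih =>
    have e : ∑ z, (M ^ (m + 1)) u z = ∑ v, M u v * ∑ z, (M ^ m) v z := by
      simp_rw [pow_succ', Matrix.mul_apply, mul_sum]
      rw [sum_comm]
    rw [e]
    calc ∑ v, M u v * ∑ z, (M ^ m) v z ≤ ∑ v, M u v * Δ ^ m :=
          sum_le_sum fun v _ => mul_le_mul_of_nonneg_left (ih v) (h0 _ _)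
      _ = (∑ v, M u v) * Δ ^ m := by rw [sum_mul]
      _ ≤ Δ * Δ ^ m := mul_le_mul_of_nonneg_right (hrow u) (pow_nonneg hΔ m)
      _ = _ := by ring

/-- few vertices have many neighbours in `T` -/
lemma few_bad (hp : 0 ≤ p) (hΘ : 0 ≤ Θ) (hh : 0 < h)
    (hnorm : ∀ x : V → ℝ,
      ns (Matrix.mulVec (fun u v => adj Γ u v - if u = v then 0 else p) x) ≤ Θ * ns x)
    (T B : Finset V) (hB : ∀ x ∈ B, p * T.card + h ≤ dg Γ x T) :
    (B.card : ℝ) * h ^ 2 ≤ Θ * Fintype.card V := by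
  have hT : ns (fun v => ind (v ∈ T)) ≤ Fintype.card V := by
    unfold ns
    calc ∑ v, ind (v ∈ T) ^ 2 ≤ ∑ _v : V, (1 : ℝ) := by
          refine sum_le_sum fun v _ => ?_
          exact pow_le_one₀ (ind_nonneg _) (ind_le_one _)
      _ = _ := by simp
  have h1 := hnorm (fun v => ind (v ∈ T))
  have h2 : (B.card : ℝ) * h ^ 2 ≤
      ns (Matrix.mulVec (fun u v => adj Γ u v - if u = v then 0 else p) (fun v => ind (v ∈ T))) := by
    unfold ns
    rw [← nsmul_eq_mul, ← sum_const]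
    refine (sum_le_sum (f := fun _ => h ^ 2)
      (g := fun x => (Matrix.mulVec (fun u v => adj Γ u v - if u = v then 0 else p)
      (fun v => ind (v ∈ T)) x) ^ 2) ?_).trans (sum_le_sum_of_subset_of_nonneg (subset_univ B)
      fun _ _ _ => sq_nonneg _)
    intro x hx
    refine pow_le_pow_left₀ hh.le ?_ 2
    unfold Matrix.mulVec dotProduct
    have h3 : ∑ v, (adj Γ x v - if x = v then 0 else p) * ind (v ∈ T) =
        ∑ v ∈ T, (adj Γ x v - if x = v then 0 else p) := by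
      rw [← sum_subset (subset_univ T)]
      · refine sum_congr rfl fun v hv => ?_
        rw [ind_true hv, mul_one]
      · intro v _ hv
        rw [ind_false hv, mul_zero]
    show h ≤ ∑ v, (adj Γ x v - if x = v then 0 else p) * ind (v ∈ T)
    rw [h3, sum_sub_distrib, sum_adj]
    have h4 : ∑ v ∈ T, (if x = v then 0 else p) ≤ p * T.card := by
      rw [mul_comm, ← nsmul_eq_mul, ← sum_const]
      refine sum_le_sum fun v _ => ?_
      split_ifs
      · exact hp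
      · exact le_rfl
    have := hB x hx
    linarith
  exact (h2.trans h1).trans (mul_le_mul_of_nonneg_left hT hΘ)

lemma dg_inP {P S : Finset V} (hS : S ⊆ P) {y : V} (hy : y ∈ P) : dg (inP G P) y S = dg G y S := by
  classical
  unfold dg
  congr 1
  ext u
  simp only [mem_filter, inP]
  constructor
  · rintro ⟨h1, h2⟩; exact ⟨h1, h2.1⟩
  · rintro ⟨h1, h2⟩; exact ⟨h1, h2, hy, hS h1⟩

lemma dg_split {P S : Finset V} (hS : S ⊆ P) (y : V) : dg G y P = dg G y S + dg G y (P \ S) := by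
  have : (dg G y P : ℝ) = dg G y S + dg G y (P \ S) := by
    rw [← sum_adj, ← sum_adj, ← sum_adj, add_comm, sum_sdiff hS]
  exact_mod_cast this

/-- every half of `P` has a dense conflict relation -/
theorem dense_half (N : NumC (Fintype.card V) p Δ Θ γ a b b0 h r) (hG : G ≤ Γ)
    (hdeg : ∀ v, (dg Γ v univ : ℝ) ≤ Δ)
    (hnorm : ∀ x : V → ℝ,
      ns (Matrix.mulVec (fun u v => adj Γ u v - if u = v then 0 else p) x) ≤ Θ * ns x)
    (P : Finset V) (hP : ∀ v, a ≤ dg G v P) (hPb : (P.card : ℝ) ≤ b) (hPb0 : b0 ≤ P.card)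
    (S : Finset V) (hS : S ⊆ P) (hS2 : (P.card : ℝ) / 2 ≤ S.card) :
    γ * (S.card : ℝ) ^ 2 ≤ npairs (Conf (inP G P) r) S := by
  classical
  set M := adj (inP G P) with hM
  have hG0 : inP G P ≤ Γ := (inP_le G P).trans hG
  have hM0 : ∀ u v, 0 ≤ M u v := adj_nonneg _
  have hMsym : M.IsSymm := adj_isSymm _
  have hdeg0 : ∀ v, (dg (inP G P) v univ : ℝ) ≤ Δ := fun v =>
    le_trans (by exact_mod_cast dg_mono hG0 v univ) (hdeg v)
  have hrow : ∀ u, ∑ v, M u v ≤ Δ := fun u => by rw [hM, sum_adj]; exact hdeg0 u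
  have hΔ0 : 0 ≤ Δ := by linarith [N.hΔ]
  have hTcard : ((P \ S).card : ℝ) ≤ b / 2 := by
    rw [card_sdiff_of_subset hS, Nat.cast_sub (card_le_card hS)]
    linarith
  -- bad vertices
  set B : Finset V := univ.filter fun x => p * (P \ S).card + h ≤ dg Γ x (P \ S) with hB
  have hBcard := few_bad (Γ := Γ) N.hp N.hΘ N.hh hnorm (P \ S) B (fun x hx => (mem_filter.mp hx).2)
  have hgood : ∀ y ∈ P, y ∉ B → h ≤ dg (inP G P) y S := by
    intro y hy hyB
    have h1 : (dg Γ y (P \ S) : ℝ) < p * (P \ S).card + h := by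
      by_contra hcon
      push Not at hcon
      exact hyB (mem_filter.mpr ⟨mem_univ _, hcon⟩)
    have h2 : (dg G y (P \ S) : ℝ) ≤ dg Γ y (P \ S) := by exact_mod_cast dg_mono hG y (P \ S)
    have h3 : (dg G y P : ℝ) = dg G y S + dg G y (P \ S) := by exact_mod_cast dg_split hS y
    have h4 := hP y
    have h5 := N.hab
    have h6 : p * (P \ S).card ≤ p * (b / 2) := mul_le_mul_of_nonneg_left hTcard N.hp
    rw [dg_inP hS hy]
    linarith
  -- lower bound for the number of walks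
  have hSpos : b0 / 2 ≤ S.card := by linarith
  have hS0 : (0 : ℝ) < S.card := by have := N.hb0; linarith
  have hw : ∀ z ∈ S, a ^ (2 * r) ≤ ∑ y ∈ P, (M ^ (2 * r)) z y := fun z hz =>
    walks_ge P N.ha.le hP (2 * r) (hS hz)
  have hlow : h * (S.card * a ^ (2 * r) - B.card * Δ ^ (2 * r)) ≤
      ∑ z ∈ S, ∑ z' ∈ S, (M ^ (2 * r + 1)) z z' := by
    have e : ∀ z, ∑ z' ∈ S, (M ^ (2 * r + 1)) z z' = ∑ y, (M ^ (2 * r)) z y * ∑ z' ∈ S, M y z' := by
      intro z
      simp_rw [pow_succ M (2 * r), Matrix.mul_apply, mul_sum]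
      rw [sum_comm]
    have h1 : ∀ z ∈ S, h * (∑ y ∈ P, (M ^ (2 * r)) z y - ∑ y ∈ B, (M ^ (2 * r)) z y) ≤
        ∑ z' ∈ S, (M ^ (2 * r + 1)) z z' := by
      intro z hz
      rw [e]
      have h2 : ∑ y ∈ P, (M ^ (2 * r)) z y - ∑ y ∈ B, (M ^ (2 * r)) z y ≤
          ∑ y ∈ P \ B, (M ^ (2 * r)) z y := by
        have h3 : ∑ y ∈ P, (M ^ (2 * r)) z y ≤
            ∑ y ∈ P \ B, (M ^ (2 * r)) z y + ∑ y ∈ B, (M ^ (2 * r)) z y := by
          rw [← sum_union sdiff_disjoint]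
          refine sum_le_sum_of_subset_of_nonneg ?_ fun _ _ _ => pow_nonneg_entries hM0 _ _ _
          intro y hy
          by_cases hyB : y ∈ B
          · exact mem_union_right _ hyB
          · exact mem_union_left _ (mem_sdiff.mpr ⟨hy, hyB⟩)
        linarith
      calc h * (∑ y ∈ P, (M ^ (2 * r)) z y - ∑ y ∈ B, (M ^ (2 * r)) z y)
          ≤ h * ∑ y ∈ P \ B, (M ^ (2 * r)) z y := mul_le_mul_of_nonneg_left h2 N.hh.le
        _ = ∑ y ∈ P \ B, (M ^ (2 * r)) z y * h := by rw [mul_sum]; exact sum_congr rfl fun _ _ => mul_comm _ _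
        _ ≤ ∑ y ∈ P \ B, (M ^ (2 * r)) z y * ∑ z' ∈ S, M y z' := by
            refine sum_le_sum fun y hy => mul_le_mul_of_nonneg_left ?_ (pow_nonneg_entries hM0 _ _ _)
            rw [hM, sum_adj]
            exact hgood y (mem_sdiff.mp hy).1 (mem_sdiff.mp hy).2
        _ ≤ _ := by
            refine sum_le_sum_of_subset_of_nonneg (subset_univ _) fun y _ _ => ?_
            exact mul_nonneg (pow_nonneg_entries hM0 _ _ _) (sum_nonneg fun z' _ => hM0 _ _)
    have h2 : ∑ z ∈ S, h * (∑ y ∈ P, (M ^ (2 * r)) z y - ∑ y ∈ B, (M ^ (2 * r)) z y) ≤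
        ∑ z ∈ S, ∑ z' ∈ S, (M ^ (2 * r + 1)) z z' := sum_le_sum h1
    refine le_trans ?_ h2
    rw [← mul_sum, sum_sub_distrib]
    refine mul_le_mul_of_nonneg_left ?_ N.hh.le
    have h3 : (S.card : ℝ) * a ^ (2 * r) ≤ ∑ z ∈ S, ∑ y ∈ P, (M ^ (2 * r)) z y := by
      rw [← nsmul_eq_mul, ← sum_const]
      exact sum_le_sum hw
    have h4 : ∑ z ∈ S, ∑ y ∈ B, (M ^ (2 * r)) z y ≤ B.card * Δ ^ (2 * r) := by
      rw [sum_comm, ← nsmul_eq_mul, ← sum_const]
      refine sum_le_sum fun y _ => ?_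
      refine le_trans ?_ (row_pow_le hM0 hΔ0 hrow (2 * r) y)
      have hs : (M ^ (2 * r)).IsSymm := hMsym.pow _
      calc ∑ z ∈ S, (M ^ (2 * r)) z y = ∑ z ∈ S, (M ^ (2 * r)) y z :=
            sum_congr rfl fun z _ => hs.apply y z
        _ ≤ _ := sum_le_sum_of_subset_of_nonneg (subset_univ S) fun _ _ _ => pow_nonneg_entries hM0 _ _ _
    linarith
  have hlow2 : h * a ^ (2 * r) / 2 * S.card ≤
      ∑ z ∈ S, ∑ z' ∈ S, ind (Conf (inP G P) r z z') * (M ^ (2 * r + 1)) z z' := by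
    have h1 : ∑ z ∈ S, ∑ z' ∈ S, (M ^ (2 * r + 1)) z z' ≤
        ∑ z ∈ S, (∑ z' ∈ S, ind (Conf (inP G P) r z z') * (M ^ (2 * r + 1)) z z' +
          (2 * (r : ℝ) + 2) ^ 2 * Δ ^ (2 * r)) :=
      sum_le_sum fun z _ => walk_one (inP G P) N.hΔ hdeg0 r S z
    rw [sum_add_distrib, sum_const, nsmul_eq_mul] at h1
    have h2 : (S.card : ℝ) * ((2 * (r : ℝ) + 2) ^ 2 * Δ ^ (2 * r)) ≤ S.card * (h * a ^ (2 * r) / 4) :=
      mul_le_mul_of_nonneg_left N.hpath hS0.le
    have h3 : h * (B.card * Δ ^ (2 * r)) ≤ h * (S.card * (a ^ (2 * r) / 4)) := by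
      refine mul_le_mul_of_nonneg_left ?_ N.hh.le
      have hh2 : 0 < h ^ 2 := by have := N.hh; positivity
      have h4 : (B.card * Δ ^ (2 * r)) * h ^ 2 ≤ (S.card * (a ^ (2 * r) / 4)) * h ^ 2 := by
        calc (B.card * Δ ^ (2 * r)) * h ^ 2 = (B.card * h ^ 2) * Δ ^ (2 * r) := by ring
          _ ≤ (Θ * Fintype.card V) * Δ ^ (2 * r) := mul_le_mul_of_nonneg_right hBcard (by positivity)
          _ ≤ h ^ 2 * (b0 / 2) * (a ^ (2 * r) / 4) := N.hbad
          _ ≤ h ^ 2 * S.card * (a ^ (2 * r) / 4) := by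
              refine mul_le_mul_of_nonneg_right ?_ (by have := N.ha; positivity)
              exact mul_le_mul_of_nonneg_left hSpos hh2.le
          _ = _ := by ring
      exact le_of_mul_le_mul_right h4 hh2
    nlinarith
  -- Cauchy–Schwarz
  set F : ℝ := (2 * Θ) ^ (2 * r + 1) * Fintype.card V +
    ((2 * r + 1 : ℕ) : ℝ) * Δ ^ (2 * (2 * r + 1)) with hF
  have hnpos : (0 : ℝ) < Fintype.card V := N.hn
  have hfr : fr (M ^ (2 * r + 1)) ≤ F := by
    have h1 : fr (M ^ (2 * r + 1)) ≤ fr (adj Γ ^ (2 * r + 1)) :=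
      fr_mono (pow_nonneg_entries hM0 _) (pow_mono_entries hM0 (adj_mono hG0) _)
    refine h1.trans ?_
    have h2 := fr_pow_mul_le (A := adj Γ) (E := fun u v => adj Γ u v - if u = v then 0 else p)
      (p := p) (Δ := Δ) (Θ := Θ)
      (fun u v => by ring) (adj_nonneg Γ) (adj_isSymm Γ) (fun u => by rw [sum_adj]; exact hdeg u)
      hnorm N.hΘ N.hΘΔ N.hp N.hpΔ (2 * r + 1) (1 : Matrix V V ℝ)
      (fun u v => by rw [Matrix.one_apply]; split_ifs <;> norm_num)
    rw [mul_one] at h2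
    have h3 : fr (1 : Matrix V V ℝ) = Fintype.card V := by
      unfold fr
      have : ∀ u v : V, (1 : Matrix V V ℝ) u v ^ 2 = if u = v then 1 else 0 := by
        intro u v; rw [Matrix.one_apply]; split_ifs <;> norm_num
      simp_rw [this]
      simp
    have h4 : c2 (1 : Matrix V V ℝ) = Fintype.card V := by
      unfold c2
      have : ∀ v : V, ∑ u, (1 : Matrix V V ℝ) u v = 1 := by
        intro v; simp [Matrix.one_apply]
      simp_rw [this]
      simp
    rw [h3, h4] at h2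
    rw [hF]
    refine h2.trans (le_of_eq ?_)
    field_simp
  have hCS : (∑ z ∈ S, ∑ z' ∈ S, ind (Conf (inP G P) r z z') * (M ^ (2 * r + 1)) z z') ^ 2 ≤
      npairs (Conf (inP G P) r) S * fr (M ^ (2 * r + 1)) := by
    rw [← sum_product']
    refine (sum_mul_sq_le_sq_mul_sq (S ×ˢ S) (fun q => ind (Conf (inP G P) r q.1 q.2))
      (fun q => (M ^ (2 * r + 1)) q.1 q.2)).trans ?_
    refine mul_le_mul ?_ ?_ (sum_nonneg fun _ _ => sq_nonneg _) (Nat.cast_nonneg _)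
    · unfold npairs
      rw [card_filter]
      push_cast
      refine sum_le_sum fun q _ => ?_
      by_cases h : Conf (inP G P) r q.1 q.2
      · rw [ind_true h]; simp [h]
      · rw [ind_false h]; simp [h]
    · unfold fr
      rw [← Fintype.sum_prod_type']
      exact sum_le_sum_of_subset_of_nonneg (subset_univ _) fun _ _ _ => sq_nonneg _
  have hFpos : 0 < F := by
    have := N.hΔ
    have := N.hΘ
    rw [hF]; positivity
  have h1 : (h * a ^ (2 * r) / 2 * S.card) ^ 2 ≤ npairs (Conf (inP G P) r) S * F := by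
    have hpos : 0 ≤ h * a ^ (2 * r) / 2 * S.card := by
      have := N.hh; have := N.ha; positivity
    calc _ ≤ _ := pow_le_pow_left₀ hpos hlow2 2
      _ ≤ _ := hCS
      _ ≤ _ := mul_le_mul_of_nonneg_left hfr (Nat.cast_nonneg _)
  have h2 : γ * (S.card : ℝ) ^ 2 * F ≤ npairs (Conf (inP G P) r) S * F := by
    refine le_trans ?_ h1
    have h3 := mul_le_mul_of_nonneg_right N.hγ (by positivity : 0 ≤ (S.card : ℝ) ^ 2)
    calc γ * (S.card : ℝ) ^ 2 * F = γ * F * (S.card : ℝ) ^ 2 := by ring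
      _ ≤ (h * a ^ (2 * r) / 2) ^ 2 * (S.card : ℝ) ^ 2 := h3
      _ = _ := by ring
  exact le_of_mul_le_mul_right h2 hFpos

/-- the deterministic contradiction -/
theorem determC (N : NumC (Fintype.card V) p Δ Θ γ a b b0 h r) (hG : G ≤ Γ)
    (hdeg : ∀ v, (dg Γ v univ : ℝ) ≤ Δ)
    (hnorm : ∀ x : V → ℝ,
      ns (Matrix.mulVec (fun u v => adj Γ u v - if u = v then 0 else p) x) ≤ Θ * ns x)
    (hE : PropE Γ r γ a b) (hfree : NoCyc G r)
    (P : Finset V) (hP : ∀ v, a ≤ dg G v P) (hPb : (P.card : ℝ) ≤ b) (hPb0 : b0 ≤ P.card) :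
    False := by
  classical
  obtain ⟨w, hw, hlt⟩ := hE P (inP G P) ((inP_le G P).trans hG) (fun u v h => h.2) hPb
    (fun S hS hS2 => dense_half N hG hdeg hnorm P hP hPb hPb0 S hS hS2)
    (fun w => P.filter fun z => G.Adj w z) (fun w hw =>
      ⟨filter_subset _ _, fun z hz => hG (mem_filter.mp hz).2, fun z hz z' hz' =>
        not_conf hfree P hw (mem_filter.mp hz).2 (mem_filter.mp hz').2⟩)
  have h1 := hP w
  have h2 : ((P.filter fun z => G.Adj w z).card : ℝ) = dg G w P := by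
    unfold dg; congr
  linarith

end

end Pool.MP_1bacea_co
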