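import Pool.Agent.Lib.MP_1bacea_co.Dense
import Pool.Agent.Lib.MP_1bacea_co.Degen

/-!
The deterministic colouring.
-/

set_option autoImplicit false

open Finset

namespace Pool.MP_1bacea_co

variable {V : Type*} [Fintype V] [DecidableEq V]

/-- the numerical conditions -/
structure Num (n p Δ Θ amax γ β ρ t K : ℝ) (r m : ℕ) : Prop where
  hn : 0 < n
  hr : 1 ≤ r
  hp : 0 ≤ p
  hΔ : 1 ≤ Δ
  hΘ : 0 ≤ Θ
  hΘΔ : 2 * Θ ≤ Δ ^ 2
  hpΔ : 2 * (p * n) ^ 2 ≤ Δ ^ 2
  hamax : 0 < amax
  hγ : 0 < γ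
  hβ0 : 0 < β
  hβ1 : β ≤ 1
  hρ : 0 < ρ
  hm : (1 - β) ^ m < ρ
  ht : 0 < t
  hK0 : 0 < K
  hK : 2 * ((r : ℝ) + 1) ^ 2 * Δ ^ (2 * r - 1) ≤ K ^ 2 / 2
  hmK : m * K ≤ t ^ r / 2
  hL : 2 * (r * (2 * Δ) ^ r * ρ) ≤ t ^ r / 2
  hlast : 4 * Θ ^ r * n ≤ amax * (t ^ r / 2) ^ 2
  hN1 : γ * n ^ 2 * (2 * Θ) ^ (2 * r) < amax * K ^ 4 / 12
  hN2 : γ * n * (2 * r * (2 * Θ) ^ r * Δ ^ (2 * r + 1)) < amax * K ^ 4 / 12
  hN3 : γ * ((r : ℝ) ^ 2 * Δ ^ (4 * r)) < K ^ 4 / 12

/-- the edges of `G` inside `P` -/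
def inP (G : SimpleGraph V) (P : Finset V) : SimpleGraph V where
  Adj u v := G.Adj u v ∧ u ∈ P ∧ v ∈ P
  symm := ⟨fun _ _ h => ⟨h.1.symm, h.2.2, h.2.1⟩⟩
  loopless := ⟨fun _ h => G.loopless.irrefl _ h.1⟩

lemma inP_le (G : SimpleGraph V) (P : Finset V) : inP G P ≤ G := fun _ _ h => h.1

lemma dg_mono {G G' : SimpleGraph V} (h : G ≤ G') (v : V) (A : Finset V) : dg G v A ≤ dg G' v A := by
  have : (dg G v A : ℝ) ≤ dg G' v A := by
    rw [← sum_adj, ← sum_adj]
    exact sum_le_sum fun u _ => adj_mono h _ _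
  exact_mod_cast this

/-- the standing hypotheses on the host graph -/
structure Host (Γ : SimpleGraph V) (p Δ Θ amax γ β ρ t : ℝ) (r D0 : ℕ) : Prop where
  deg : ∀ v, (dg Γ v univ : ℝ) ≤ Δ
  norm : ∀ x : V → ℝ, ns (Matrix.mulVec (fun u v => adj Γ u v - if u = v then 0 else p) x) ≤ Θ * ns x
  loc : LocSp Γ amax D0
  d : PropD Γ r γ β ρ t

section

variable {Γ G : SimpleGraph V} {p Δ Θ amax γ β ρ t K : ℝ} {r m D0 : ℕ}

lemma rowsum_le (hH : Host Γ p Δ Θ amax γ β ρ t r D0) (u : V) : ∑ v, adj Γ u v ≤ Δ := by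
  rw [sum_adj]; exact hH.deg u

lemma sum_HW_eq (P A : Finset V) (hA : A ⊆ P) :
    ∑ u, ∑ v, HW (inP G P) A u v = ∑ u ∈ A, (dg G u A : ℝ) := by
  have h1 : ∀ u, ∑ v, HW (inP G P) A u v = if u ∈ A then (dg G u A : ℝ) else 0 := by
    intro u
    by_cases hu : u ∈ A
    · rw [if_pos hu, ← sum_adj]
      rw [← sum_subset (subset_univ A)]
      · refine sum_congr rfl fun v hv => ?_
        unfold HW adj
        congr 1
        apply propext
        constructor
        · exact fun h => h.1.1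
        · exact fun h => ⟨⟨h, hA hu, hA hv⟩, hu, hv⟩
      · intro v _ hv
        exact ind_false fun h => hv h.2.2
    · rw [if_neg hu]
      exact sum_eq_zero fun v _ => ind_false fun h => hu h.2.1
  simp_rw [h1]
  rw [← sum_filter]
  congr 1
  ext u; simp

lemma degen_sparse (N : Num (Fintype.card V) p Δ Θ amax γ β ρ t K r m)
    (hH : Host Γ p Δ Θ amax γ β ρ t r D0) (hG : G ≤ Γ) (P S A : Finset V) (hA : A ⊆ P)
    (hS : npairs (Conf (inP G P) r) S ≤ γ * (S.card : ℝ) ^ 2)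
    (hAK : ∀ u ∈ A, K ≤ ∑ z ∈ S, (adj (inP G P) ^ r) u z) (hne : A.Nonempty) :
    ∃ v ∈ A, dg G v A ≤ D0 := by
  by_contra hcon
  push Not at hcon
  set n : ℝ := (Fintype.card V : ℝ) with hn
  have hbig : amax < A.card := by
    by_contra hle
    push Not at hle
    obtain ⟨v, hv, hv2⟩ := hH.loc A hne hle
    have := hcon v hv
    have := dg_mono hG v A
    omega
  set e : ℝ := ∑ u, ∑ v, HW (inP G P) A u v with he
  have he1 : amax ≤ e := by
    rw [he, sum_HW_eq P A hA]
    refine hbig.le.trans ?_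
    rw [card_eq_sum_ones]
    push_cast
    refine sum_le_sum fun u hu => ?_
    have := hcon u hu
    exact_mod_cast (by omega : 1 ≤ dg G u A)
  have he0 : 0 < e := N.hamax.trans_le he1
  have hG0 : inP G P ≤ Γ := (inP_le G P).trans hG
  have h1 := dense_count (inP G P) Γ hG0 N.hΔ hH.deg r N.hr S A N.hK0.le N.hK hAK
  have h2 := fr_sandwich_le (A := adj Γ) (E := fun u v => adj Γ u v - if u = v then 0 else p)
    (p := p) (Δ := Δ) (Θ := Θ)
    (fun u v => by ring) (adj_nonneg Γ) (adj_isSymm Γ) (rowsum_le hH) hH.norm N.hΘ N.hΘΔ N.hp N.hpΔ r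
    (HW (inP G P) A) (HW_isSymm _ _) (HW_01 _ _) (fun u => by
      refine le_trans ?_ (rowsum_le hH u)
      refine sum_le_sum fun v _ => ?_
      exact ind_mono fun h => hG0 h.1)
  rw [← he, ← hn] at h2
  rw [← he] at h1
  have hS2 : (npairs (Conf (inP G P) r) S : ℝ) ≤ γ * n ^ 2 := by
    refine hS.trans ?_
    refine mul_le_mul_of_nonneg_left ?_ N.hγ.le
    refine pow_le_pow_left₀ (Nat.cast_nonneg _) ?_ 2
    rw [hn]
    exact_mod_cast card_le_univ S
  have h3 : (e * (K ^ 2 / 2)) ^ 2 ≤ γ * n ^ 2 * ((2 * Θ) ^ (2 * r) * e +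
      2 * r * (2 * Θ) ^ r * Δ ^ (2 * r + 1) * e / n + (r : ℝ) ^ 2 * Δ ^ (4 * r) * e ^ 2 / n ^ 2) :=
    h1.trans (mul_le_mul hS2 h2 (fr_nonneg _) (by have := N.hγ; positivity))
  have hnpos : 0 < n := N.hn
  have h4 : γ * n ^ 2 * ((2 * Θ) ^ (2 * r) * e +
      2 * r * (2 * Θ) ^ r * Δ ^ (2 * r + 1) * e / n + (r : ℝ) ^ 2 * Δ ^ (4 * r) * e ^ 2 / n ^ 2) =
      e * (γ * n ^ 2 * (2 * Θ) ^ (2 * r)) + e * (γ * n * (2 * r * (2 * Θ) ^ r * Δ ^ (2 * r + 1))) +
      e ^ 2 * (γ * ((r : ℝ) ^ 2 * Δ ^ (4 * r))) := by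
    field_simp
  rw [h4] at h3
  have a1 := mul_lt_mul_of_pos_left N.hN1 he0
  have a2 := mul_lt_mul_of_pos_left N.hN2 he0
  have a3 := mul_lt_mul_of_pos_left N.hN3 (by positivity : 0 < e ^ 2)
  have a4 : e * (amax * K ^ 4 / 12) ≤ e * (e * K ^ 4 / 12) := by
    refine mul_le_mul_of_nonneg_left ?_ he0.le
    have : 0 ≤ K ^ 4 := by positivity
    nlinarith
  nlinarith

lemma last_small (N : Num (Fintype.card V) p Δ Θ amax γ β ρ t K r m)
    (hH : Host Γ p Δ Θ amax γ β ρ t r D0) (hG : G ≤ Γ) (P R A : Finset V)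
    (hR : (R.card : ℝ) ≤ ρ * Fintype.card V)
    (hAK : ∀ u ∈ A, t ^ r / 2 ≤ ∑ z ∈ R, (adj (inP G P) ^ r) u z) : (A.card : ℝ) ≤ amax := by
  classical
  set n : ℝ := (Fintype.card V : ℝ) with hn
  have hG0 : inP G P ≤ Γ := (inP_le G P).trans hG
  have hL0 : 0 < t ^ r / 2 := by have := N.ht; positivity
  have hnpos : 0 < n := N.hn
  have hsum : ∑ v, ind (v ∈ R) = (R.card : ℝ) := by
    rw [card_eq_sum_ones]
    push_cast
    rw [← sum_subset (subset_univ R)]
    · exact sum_congr rfl fun v hv => ind_true hv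
    · exact fun v _ hv => ind_false hv
  have h1 := large_entries (A := adj Γ) (E := fun u v => adj Γ u v - if u = v then 0 else p)
    (p := p) (Δ := Δ) (Θ := Θ)
    (fun u v => by ring) (adj_nonneg Γ) (adj_isSymm Γ) (rowsum_le hH) hH.norm N.hΘ N.hp N.hpΔ r
    (fun v => ind (v ∈ R)) (fun v => ind_nonneg _) (fun v => ind_le_one _) (L := t ^ r / 2) hL0
    (by
      rw [hsum]
      refine le_trans ?_ N.hL
      have : (R.card : ℝ) / n ≤ ρ := by rwa [div_le_iff₀ hnpos]
      have h2 : (r : ℝ) * (2 * Δ) ^ r * R.card / n = r * (2 * Δ) ^ r * (R.card / n) := by ring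
      rw [h2]
      have h3 : 0 ≤ (r : ℝ) * (2 * Δ) ^ r := by
        have := N.hΔ
        positivity
      nlinarith [mul_le_mul_of_nonneg_left this h3])
  have h2 : A.card ≤ (univ.filter fun u => t ^ r / 2 ≤ (adj Γ ^ r).mulVec (fun v => ind (v ∈ R)) u).card := by
    refine card_le_card fun u hu => ?_
    rw [mem_filter]
    refine ⟨mem_univ _, (hAK u hu).trans ?_⟩
    unfold Matrix.mulVec dotProduct
    rw [← sum_subset (subset_univ R)]
    · refine sum_le_sum fun v hv => ?_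
      show _ ≤ (adj Γ ^ r) u v * ind (v ∈ R)
      rw [ind_true hv, mul_one]
      exact pow_mono_entries (adj_nonneg _) (adj_mono hG0) r u v
    · intro v _ hv
      show (adj Γ ^ r) u v * ind (v ∈ R) = 0
      rw [ind_false hv, mul_zero]
  have h3 : (A.card : ℝ) * (t ^ r / 2) ^ 2 ≤ amax * (t ^ r / 2) ^ 2 := by
    calc (A.card : ℝ) * (t ^ r / 2) ^ 2 ≤ _ :=
          mul_le_mul_of_nonneg_right (by exact_mod_cast h2) (by positivity)
      _ ≤ _ := h1
      _ ≤ 4 * Θ ^ r * n := by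
          refine mul_le_mul_of_nonneg_left ?_ (by have := N.hΘ; positivity)
          rw [hsum, hn]
          exact_mod_cast card_le_univ R
      _ ≤ _ := N.hlast
  exact le_of_mul_le_mul_right h3 (by positivity)

lemma walks_ge (P : Finset V) (ht : 0 ≤ t) (hP : ∀ v, t ≤ dg G v P) (r : ℕ) {u : V} (hu : u ∈ P) :
    t ^ r ≤ ∑ z ∈ P, (adj (inP G P) ^ r) u z := by
  induction r generalizing u with
  | zero =>
    rw [pow_zero, pow_zero]
    simp [Matrix.one_apply, hu]
  | succ r ih =>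
    have e : ∑ z ∈ P, (adj (inP G P) ^ (r + 1)) u z =
        ∑ v, adj (inP G P) u v * ∑ z ∈ P, (adj (inP G P) ^ r) v z := by
      simp_rw [pow_succ', Matrix.mul_apply, mul_sum]
      rw [sum_comm]
    rw [e]
    calc t ^ (r + 1) = t * t ^ r := by ring
      _ ≤ (∑ v ∈ P, adj (inP G P) u v) * t ^ r := by
          refine mul_le_mul_of_nonneg_right ?_ (pow_nonneg ht r)
          refine (hP u).trans ?_
          rw [← sum_adj]
          refine sum_le_sum fun v hv => ?_
          exact ind_mono fun h => ⟨h, hu, hv⟩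
      _ = ∑ v ∈ P, adj (inP G P) u v * t ^ r := by rw [sum_mul]
      _ ≤ ∑ v ∈ P, adj (inP G P) u v * ∑ z ∈ P, (adj (inP G P) ^ r) v z :=
          sum_le_sum fun v hv => mul_le_mul_of_nonneg_left (ih hv) (adj_nonneg _ _ _)
      _ ≤ _ := by
          refine sum_le_sum_of_subset_of_nonneg (subset_univ P) fun v _ _ => ?_
          exact mul_nonneg (adj_nonneg _ _ _)
            (sum_nonneg fun z _ => pow_nonneg_entries (adj_nonneg _) r v z)

/-- no cycle on `2r+3` vertices -/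
def NoCyc (G : SimpleGraph V) (r : ℕ) : Prop :=
  ∀ x : Fin (2 * r + 3) → V, Function.Injective x →
    ¬ ((∀ i : Fin (2 * r + 2), G.Adj (x i.castSucc) (x i.succ)) ∧ G.Adj (x (Fin.last _)) (x 0))

lemma not_conf (hfree : NoCyc G r) (P : Finset V) {w z z' : V} (hw : w ∉ P) (hz : G.Adj w z)
    (hz' : G.Adj w z') : ¬ Conf (inP G P) r z z' := by
  rintro ⟨x, hinj, hadj, h0, hl⟩
  have hxP : ∀ i, x i ∈ P := by
    intro i
    induction i using Fin.lastCases with
    | last => exact (hadj (Fin.last _)).2.2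
    | cast i => exact (hadj i).2.1
  refine hfree (Fin.snoc (α := fun _ => V) x w) ?_ ⟨?_, ?_⟩
  · intro i j hij
    induction i using Fin.lastCases with
    | last =>
      induction j using Fin.lastCases with
      | last => rfl
      | cast j =>
        rw [Fin.snoc_last, Fin.snoc_castSucc] at hij
        exact absurd (hij ▸ hxP j) hw
    | cast i =>
      induction j using Fin.lastCases with
      | last =>
        rw [Fin.snoc_last, Fin.snoc_castSucc] at hij
        exact absurd (hij ▸ hxP i) hw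
      | cast j =>
        rw [Fin.snoc_castSucc, Fin.snoc_castSucc] at hij
        rw [hinj hij]
  · intro i
    induction i using Fin.lastCases with
    | last =>
      rw [Fin.succ_last, Fin.snoc_last, Fin.snoc_castSucc, hl]
      exact hz'.symm
    | cast i =>
      rw [Fin.snoc_castSucc, ← Fin.castSucc_succ, Fin.snoc_castSucc]
      exact (hadj i).1
  · rw [Fin.snoc_last]
    have : (0 : Fin (2 * r + 2 + 1)) = Fin.castSucc 0 := rfl
    rw [this, Fin.snoc_castSucc, h0]
    exact hz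

/-- one step of the decomposition -/
lemma step (N : Num (Fintype.card V) p Δ Θ amax γ β ρ t K r m)
    (hH : Host Γ p Δ Θ amax γ β ρ t r D0) (hG : G ≤ Γ) (hfree : NoCyc G r) (P R : Finset V)
    (hR : R ⊆ P) (hRρ : ρ * Fintype.card V ≤ R.card) (hP : ∀ v, t ≤ dg G v Pᶜ) :
    ∃ S ⊆ R, β * R.card ≤ S.card ∧ (npairs (Conf (inP G P) r) S : ℝ) ≤ γ * (S.card : ℝ) ^ 2 := by
  classical
  by_contra hcon
  push Not at hcon
  have h := hH.d P R (inP G P) ((inP_le G P).trans hG) (fun u v h => h.2) hR hRρ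
    (fun S hS hc => (hcon S hS hc).le)
    (fun w => if w ∈ P then ∅ else R.filter fun z => G.Adj w z) (by
      intro w
      by_cases hw : w ∈ P
      · simp [hw]
      · simp only [hw, if_false]
        refine ⟨filter_subset _ _, fun z hz => hG (mem_filter.mp hz).2, fun z hz z' hz' => ?_⟩
        exact not_conf hfree P hw (mem_filter.mp hz).2 (mem_filter.mp hz').2)
  have h2 : ∑ w ∈ univ \ P, (((if w ∈ P then ∅ else R.filter fun z => G.Adj w z : Finset V).card : ℕ) : ℝ)
      = ∑ z ∈ R, (dg G z Pᶜ : ℝ) := by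
    have e1 : ∀ w ∈ univ \ P, (((if w ∈ P then ∅ else R.filter fun z => G.Adj w z : Finset V).card : ℕ) : ℝ)
        = ∑ z ∈ R, adj G w z := by
      intro w hw
      have hw' : w ∉ P := (mem_sdiff.mp hw).2
      rw [if_neg hw', sum_adj]
      unfold dg
      norm_cast
    rw [sum_congr rfl e1, sum_comm]
    refine sum_congr rfl fun z _ => ?_
    rw [← sum_adj, compl_eq_univ_sdiff]
    refine sum_congr rfl fun w _ => ?_
    exact (adj_isSymm G).apply z w
  rw [h2] at h
  have h3 : t * R.card ≤ ∑ z ∈ R, (dg G z Pᶜ : ℝ) := by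
    rw [mul_comm, ← nsmul_eq_mul, ← sum_const]
    exact sum_le_sum fun z _ => hP z
  linarith

/-- the decomposition of `P` -/
lemma decomp (N : Num (Fintype.card V) p Δ Θ amax γ β ρ t K r m)
    (hH : Host Γ p Δ Θ amax γ β ρ t r D0) (hG : G ≤ Γ) (hfree : NoCyc G r) (P : Finset V)
    (hP : ∀ v, t ≤ dg G v Pᶜ) (j : ℕ) (R : Finset V) (hR : R ⊆ P) :
    ∃ (S : Fin j → Finset V) (R' : Finset V),
      (∀ i, (npairs (Conf (inP G P) r) (S i) : ℝ) ≤ γ * ((S i).card : ℝ) ^ 2) ∧
      ((R'.card : ℝ) ≤ ρ * Fintype.card V ∨ (R'.card : ℝ) ≤ (1 - β) ^ j * R.card) ∧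
      ∀ f : V → ℝ, ∑ z ∈ R, f z = ∑ i, ∑ z ∈ S i, f z + ∑ z ∈ R', f z := by
  classical
  induction j generalizing R with
  | zero =>
    refine ⟨fun i => ∅, R, fun i => i.elim0, Or.inr (by simp), fun f => by simp⟩
  | succ j ih =>
    by_cases hc : ρ * Fintype.card V ≤ R.card
    · obtain ⟨S0, hS0, hb, hnp⟩ := step N hH hG hfree P R hR hc hP
      obtain ⟨S, R', h1, h2, h3⟩ := ih (R \ S0) (sdiff_subset.trans hR)
      refine ⟨Fin.cons S0 S, R', ?_, ?_, ?_⟩
      · intro i
        induction i using Fin.cases with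
        | zero => exact hnp
        | succ i => exact h1 i
      · rcases h2 with h2 | h2
        · exact Or.inl h2
        · right
          refine h2.trans ?_
          rw [pow_succ, mul_assoc]
          refine mul_le_mul_of_nonneg_left ?_ (pow_nonneg (by linarith [N.hβ1]) _)
          rw [card_sdiff_of_subset hS0, Nat.cast_sub (card_le_card hS0)]
          nlinarith
      · intro f
        rw [Fin.sum_univ_succ]
        simp only [Fin.cons_zero, Fin.cons_succ]
        rw [add_assoc, ← h3 f, add_comm, sum_sdiff hS0]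
    · push Not at hc
      obtain ⟨S, R', h1, h2, h3⟩ := ih ∅ (empty_subset _)
      refine ⟨Fin.cons ∅ (fun _ => ∅), R, ?_, Or.inl hc.le, ?_⟩
      · intro i
        induction i using Fin.cases with
        | zero =>
          simp [npairs]
        | succ i =>
          simp [npairs]
      · intro f
        rw [Fin.sum_univ_succ]
        simp

/-- colouring of one side -/
theorem side_color (N : Num (Fintype.card V) p Δ Θ amax γ β ρ t K r m)
    (hH : Host Γ p Δ Θ amax γ β ρ t r D0) (hG : G ≤ Γ) (hfree : NoCyc G r) (P : Finset V)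
    (hP : ∀ v, t ≤ dg G v P ∧ t ≤ dg G v Pᶜ) :
    ∃ c : V → Fin (m + 1) × Fin (D0 + 1), ∀ u ∈ P, ∀ v ∈ P, G.Adj u v → c u ≠ c v := by
  classical
  obtain ⟨S, R', hS, hR', hsum⟩ := decomp N hH hG hfree P (fun v => (hP v).2) m P Subset.rfl
  have hnpos : (0 : ℝ) < Fintype.card V := N.hn
  have hR : (R'.card : ℝ) ≤ ρ * Fintype.card V := by
    rcases hR' with h | h
    · exact h
    · refine h.trans ?_
      refine mul_le_mul N.hm.le ?_ (Nat.cast_nonneg _) N.hρ.le
      exact_mod_cast card_le_univ P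
  -- the classes
  set f : V → Finset V → ℝ := fun u T => ∑ z ∈ T, (adj (inP G P) ^ r) u z with hf
  let W : Fin m → Finset V := fun i => P.filter fun u => K ≤ f u (S i)
  let Wl : Finset V := P.filter fun u => t ^ r / 2 ≤ f u R'
  have hcov : ∀ u ∈ P, (∃ i, u ∈ W i) ∨ u ∈ Wl := by
    intro u hu
    by_contra hcon
    push Not at hcon
    obtain ⟨h1, h2⟩ := hcon
    have h1' : ∀ i, f u (S i) ≤ K := by
      intro i
      by_contra hlt
      push Not at hlt
      exact h1 i (mem_filter.mpr ⟨hu, hlt.le⟩)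
    have h2' : f u R' < t ^ r / 2 := by
      by_contra hle
      push Not at hle
      exact h2 (mem_filter.mpr ⟨hu, hle⟩)
    have h3 := walks_ge P N.ht.le (fun v => (hP v).1) r hu
    rw [hsum] at h3
    have h4 : ∑ i, ∑ z ∈ S i, (adj (inP G P) ^ r) u z ≤ m * K := by
      calc ∑ i, ∑ z ∈ S i, (adj (inP G P) ^ r) u z ≤ ∑ i : Fin m, K := sum_le_sum fun i _ => h1' i
        _ = _ := by simp
    have h5 := N.hmK
    simp only [hf] at h2'
    linarith
  have hcW : ∀ i, ∃ c : V → Fin (D0 + 1), ∀ u ∈ W i, ∀ v ∈ W i, G.Adj u v → c u ≠ c v := by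
    intro i
    refine degen_color G D0 (W i) fun A hA hne => ?_
    exact degen_sparse N hH hG P (S i) A (hA.trans (filter_subset _ _)) (hS i)
      (fun u hu => (mem_filter.mp (hA hu)).2) hne
  have hcl : ∃ c : V → Fin (D0 + 1), ∀ u ∈ Wl, ∀ v ∈ Wl, G.Adj u v → c u ≠ c v := by
    refine degen_color G D0 Wl fun A hA hne => ?_
    have h1 := last_small N hH hG P R' A hR (fun u hu => (mem_filter.mp (hA hu)).2)
    obtain ⟨v, hv, hv2⟩ := hH.loc A hne h1
    exact ⟨v, hv, (dg_mono hG v A).trans hv2⟩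
  choose c hc using hcW
  obtain ⟨cl, hcl⟩ := hcl
  let col : V → Fin (m + 1) × Fin (D0 + 1) := fun u =>
    if h : ∃ i, u ∈ W i then (h.choose.castSucc, c h.choose u) else (Fin.last m, cl u)
  refine ⟨col, fun u hu v hv hadj heq => ?_⟩
  by_cases h1 : ∃ i, u ∈ W i
  · by_cases h2 : ∃ i, v ∈ W i
    · simp only [col, h1, h2, dif_pos, Prod.mk.injEq, Fin.castSucc_inj] at heq
      obtain ⟨e1, e2⟩ := heq
      have hu' := h1.choose_spec
      have hv' := h2.choose_spec
      rw [← e1] at hv' e2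
      exact hc _ u hu' v hv' hadj e2
    · simp only [col, h1, h2, dif_pos, dif_neg, not_false_eq_true, Prod.mk.injEq] at heq
      exact absurd heq.1 (Fin.castSucc_lt_last _).ne
  · by_cases h2 : ∃ i, v ∈ W i
    · simp only [col, h1, h2, dif_pos, dif_neg, not_false_eq_true, Prod.mk.injEq] at heq
      exact absurd heq.1 (Fin.castSucc_lt_last _).ne'
    · simp only [col, h1, h2, dif_neg, not_false_eq_true, Prod.mk.injEq] at heq
      exact hcl u ((hcov u hu).resolve_left h1) v ((hcov v hv).resolve_left h2) hadj heq.2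

/-- the deterministic theorem -/
theorem determ (N : Num (Fintype.card V) p Δ Θ amax γ β ρ t K r m)
    (hH : Host Γ p Δ Θ amax γ β ρ t r D0) (hG : G ≤ Γ) (hfree : NoCyc G r) (P : Finset V)
    (hP : ∀ v, t ≤ dg G v P ∧ t ≤ dg G v Pᶜ) : G.Colorable (2 * ((m + 1) * (D0 + 1))) := by
  classical
  obtain ⟨c1, h1⟩ := side_color N hH hG hfree P hP
  obtain ⟨c2, h2⟩ := side_color N hH hG hfree Pᶜ (fun v => by
    rw [compl_compl]; exact ⟨(hP v).2, (hP v).1⟩)
  let C : G.Coloring (Fin 2 × (Fin (m + 1) × Fin (D0 + 1))) := SimpleGraph.Coloring.mk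
    (fun v => if v ∈ P then (0, c1 v) else (1, c2 v)) (by
      intro u v hadj heq
      by_cases hu : u ∈ P <;> by_cases hv : v ∈ P
      · simp only [hu, hv, if_true, Prod.mk.injEq, true_and] at heq
        exact h1 u hu v hv hadj heq
      · simp only [hu, hv, if_true, if_false, Prod.mk.injEq] at heq
        exact absurd heq.1 (by decide)
      · simp only [hu, hv, if_true, if_false, Prod.mk.injEq] at heq
        exact absurd heq.1 (by decide)
      · simp only [hu, hv, if_false, Prod.mk.injEq, true_and] at heq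
        exact h2 u (mem_compl.mpr hu) v (mem_compl.mpr hv) hadj heq)
  have := C.colorable
  simpa [Fintype.card_prod, Fintype.card_fin] using this

end

end Pool.MP_1bacea_co
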