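import Pool.Agent.Lib.MP_1bacea_co.Defs

/-!
Linear algebra estimates. n = card V. A = E + p(J-I).
* ns_pow_mulVec_le: induction on r; ns(Ax) ≤ 2 ns(Ex) + 2 ns(p(J-I)x) ≤ 2Θ ns x + 2 p^2 n (∑x)^2 ≤ 2Θ ns x + Δ^2 (∑x)^2/n,
  ∑(A^r x) ≤ Δ^r ∑x (column sums = row sums ≤ Δ), and 2Θ ≤ Δ^2.
* fr_pow_mul_le: the same columnwise (fr X = ∑_v ns (column v of X), c2 X = ∑_v (column sum)^2).
* fr_sandwich_le: e := ∑∑H. fr(A^r (H A^r)) ≤ (2Θ)^r fr(H A^r) + r Δ^{2r} c2(H A^r)/n;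
  fr(H A^r) = fr(A^r H) ≤ (2Θ)^r fr H + rΔ^{2r} c2(H)/n, fr H = e, c2 H ≤ Δ e;
  c2(H A^r) = ns(A^r h), h = H 1 ≥ 0, ns h ≤ Δ e, ∑h = e, so c2(H A^r) ≤ (2Θ)^rΔ e + rΔ^{2r}e^2/n.
  Add up.
* large_entries: A^r x = E^r x + v with |v|_∞ ≤ r (2Δ)^r (∑x)/n by induction
  (v' = E v + p(J-I)A^r x; row l1-norm of E ≤ Δ + p n ≤ 2Δ; p (J-I) A^r x ≤ p Δ^r ∑x). On the set, (E^r x)(u) ≥ L/2,
  and ns(E^r x) ≤ Θ^r ns x ≤ Θ^r ∑ x.
-/

set_option autoImplicit false

open Finset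

namespace Pool.MP_1bacea_co

variable {V : Type*} [Fintype V] [DecidableEq V]

section Frob
variable {A E : Matrix V V ℝ} {p Δ Θ : ℝ}

omit [DecidableEq V] in
/-- total mass after one multiplication -/
lemma frob_sum_mulVec (hAs : A.IsSymm) (hrow : ∀ u, ∑ v, A u v ≤ Δ)
    (y : V → ℝ) (hy : ∀ v, 0 ≤ y v) : ∑ u, A.mulVec y u ≤ Δ * ∑ v, y v := by
  have h1 : ∑ u, A.mulVec y u = ∑ v, (∑ u, A u v) * y v := by
    simp only [Matrix.mulVec, dotProduct]
    rw [sum_comm]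
    exact sum_congr rfl fun v _ => by rw [sum_mul]
  rw [h1, mul_sum]
  refine sum_le_sum fun v _ => ?_
  refine mul_le_mul_of_nonneg_right ?_ (hy v)
  have : ∑ u, A u v = ∑ u, A v u := sum_congr rfl fun u _ => hAs.apply v u
  rw [this]
  exact hrow v

omit [DecidableEq V] in
lemma frob_mulVec_nonneg (hA0 : ∀ u v, 0 ≤ A u v) (y : V → ℝ) (hy : ∀ v, 0 ≤ y v) (u : V) :
    0 ≤ A.mulVec y u :=
  sum_nonneg fun v _ => mul_nonneg (hA0 u v) (hy v)

lemma frob_pow_succ_mulVec (r : ℕ) (x : V → ℝ) :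
    (A ^ (r + 1)).mulVec x = A.mulVec ((A ^ r).mulVec x) := by
  rw [Matrix.mulVec_mulVec, pow_succ']

lemma frob_pow_mulVec_nonneg (hA0 : ∀ u v, 0 ≤ A u v) (r : ℕ) (x : V → ℝ) (hx : ∀ v, 0 ≤ x v) :
    ∀ u, 0 ≤ (A ^ r).mulVec x u := by
  induction r with
  | zero => intro u; simpa using hx u
  | succ r ih =>
    rw [frob_pow_succ_mulVec]
    exact frob_mulVec_nonneg hA0 _ ih

lemma frob_sum_pow_mulVec [Nonempty V] (hA0 : ∀ u v, 0 ≤ A u v) (hAs : A.IsSymm)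
    (hrow : ∀ u, ∑ v, A u v ≤ Δ) (r : ℕ) (x : V → ℝ) (hx : ∀ v, 0 ≤ x v) :
    ∑ u, (A ^ r).mulVec x u ≤ Δ ^ r * ∑ v, x v := by
  have hΔ : 0 ≤ Δ := (sum_nonneg fun v _ => hA0 (Classical.arbitrary V) v).trans (hrow _)
  induction r with
  | zero => simp
  | succ r ih =>
    rw [frob_pow_succ_mulVec]
    calc _ ≤ Δ * ∑ v, (A ^ r).mulVec x v :=
          frob_sum_mulVec hAs hrow _ (frob_pow_mulVec_nonneg hA0 r x hx)
      _ ≤ Δ * (Δ ^ r * ∑ v, x v) := mul_le_mul_of_nonneg_left ih hΔ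
      _ = _ := by ring

/-- decomposition of `A y` -/
lemma frob_decomp (hA : ∀ u v, A u v = E u v + if u = v then 0 else p) (y : V → ℝ) (u : V) :
    A.mulVec y u = E.mulVec y u + p * ((∑ v, y v) - y u) := by
  simp only [Matrix.mulVec, dotProduct]
  have h1 : ∀ v, A u v * y v = E u v * y v + (if u = v then 0 else p) * y v := by
    intro v; rw [hA]; ring
  simp_rw [h1]
  rw [sum_add_distrib]
  congr 1
  have h2 : ∀ v, (if u = v then (0 : ℝ) else p) * y v = p * y v - if u = v then p * y v else 0 := by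
    intro v
    split_ifs <;> ring
  simp_rw [h2]
  rw [sum_sub_distrib, sum_ite_eq, if_pos (mem_univ u), ← mul_sum]
  ring

lemma frob_step [Nonempty V] (hA : ∀ u v, A u v = E u v + if u = v then 0 else p)
    (hE : ∀ x : V → ℝ, ns (E.mulVec x) ≤ Θ * ns x) (hp : 0 ≤ p)
    (hpΔ : 2 * (p * Fintype.card V) ^ 2 ≤ Δ ^ 2) (y : V → ℝ) (hy : ∀ v, 0 ≤ y v) :
    ns (A.mulVec y) ≤ 2 * Θ * ns y + Δ ^ 2 * (∑ v, y v) ^ 2 / Fintype.card V := by
  have hn : (0 : ℝ) < Fintype.card V := by exact_mod_cast Fintype.card_pos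
  have h1 : ns (A.mulVec y) ≤ 2 * ns (E.mulVec y) + 2 * (Fintype.card V * (p * ∑ v, y v) ^ 2) := by
    unfold ns
    rw [mul_sum]
    have h3 : (2 : ℝ) * (Fintype.card V * (p * ∑ v, y v) ^ 2) =
        ∑ _u : V, 2 * (p * ∑ v, y v) ^ 2 := by
      rw [sum_const, card_univ, nsmul_eq_mul]; ring
    rw [h3, ← sum_add_distrib]
    refine sum_le_sum fun u _ => ?_
    rw [frob_decomp hA]
    have h4 : 0 ≤ (∑ v, y v) - y u := by
      have := single_le_sum (fun v _ => hy v) (mem_univ u)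
      linarith
    have h5 : (p * ((∑ v, y v) - y u)) ^ 2 ≤ (p * ∑ v, y v) ^ 2 := by
      refine pow_le_pow_left₀ (mul_nonneg hp h4) ?_ 2
      refine mul_le_mul_of_nonneg_left ?_ hp
      have := hy u
      linarith
    nlinarith [sq_nonneg (E.mulVec y u - p * ((∑ v, y v) - y u))]
  have h2 : 2 * (Fintype.card V * (p * ∑ v, y v) ^ 2) ≤
      Δ ^ 2 * (∑ v, y v) ^ 2 / Fintype.card V := by
    rw [le_div_iff₀ hn]
    have : 2 * (Fintype.card V * (p * ∑ v, y v) ^ 2) * Fintype.card V =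
        (2 * (p * Fintype.card V) ^ 2) * (∑ v, y v) ^ 2 := by ring
    rw [this]
    exact mul_le_mul_of_nonneg_right hpΔ (sq_nonneg _)
  have h3 := hE y
  linarith

omit [DecidableEq V] in
lemma frob_ns_empty [IsEmpty V] (x : V → ℝ) : ns x = 0 := by
  unfold ns; simp

theorem ns_pow_mulVec_le (hA : ∀ u v, A u v = E u v + if u = v then 0 else p)
    (hA0 : ∀ u v, 0 ≤ A u v) (hAs : A.IsSymm) (hrow : ∀ u, ∑ v, A u v ≤ Δ)
    (hE : ∀ x : V → ℝ, ns (E.mulVec x) ≤ Θ * ns x) (hΘ : 0 ≤ Θ) (hΘΔ : 2 * Θ ≤ Δ ^ 2) (hp : 0 ≤ p)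
    (hpΔ : 2 * (p * Fintype.card V) ^ 2 ≤ Δ ^ 2) (r : ℕ) (x : V → ℝ) (hx : ∀ v, 0 ≤ x v) :
    ns ((A ^ r).mulVec x) ≤ (2 * Θ) ^ r * ns x + r * Δ ^ (2 * r) * (∑ v, x v) ^ 2 / Fintype.card V := by
  rcases isEmpty_or_nonempty V with hV | hV
  · simp [frob_ns_empty]
  have hn : (0 : ℝ) < Fintype.card V := by exact_mod_cast Fintype.card_pos
  induction r with
  | zero => simp
  | succ r ih =>
    rw [frob_pow_succ_mulVec]
    have h0 := frob_step (Δ := Δ) hA hE hp hpΔ ((A ^ r).mulVec x)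
      (frob_pow_mulVec_nonneg hA0 r x hx)
    have h1 := frob_sum_pow_mulVec hA0 hAs hrow r x hx
    have h1' : 0 ≤ ∑ u, (A ^ r).mulVec x u :=
      sum_nonneg fun u _ => frob_pow_mulVec_nonneg hA0 r x hx u
    have h2 : (∑ u, (A ^ r).mulVec x u) ^ 2 ≤ (Δ ^ r * ∑ v, x v) ^ 2 :=
      pow_le_pow_left₀ h1' h1 2
    set S : ℝ := ∑ v, x v with hS
    set n : ℝ := (Fintype.card V : ℝ) with hnn
    have h3 : Δ ^ 2 * (∑ u, (A ^ r).mulVec x u) ^ 2 / n ≤ Δ ^ 2 * (Δ ^ r * S) ^ 2 / n := by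
      gcongr
    have h4 : 2 * Θ * ns ((A ^ r).mulVec x) ≤
        2 * Θ * ((2 * Θ) ^ r * ns x + r * Δ ^ (2 * r) * S ^ 2 / n) :=
      mul_le_mul_of_nonneg_left ih (by positivity)
    have h5 : 2 * Θ * (r * Δ ^ (2 * r) * S ^ 2 / n) ≤ Δ ^ 2 * (r * Δ ^ (2 * r) * S ^ 2 / n) := by
      refine mul_le_mul_of_nonneg_right hΘΔ ?_
      have : 0 ≤ Δ ^ (2 * r) := by rw [pow_mul]; positivity
      positivity
    calc ns (A.mulVec ((A ^ r).mulVec x))
        ≤ 2 * Θ * ns ((A ^ r).mulVec x) + Δ ^ 2 * (∑ u, (A ^ r).mulVec x u) ^ 2 / n := h0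
      _ ≤ 2 * Θ * ((2 * Θ) ^ r * ns x + r * Δ ^ (2 * r) * S ^ 2 / n) +
          Δ ^ 2 * (Δ ^ r * S) ^ 2 / n := add_le_add h4 h3
      _ = (2 * Θ) ^ (r + 1) * ns x + 2 * Θ * (r * Δ ^ (2 * r) * S ^ 2 / n) +
          Δ ^ 2 * (Δ ^ r * S) ^ 2 / n := by ring
      _ ≤ (2 * Θ) ^ (r + 1) * ns x + Δ ^ 2 * (r * Δ ^ (2 * r) * S ^ 2 / n) +
          Δ ^ 2 * (Δ ^ r * S) ^ 2 / n := by linarith
      _ = _ := by push_cast; ring

omit [DecidableEq V] in
lemma frob_fr_eq (X : Matrix V V ℝ) : fr X = ∑ v, ns (fun u => X u v) := by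
  unfold fr ns
  rw [sum_comm]

theorem fr_pow_mul_le (hA : ∀ u v, A u v = E u v + if u = v then 0 else p)
    (hA0 : ∀ u v, 0 ≤ A u v) (hAs : A.IsSymm) (hrow : ∀ u, ∑ v, A u v ≤ Δ)
    (hE : ∀ x : V → ℝ, ns (E.mulVec x) ≤ Θ * ns x) (hΘ : 0 ≤ Θ) (hΘΔ : 2 * Θ ≤ Δ ^ 2) (hp : 0 ≤ p)
    (hpΔ : 2 * (p * Fintype.card V) ^ 2 ≤ Δ ^ 2) (r : ℕ) (X : Matrix V V ℝ)
    (hX : ∀ u v, 0 ≤ X u v) :
    fr (A ^ r * X) ≤ (2 * Θ) ^ r * fr X + r * Δ ^ (2 * r) * c2 X / Fintype.card V := by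
  rw [frob_fr_eq, frob_fr_eq X]
  unfold c2
  rw [mul_sum, mul_sum, sum_div, ← sum_add_distrib]
  refine sum_le_sum fun v _ => ?_
  exact ns_pow_mulVec_le hA hA0 hAs hrow hE hΘ hΘΔ hp hpΔ r (fun u => X u v) fun u => hX u v

omit [DecidableEq V] in
lemma frob_fr_transpose (X : Matrix V V ℝ) : fr X.transpose = fr X := by
  unfold fr
  rw [sum_comm]
  rfl

theorem fr_sandwich_le (hA : ∀ u v, A u v = E u v + if u = v then 0 else p)
    (hA0 : ∀ u v, 0 ≤ A u v) (hAs : A.IsSymm) (hrow : ∀ u, ∑ v, A u v ≤ Δ)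
    (hE : ∀ x : V → ℝ, ns (E.mulVec x) ≤ Θ * ns x) (hΘ : 0 ≤ Θ) (hΘΔ : 2 * Θ ≤ Δ ^ 2) (hp : 0 ≤ p)
    (hpΔ : 2 * (p * Fintype.card V) ^ 2 ≤ Δ ^ 2) (r : ℕ) (H : Matrix V V ℝ) (hHs : H.IsSymm)
    (hH : ∀ u v, H u v = 0 ∨ H u v = 1) (hHrow : ∀ u, ∑ v, H u v ≤ Δ) :
    fr (A ^ r * H * A ^ r) ≤ (2 * Θ) ^ (2 * r) * (∑ u, ∑ v, H u v) +
      2 * r * (2 * Θ) ^ r * Δ ^ (2 * r + 1) * (∑ u, ∑ v, H u v) / Fintype.card V +
      (r : ℝ) ^ 2 * Δ ^ (4 * r) * (∑ u, ∑ v, H u v) ^ 2 / (Fintype.card V : ℝ) ^ 2 := by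
  rcases isEmpty_or_nonempty V with hV | hV
  · simp [fr]
  have hn : (0 : ℝ) < Fintype.card V := by exact_mod_cast Fintype.card_pos
  have hΔ : 0 ≤ Δ := (sum_nonneg fun v _ => hA0 (Classical.arbitrary V) v).trans (hrow _)
  have hH0 : ∀ u v, 0 ≤ H u v := fun u v => by rcases hH u v with h | h <;> rw [h] <;> norm_num
  have hApow : (A ^ r).IsSymm := hAs.pow r
  have hAr0 : ∀ u v, 0 ≤ (A ^ r) u v := by
    clear hHs hH hHrow hH0 hApow hΘΔ
    induction r with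
    | zero =>
      intro u v
      rw [pow_zero, Matrix.one_apply]
      split_ifs <;> norm_num
    | succ r ih =>
      intro u v
      rw [pow_succ, Matrix.mul_apply]
      exact sum_nonneg fun w _ => mul_nonneg (ih u w) (hA0 w v)
  set e : ℝ := ∑ u, ∑ v, H u v with he
  set n : ℝ := (Fintype.card V : ℝ) with hnn
  have he0 : 0 ≤ e := sum_nonneg fun u _ => sum_nonneg fun v _ => hH0 u v
  -- column sums
  set h : V → ℝ := fun w => ∑ u, H u w with hh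
  have hh0 : ∀ w, 0 ≤ h w := fun w => sum_nonneg fun u _ => hH0 u w
  have hhΔ : ∀ w, h w ≤ Δ := by
    intro w
    have : h w = ∑ u, H w u := sum_congr rfl fun u _ => hHs.apply w u
    rw [this]
    exact hHrow w
  have hhe : ∑ w, h w = e := by
    rw [he, sum_comm]
  have hnsh : ns h ≤ Δ * e := by
    unfold ns
    rw [← hhe, mul_sum]
    refine sum_le_sum fun w _ => ?_
    rw [pow_two]
    exact mul_le_mul_of_nonneg_right (hhΔ w) (hh0 w)
  have hfrH : fr H = e := by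
    unfold fr
    refine sum_congr rfl fun u _ => sum_congr rfl fun v _ => ?_
    rcases hH u v with h | h <;> rw [h] <;> norm_num
  have hc2H : c2 H ≤ Δ * e := hnsh
  have hc2HA : c2 (H * A ^ r) = ns ((A ^ r).mulVec h) := by
    unfold c2 ns
    refine sum_congr rfl fun v _ => ?_
    congr 1
    simp only [Matrix.mul_apply, Matrix.mulVec, dotProduct]
    rw [sum_comm]
    refine sum_congr rfl fun w _ => ?_
    rw [← sum_mul, hApow.apply v w, mul_comm]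
  have h1 := fr_pow_mul_le hA hA0 hAs hrow hE hΘ hΘΔ hp hpΔ r (H * A ^ r) (by
    intro u v
    rw [Matrix.mul_apply]
    exact sum_nonneg fun w _ => mul_nonneg (hH0 u w) (hAr0 w v))
  have h2 := fr_pow_mul_le hA hA0 hAs hrow hE hΘ hΘΔ hp hpΔ r H hH0
  have h3 := ns_pow_mulVec_le hA hA0 hAs hrow hE hΘ hΘΔ hp hpΔ r h hh0
  have h4 : fr (H * A ^ r) = fr (A ^ r * H) := by
    rw [← frob_fr_transpose, Matrix.transpose_mul, hApow.eq, hHs.eq]
  rw [h4, hc2HA] at h1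
  rw [hhe] at h3
  rw [hfrH] at h2
  rw [← hnn] at h1 h2 h3
  rw [Matrix.mul_assoc]
  have hΔ2 : 0 ≤ Δ ^ (2 * r) := by positivity
  have hT : 0 ≤ (2 * Θ) ^ r := by positivity
  have h5 : fr (A ^ r * H) ≤ (2 * Θ) ^ r * e + r * Δ ^ (2 * r) * (Δ * e) / n := by
    refine h2.trans ?_
    gcongr
  have h6 : ns ((A ^ r).mulVec h) ≤ (2 * Θ) ^ r * (Δ * e) + r * Δ ^ (2 * r) * e ^ 2 / n := by
    refine h3.trans ?_
    gcongr
  calc fr (A ^ r * (H * A ^ r))
      ≤ (2 * Θ) ^ r * fr (A ^ r * H) + r * Δ ^ (2 * r) * ns ((A ^ r).mulVec h) / n := h1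
    _ ≤ (2 * Θ) ^ r * ((2 * Θ) ^ r * e + r * Δ ^ (2 * r) * (Δ * e) / n) +
        r * Δ ^ (2 * r) * ((2 * Θ) ^ r * (Δ * e) + r * Δ ^ (2 * r) * e ^ 2 / n) / n := by
        gcongr
    _ = _ := by
        field_simp
        ring

theorem large_entries (hA : ∀ u v, A u v = E u v + if u = v then 0 else p)
    (hA0 : ∀ u v, 0 ≤ A u v) (hAs : A.IsSymm) (hrow : ∀ u, ∑ v, A u v ≤ Δ)
    (hE : ∀ x : V → ℝ, ns (E.mulVec x) ≤ Θ * ns x) (hΘ : 0 ≤ Θ) (hp : 0 ≤ p)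
    (hpΔ : 2 * (p * Fintype.card V) ^ 2 ≤ Δ ^ 2) (r : ℕ) (x : V → ℝ) (hx : ∀ v, 0 ≤ x v)
    (hx1 : ∀ v, x v ≤ 1) {L : ℝ} (hL0 : 0 < L)
    (hL : 2 * (r * (2 * Δ) ^ r * (∑ v, x v) / Fintype.card V) ≤ L) :
    ((univ.filter fun u => L ≤ (A ^ r).mulVec x u).card : ℝ) * L ^ 2 ≤ 4 * Θ ^ r * ∑ v, x v := by
  rcases isEmpty_or_nonempty V with hV | hV
  · simp [Finset.univ_eq_empty]
  have hn : (0 : ℝ) < Fintype.card V := by exact_mod_cast Fintype.card_pos
  have hΔ : 0 ≤ Δ := (sum_nonneg fun v _ => hA0 (Classical.arbitrary V) v).trans (hrow _)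
  have hpn : p * Fintype.card V ≤ Δ := by
    by_contra hc
    push Not at hc
    nlinarith [mul_self_nonneg (p * (Fintype.card V : ℝ))]
  -- row l1 norms of E
  have hEl1 : ∀ u, ∑ v, |E u v| ≤ 2 * Δ := by
    intro u
    have h1 : ∀ v, |E u v| ≤ A u v + p := by
      intro v
      have := hA u v
      have h2 := hA0 u v
      by_cases h : u = v
      · rw [if_pos h] at this
        rw [show E u v = A u v by linarith, abs_of_nonneg h2]
        linarith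
      · rw [if_neg h] at this
        rw [show E u v = A u v - p by linarith]
        rw [abs_le]
        constructor <;> linarith
    calc ∑ v, |E u v| ≤ ∑ v, (A u v + p) := sum_le_sum fun v _ => h1 v
      _ = ∑ v, A u v + Fintype.card V * p := by
          rw [sum_add_distrib, sum_const, card_univ, nsmul_eq_mul]
      _ ≤ 2 * Δ := by linarith [hrow u]
  set S : ℝ := ∑ v, x v with hS
  have hS0 : 0 ≤ S := sum_nonneg fun v _ => hx v
  -- approximation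
  have happ : ∀ r : ℕ, ∀ u, |(A ^ r).mulVec x u - (E ^ r).mulVec x u| ≤
      r * (2 * Δ) ^ r * S / Fintype.card V := by
    intro r
    induction r with
    | zero => intro u; simp
    | succ r ih =>
      intro u
      rw [frob_pow_succ_mulVec, frob_pow_succ_mulVec, frob_decomp hA]
      have h1 : E.mulVec ((A ^ r).mulVec x) u - E.mulVec ((E ^ r).mulVec x) u =
          ∑ v, E u v * ((A ^ r).mulVec x v - (E ^ r).mulVec x v) := by
        simp only [Matrix.mulVec, dotProduct]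
        rw [← sum_sub_distrib]
        exact sum_congr rfl fun v _ => by ring
      have h2 : |∑ v, E u v * ((A ^ r).mulVec x v - (E ^ r).mulVec x v)| ≤
          2 * Δ * (r * (2 * Δ) ^ r * S / Fintype.card V) := by
        calc _ ≤ ∑ v, |E u v * ((A ^ r).mulVec x v - (E ^ r).mulVec x v)| :=
              abs_sum_le_sum_abs _ _
          _ ≤ ∑ v, |E u v| * (r * (2 * Δ) ^ r * S / Fintype.card V) := by
              refine sum_le_sum fun v _ => ?_
              rw [abs_mul]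
              exact mul_le_mul_of_nonneg_left (ih v) (abs_nonneg _)
          _ = (∑ v, |E u v|) * (r * (2 * Δ) ^ r * S / Fintype.card V) := by rw [sum_mul]
          _ ≤ _ := mul_le_mul_of_nonneg_right (hEl1 u) (by positivity)
      have h3 : 0 ≤ (∑ v, (A ^ r).mulVec x v) - (A ^ r).mulVec x u := by
        have := single_le_sum (fun v _ => frob_pow_mulVec_nonneg hA0 r x hx v) (mem_univ u)
        linarith
      have h4 : p * ((∑ v, (A ^ r).mulVec x v) - (A ^ r).mulVec x u) ≤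
          (2 * Δ) ^ (r + 1) * S / Fintype.card V := by
        have h5 := frob_sum_pow_mulVec hA0 hAs hrow r x hx
        have h6 := frob_pow_mulVec_nonneg hA0 r x hx u
        calc p * ((∑ v, (A ^ r).mulVec x v) - (A ^ r).mulVec x u)
            ≤ p * (Δ ^ r * S) := mul_le_mul_of_nonneg_left (by linarith) hp
          _ = (p * Fintype.card V) * Δ ^ r * S / Fintype.card V := by field_simp
          _ ≤ Δ * Δ ^ r * S / Fintype.card V := by gcongr
          _ = Δ ^ (r + 1) * S / Fintype.card V := by ring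
          _ ≤ (2 * Δ) ^ (r + 1) * S / Fintype.card V := by
              gcongr
              linarith
      have h5 : 0 ≤ p * ((∑ v, (A ^ r).mulVec x v) - (A ^ r).mulVec x u) := mul_nonneg hp h3
      calc |E.mulVec ((A ^ r).mulVec x) u + p * ((∑ v, (A ^ r).mulVec x v) - (A ^ r).mulVec x u) -
            E.mulVec ((E ^ r).mulVec x) u|
          = |(∑ v, E u v * ((A ^ r).mulVec x v - (E ^ r).mulVec x v)) +
              p * ((∑ v, (A ^ r).mulVec x v) - (A ^ r).mulVec x u)| := by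
            rw [← h1]; congr 1; ring
        _ ≤ |∑ v, E u v * ((A ^ r).mulVec x v - (E ^ r).mulVec x v)| +
              |p * ((∑ v, (A ^ r).mulVec x v) - (A ^ r).mulVec x u)| := abs_add_le _ _
        _ ≤ 2 * Δ * (r * (2 * Δ) ^ r * S / Fintype.card V) +
              (2 * Δ) ^ (r + 1) * S / Fintype.card V := by
            rw [abs_of_nonneg h5]
            exact add_le_add h2 h4
        _ = _ := by push_cast; ring
  -- norm of E^r x
  have hnsE : ∀ r : ℕ, ns ((E ^ r).mulVec x) ≤ Θ ^ r * S := by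
    intro r
    induction r with
    | zero =>
      rw [pow_zero, pow_zero, Matrix.one_mulVec, one_mul]
      unfold ns
      refine sum_le_sum fun v _ => ?_
      nlinarith [hx v, hx1 v]
    | succ r ih =>
      rw [frob_pow_succ_mulVec]
      calc _ ≤ Θ * ns ((E ^ r).mulVec x) := hE _
        _ ≤ Θ * (Θ ^ r * S) := mul_le_mul_of_nonneg_left ih hΘ
        _ = _ := by ring
  have hfin : ∀ u ∈ univ.filter (fun u => L ≤ (A ^ r).mulVec x u),
      (L / 2) ^ 2 ≤ (E ^ r).mulVec x u ^ 2 := by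
    intro u hu
    rw [mem_filter] at hu
    have h1 := happ r u
    have h2 : (A ^ r).mulVec x u - (E ^ r).mulVec x u ≤ L / 2 := by
      have := (abs_le.mp h1).2
      linarith
    have h3 : L / 2 ≤ (E ^ r).mulVec x u := by linarith [hu.2]
    exact pow_le_pow_left₀ (by positivity) h3 2
  have h1 : ((univ.filter fun u => L ≤ (A ^ r).mulVec x u).card : ℝ) * (L / 2) ^ 2 ≤
      ns ((E ^ r).mulVec x) := by
    calc _ = ∑ _u ∈ univ.filter (fun u => L ≤ (A ^ r).mulVec x u), (L / 2) ^ 2 := by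
          rw [sum_const, nsmul_eq_mul]
      _ ≤ ∑ u ∈ univ.filter (fun u => L ≤ (A ^ r).mulVec x u), (E ^ r).mulVec x u ^ 2 :=
          sum_le_sum hfin
      _ ≤ _ := sum_le_sum_of_subset_of_nonneg (filter_subset _ _) fun _ _ _ => sq_nonneg _
  have h2 := hnsE r
  nlinarith [h1, h2]
end Frob

end Pool.MP_1bacea_co
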