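import Pool.Agent.Lib.MP_1bacea_co.MaxDeg

/-!
Local sparsity. For fixed A with 1 ≤ a = |A| ≤ amax: if every v ∈ A has dg v A ≥ D0+1 then
e(A) ≥ (D0+1) a / 2. With μ = n^η: E[μ^{e(A)}] = (1+p(μ-1))^{C(a,2)} ≤ exp(p μ a^2/2) ≤ exp(a/2)
(p a ≤ p amax ≤ n^{-η}), so Pr ≤ exp(a/2) n^{-η(D0+1)a/2} ≤ x^a with x = e^{1/2} n^{-2}.
Union bound over nonempty A: ∑_A x^{|A|} = (1+x)^n - 1 ≤ e^{n x} - 1 ≤ 2 n x ≤ 4/n.
-/

set_option autoImplicit false

open Finset

namespace Pool.MP_1bacea_co

variable {V : Type*} [Fintype V] [DecidableEq V]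

/-- the pairs inside a set -/
def ls_T (A : Finset V) : Finset (Sym2 V) := A.offDiag.image (fun q => s(q.1, q.2))

omit [Fintype V] in
theorem ls_card_T (A : Finset V) : (ls_T A).card = A.card.choose 2 := by
  unfold ls_T
  exact Sym2.card_image_offDiag A

/-- double counting -/
theorem ls_double (ω : Sym2 V → Bool) (A : Finset V) (D : ℕ)
    (h : ∀ v ∈ A, D ≤ dg (Gr ω) v A) :
    D * A.card ≤ 2 * ((ls_T A).filter fun e => ω e = true).card := by
  classical
  have h1 : D * A.card ≤ ∑ v ∈ A, dg (Gr ω) v A := by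
    rw [mul_comm, ← smul_eq_mul]
    exact card_nsmul_le_sum _ _ _ h
  refine h1.trans ?_
  have h2 : ∑ v ∈ A, dg (Gr ω) v A =
      ((A ×ˢ A).filter fun q => (Gr ω).Adj q.1 q.2).card := by
    rw [card_filter, sum_product]
    refine sum_congr rfl fun v _ => ?_
    unfold dg
    rw [card_filter]
  rw [h2]
  refine card_le_mul_card_image_of_maps_to (f := fun q : V × V => s(q.1, q.2)) ?_ 2 ?_
  · intro q hq
    rw [mem_filter, mem_product] at hq
    have h3 : q.1 ≠ q.2 ∧ ω s(q.1, q.2) = true := hq.2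
    rw [mem_filter]
    refine ⟨?_, h3.2⟩
    unfold ls_T
    rw [mem_image]
    exact ⟨q, mem_offDiag.mpr ⟨hq.1.1, hq.1.2, h3.1⟩, rfl⟩
  · intro e he
    induction e using Sym2.ind with
    | _ a b =>
      have hsub : (((A ×ˢ A).filter fun q => (Gr ω).Adj q.1 q.2).filter
          fun q : V × V => s(q.1, q.2) = s(a, b)) ⊆ {(a, b), (b, a)} := by
        intro q hq
        rw [mem_filter] at hq
        have h4 := Sym2.eq_iff.mp hq.2
        rw [mem_insert, mem_singleton]
        rcases h4 with ⟨h5, h6⟩ | ⟨h5, h6⟩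
        · left; exact Prod.ext h5 h6
        · right; exact Prod.ext h5 h6
      exact (card_le_card hsub).trans card_le_two

theorem Pr_locsp {p : ℝ} (h0 : 0 ≤ p) (h1 : p ≤ 1) {amax η : ℝ} (hη : 0 < η)
    (hn : 8 ≤ (Fintype.card V : ℝ)) (hp : p * amax ≤ (Fintype.card V : ℝ) ^ (-η)) (D0 : ℕ)
    (hD : 4 ≤ η * (D0 + 1)) :
    Pr p (fun ω : Sym2 V → Bool => ¬ LocSp (Gr ω) amax D0) ≤ 4 / Fintype.card V := by
  classical
  set n : ℝ := (Fintype.card V : ℝ) with hnd
  have hn0 : 0 < n := by linarith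
  have hn1 : 1 ≤ n := by linarith
  have hlog : 0 ≤ Real.log n := Real.log_nonneg hn1
  set μ : ℝ := n ^ η with hμ
  have hμ0 : 0 < μ := Real.rpow_pos_of_pos hn0 _
  have hμ1 : 1 ≤ μ := Real.one_le_rpow hn1 hη.le
  set x : ℝ := Real.exp (1 / 2) * (n ^ 2)⁻¹ with hx
  have hx0 : 0 ≤ x := by positivity
  have hone : ∀ A : Finset V, A.Nonempty → (A.card : ℝ) ≤ amax →
      Pr p (fun ω : Sym2 V → Bool => ∀ v ∈ A, D0 + 1 ≤ dg (Gr ω) v A) ≤ x ^ A.card := by
    intro A hA hAm
    set a : ℝ := (A.card : ℝ) with ha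
    have ha0 : 0 ≤ a := by positivity
    have hm : Pr p (fun ω : Sym2 V → Bool => ∀ v ∈ A, D0 + 1 ≤ dg (Gr ω) v A) ≤
        Ex p (fun ω : Sym2 V → Bool => Real.exp (-(2 * a * Real.log n)) *
          μ ^ ((ls_T A).filter fun e => ω e = true).card) := by
      refine Pr_le_Ex h0 h1 (fun ω => by positivity) ?_
      intro ω hω
      have hd := ls_double ω A (D0 + 1) hω
      have hd' : ((D0 : ℝ) + 1) * a ≤ 2 * (((ls_T A).filter fun e => ω e = true).card : ℝ) := by
        rw [ha]
        exact_mod_cast hd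
      have h2 : μ ^ ((ls_T A).filter fun e => ω e = true).card =
          Real.exp (Real.log n * η * (((ls_T A).filter fun e => ω e = true).card : ℝ)) := by
        rw [hμ, ← Real.rpow_natCast, ← Real.rpow_mul hn0.le, Real.rpow_def_of_pos hn0]
        ring_nf
      rw [h2, ← Real.exp_add]
      apply Real.one_le_exp
      have h3 : 4 * a ≤ η * (2 * (((ls_T A).filter fun e => ω e = true).card : ℝ)) := by
        calc 4 * a ≤ (η * (D0 + 1)) * a := mul_le_mul_of_nonneg_right hD ha0
          _ = η * (((D0 : ℝ) + 1) * a) := by ring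
          _ ≤ _ := mul_le_mul_of_nonneg_left hd' hη.le
      have h4 : 0 ≤ Real.log n * (η * (((ls_T A).filter fun e => ω e = true).card : ℝ) - 2 * a) :=
        mul_nonneg hlog (by linarith)
      nlinarith
    rw [Ex_mul_left, md_Ex_pow, ls_card_T] at hm
    have hb : (1 + p * (μ - 1)) ^ (A.card.choose 2) ≤ Real.exp (a / 2) := by
      have hpm : 0 ≤ p * (μ - 1) := mul_nonneg h0 (by linarith)
      have e1 : 1 + p * (μ - 1) ≤ Real.exp (p * (μ - 1)) := by
        have := Real.add_one_le_exp (p * (μ - 1))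
        linarith
      have e2 : (1 + p * (μ - 1)) ^ (A.card.choose 2) ≤
          (Real.exp (p * (μ - 1))) ^ (A.card.choose 2) :=
        pow_le_pow_left₀ (by linarith) e1 _
      refine e2.trans ?_
      rw [← Real.exp_nat_mul]
      apply Real.exp_le_exp.mpr
      have hc : ((A.card.choose 2 : ℕ) : ℝ) ≤ a * a / 2 := by
        rw [Nat.cast_choose_two]
        nlinarith
      have hpa : p * a ≤ n ^ (-η) := (mul_le_mul_of_nonneg_left hAm h0).trans hp
      have hinv : n ^ (-η) * μ = 1 := by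
        rw [hμ, ← Real.rpow_add hn0]; simp
      have hpam : p * a * μ ≤ 1 := by
        calc p * a * μ ≤ n ^ (-η) * μ := mul_le_mul_of_nonneg_right hpa hμ0.le
          _ = 1 := hinv
      calc ((A.card.choose 2 : ℕ) : ℝ) * (p * (μ - 1)) ≤ (a * a / 2) * (p * (μ - 1)) :=
            mul_le_mul_of_nonneg_right hc hpm
        _ ≤ (a * a / 2) * (p * μ) := by
            apply mul_le_mul_of_nonneg_left _ (by positivity)
            exact mul_le_mul_of_nonneg_left (by linarith) h0
        _ = (a / 2) * (p * a * μ) := by ring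
        _ ≤ (a / 2) * 1 := mul_le_mul_of_nonneg_left hpam (by positivity)
        _ = a / 2 := by ring
    refine hm.trans ((mul_le_mul_of_nonneg_left hb (Real.exp_pos _).le).trans (le_of_eq ?_))
    rw [hx, mul_pow, ← Real.exp_nat_mul, inv_pow, ← pow_mul]
    have e5 : (n ^ (2 * A.card))⁻¹ = Real.exp (-(2 * a * Real.log n)) := by
      rw [Real.exp_neg]
      congr 1
      rw [← Real.rpow_natCast, Real.rpow_def_of_pos hn0]
      congr 1
      push_cast
      ring
    rw [e5, mul_comm]
    congr 2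
    rw [ha]; ring
  have hstep : Pr p (fun ω : Sym2 V → Bool => ¬ LocSp (Gr ω) amax D0) ≤
      ∑ A ∈ (univ : Finset (Finset V)).filter (fun A => A.Nonempty ∧ (A.card : ℝ) ≤ amax),
        x ^ A.card := by
    calc Pr p (fun ω : Sym2 V → Bool => ¬ LocSp (Gr ω) amax D0)
        ≤ Pr p (fun ω : Sym2 V → Bool =>
            ∃ A ∈ (univ : Finset (Finset V)).filter (fun A => A.Nonempty ∧ (A.card : ℝ) ≤ amax),
              ∀ v ∈ A, D0 + 1 ≤ dg (Gr ω) v A) := by
          refine Pr_mono h0 h1 fun ω hω => ?_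
          unfold LocSp at hω
          push Not at hω
          obtain ⟨A, hA, hAm, hd⟩ := hω
          exact ⟨A, by rw [mem_filter]; exact ⟨mem_univ _, hA, hAm⟩, fun v hv => hd v hv⟩
      _ ≤ _ := Pr_exists_le h0 h1 _ _
      _ ≤ _ := by
          refine sum_le_sum fun A hA => ?_
          rw [mem_filter] at hA
          exact hone A hA.2.1 hA.2.2
  have hsum : ∑ A ∈ (univ : Finset (Finset V)).filter
      (fun A => A.Nonempty ∧ (A.card : ℝ) ≤ amax), x ^ A.card ≤ (1 + x) ^ (Fintype.card V) - 1 := by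
    have hall : ∑ A : Finset V, x ^ A.card = (1 + x) ^ (Fintype.card V) := by
      have := Fintype.sum_pow_mul_eq_add_pow V x 1
      simp only [one_pow, mul_one] at this
      rw [this, add_comm]
    have hsplit : ∑ A ∈ (univ : Finset (Finset V)).filter
        (fun A => A.Nonempty ∧ (A.card : ℝ) ≤ amax), x ^ A.card ≤
        ∑ A ∈ (univ : Finset (Finset V)).erase ∅, x ^ A.card := by
      refine sum_le_sum_of_subset_of_nonneg ?_ fun A _ _ => by positivity
      intro A hA
      rw [mem_filter] at hA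
      exact mem_erase.mpr ⟨hA.2.1.ne_empty, mem_univ _⟩
    have hemp : x ^ (∅ : Finset V).card + ∑ A ∈ (univ : Finset (Finset V)).erase ∅, x ^ A.card =
        ∑ A : Finset V, x ^ A.card :=
      add_sum_erase _ (fun A : Finset V => x ^ A.card) (mem_univ _)
    rw [hall] at hemp
    simp only [card_empty, pow_zero] at hemp
    linarith
  have hfin : (1 + x) ^ (Fintype.card V) - 1 ≤ 4 / n := by
    have he : Real.exp (1 / 2) ≤ 2 := by
      have h3 : Real.exp (1 / 2) ^ 2 = Real.exp 1 := by
        rw [← Real.exp_nat_mul]; norm_num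
      have h4 : Real.exp 1 < 2.7182818286 := Real.exp_one_lt_d9
      by_contra hcon
      push Not at hcon
      have : (4 : ℝ) < Real.exp (1 / 2) ^ 2 := by nlinarith
      linarith
    have hnx : n * x ≤ 2 / n := by
      rw [hx]
      have : n * (Real.exp (1 / 2) * (n ^ 2)⁻¹) = Real.exp (1 / 2) / n := by
        field_simp
      rw [this]
      gcongr
    have hnx1 : n * x ≤ 1 := hnx.trans (by rw [div_le_one hn0]; linarith)
    have hnx0 : 0 ≤ n * x := by positivity
    have e1 : (1 + x) ^ (Fintype.card V) ≤ Real.exp (n * x) := by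
      have : 1 + x ≤ Real.exp x := by have := Real.add_one_le_exp x; linarith
      refine (pow_le_pow_left₀ (by linarith) this _).trans ?_
      rw [← Real.exp_nat_mul]
    have e2 : Real.exp (n * x) - 1 ≤ 2 * (n * x) := by
      have := Real.abs_exp_sub_one_le (x := n * x) (by rw [abs_of_nonneg hnx0]; exact hnx1)
      rw [abs_of_nonneg hnx0] at this
      exact (le_abs_self _).trans this
    have : 2 * (n * x) ≤ 4 / n := by
      have h5 : 2 * (2 / n) = 4 / n := by ring
      linarith
    linarith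
  exact hstep.trans (hsum.trans hfin)

end Pool.MP_1bacea_co
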