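import Pool.Agent.Lib.MP_1bacea_co.Defs

/-!
Maximum degree of G(n,p), p n = s.
Proof: for fixed v, dg (Gr ω) v univ = ∑_{u ≠ v} [ω s(v,u)], so
E[2 ^ dg] = (1 + p)^(n-1) ≤ e^s by Ex_prod (write 2 ^ dg as a product over e : Sym2 V of a factor
depending on ω e), Markov (Pr_le_Ex with f = 2^dg * 2^(-4s)) gives Pr(dg > 4 s) ≤ e^{s(1 - 4 log 2)} ≤ e^{-s}.
Union bound Pr_exists_le over v.
-/

set_option autoImplicit false

open Finset

namespace Pool.MP_1bacea_co

variable {V : Type*} [Fintype V] [DecidableEq V]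

/-- exponential moment of the number of bits equal to one in a set `T` -/
theorem md_Ex_pow {ι : Type*} [Fintype ι] [DecidableEq ι] (p μ : ℝ) (T : Finset ι) :
    Ex p (fun ω : ι → Bool => μ ^ (T.filter fun e => ω e = true).card) =
      (1 + p * (μ - 1)) ^ T.card := by
  have h := Ex_prod (ι := ι) p (fun e b => if e ∈ T ∧ b = true then μ else 1)
  have e1 : (fun ω : ι → Bool => ∏ i, (if i ∈ T ∧ ω i = true then μ else 1)) =
      fun ω : ι → Bool => μ ^ (T.filter fun e => ω e = true).card := by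
    funext ω
    rw [← prod_filter, prod_const]
    congr 2
    ext i
    simp
  rw [e1] at h
  rw [h]
  have e2 : ∀ i : ι, p * (if i ∈ T ∧ true = true then μ else 1) +
      (1 - p) * (if i ∈ T ∧ false = true then μ else 1) = if i ∈ T then 1 + p * (μ - 1) else 1 := by
    intro i
    by_cases hi : i ∈ T
    · simp [hi]; ring
    · simp [hi]
  rw [prod_congr rfl (fun i _ => e2 i), ← prod_filter, prod_const]
  congr 2
  ext i
  simp

/-- the edges at a vertex -/
def md_T (v : V) : Finset (Sym2 V) := (univ.erase v).image fun u => s(v, u)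

theorem md_card_T (v : V) : (md_T v).card ≤ Fintype.card V := by
  unfold md_T
  refine card_image_le.trans ?_
  exact (card_le_card (erase_subset _ _)).trans (by rw [card_univ])

theorem md_dg_le (ω : Sym2 V → Bool) (v : V) :
    dg (Gr ω) v univ ≤ ((md_T v).filter fun e => ω e = true).card := by
  classical
  unfold dg
  refine card_le_card_of_injOn (fun u => s(v, u)) ?_ ?_
  · intro u hu
    rw [mem_coe, mem_filter] at hu
    have h2 : v ≠ u ∧ ω s(v, u) = true := hu.2
    rw [mem_coe, mem_filter]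
    refine ⟨?_, h2.2⟩
    unfold md_T
    rw [mem_image]
    exact ⟨u, mem_erase.mpr ⟨h2.1.symm, mem_univ _⟩, rfl⟩
  · intro u _ w _ h
    have h' : s(v, u) = s(v, w) := h
    exact Sym2.congr_right.mp h'

theorem Pr_maxdeg {p : ℝ} (h0 : 0 ≤ p) (h1 : p ≤ 1) :
    Pr p (fun ω : Sym2 V → Bool => ¬ ∀ v, (dg (Gr ω) v univ : ℝ) ≤ 4 * (Fintype.card V * p)) ≤
      Fintype.card V * Real.exp (-(Fintype.card V * p)) := by
  classical
  set n : ℝ := (Fintype.card V : ℝ) with hn
  have hn0 : 0 ≤ n := by positivity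
  have hs0 : 0 ≤ n * p := mul_nonneg hn0 h0
  have hone : ∀ v : V, Pr p (fun ω : Sym2 V → Bool => 4 * (n * p) < (dg (Gr ω) v univ : ℝ)) ≤
      Real.exp (-(n * p)) := by
    intro v
    have hm : Pr p (fun ω : Sym2 V → Bool => 4 * (n * p) < (dg (Gr ω) v univ : ℝ)) ≤
        Ex p (fun ω : Sym2 V → Bool => Real.exp (-(Real.log 2 * (4 * (n * p)))) *
          (2 : ℝ) ^ ((md_T v).filter fun e => ω e = true).card) := by
      refine Pr_le_Ex h0 h1 (fun ω => by positivity) ?_
      intro ω hω
      have hd : (dg (Gr ω) v univ : ℝ) ≤ (((md_T v).filter fun e => ω e = true).card : ℝ) := by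
        exact_mod_cast md_dg_le ω v
      have h2 : (2 : ℝ) ^ ((md_T v).filter fun e => ω e = true).card =
          Real.exp (Real.log 2 * (((md_T v).filter fun e => ω e = true).card : ℝ)) := by
        rw [← Real.rpow_natCast, Real.rpow_def_of_pos (by norm_num)]
      rw [h2, ← Real.exp_add]
      apply Real.one_le_exp
      have hl : 0 < Real.log 2 := Real.log_pos (by norm_num)
      have : 0 ≤ Real.log 2 * ((((md_T v).filter fun e => ω e = true).card : ℝ) - 4 * (n * p)) :=
        mul_nonneg hl.le (by linarith)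
      linarith
    rw [Ex_mul_left, md_Ex_pow] at hm
    have hb : (1 + p * ((2 : ℝ) - 1)) ^ (md_T v).card ≤ Real.exp (n * p) := by
      have e1 : (1 + p * ((2 : ℝ) - 1)) ≤ Real.exp p := by
        have := Real.add_one_le_exp p
        linarith
      have e2 : (1 + p * ((2 : ℝ) - 1)) ^ (md_T v).card ≤ (Real.exp p) ^ (md_T v).card :=
        pow_le_pow_left₀ (by linarith) e1 _
      have e3 : (Real.exp p) ^ (md_T v).card ≤ (Real.exp p) ^ (Fintype.card V) :=
        pow_le_pow_right₀ (Real.one_le_exp h0) (md_card_T v)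
      refine e2.trans (e3.trans ?_)
      rw [← Real.exp_nat_mul]
    have hl2 : (0.6931471803 : ℝ) < Real.log 2 := Real.log_two_gt_d9
    calc Pr p (fun ω : Sym2 V → Bool => 4 * (n * p) < (dg (Gr ω) v univ : ℝ))
        ≤ Real.exp (-(Real.log 2 * (4 * (n * p)))) * (1 + p * ((2 : ℝ) - 1)) ^ (md_T v).card := hm
      _ ≤ Real.exp (-(Real.log 2 * (4 * (n * p)))) * Real.exp (n * p) :=
          mul_le_mul_of_nonneg_left hb (Real.exp_pos _).le
      _ = Real.exp (-(Real.log 2 * (4 * (n * p))) + n * p) := by rw [Real.exp_add]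
      _ ≤ Real.exp (-(n * p)) := by
          apply Real.exp_le_exp.mpr
          nlinarith
  calc Pr p (fun ω : Sym2 V → Bool => ¬ ∀ v, (dg (Gr ω) v univ : ℝ) ≤ 4 * (n * p))
      ≤ Pr p (fun ω : Sym2 V → Bool => ∃ v ∈ (univ : Finset V),
          4 * (n * p) < (dg (Gr ω) v univ : ℝ)) := by
        refine Pr_mono h0 h1 fun ω hω => ?_
        obtain ⟨v, hv⟩ := not_forall.mp hω
        exact ⟨v, mem_univ _, not_le.mp hv⟩
    _ ≤ ∑ v ∈ (univ : Finset V),
          Pr p (fun ω : Sym2 V → Bool => 4 * (n * p) < (dg (Gr ω) v univ : ℝ)) :=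
        Pr_exists_le h0 h1 _ _
    _ ≤ ∑ _v ∈ (univ : Finset V), Real.exp (-(n * p)) := sum_le_sum fun v _ => hone v
    _ = n * Real.exp (-(n * p)) := by
        rw [sum_const, nsmul_eq_mul, card_univ]

end Pool.MP_1bacea_co
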