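import Pool.Agent.Lib.MP_1bacea_co.Determ

/-!
The numerical conditions hold for large `n`.
-/

set_option autoImplicit false

open Finset

namespace Pool.MP_1bacea_co

/-- numerical conditions from `s ≥ y^(4r+7)` and `s^(2r) ≥ n y^(4r+7)` for large `y` -/
theorem num_exists (r : ℕ) (hr : 2 ≤ r) (d β ρ : ℝ) (hd : 0 < d) (hβ0 : 0 < β) (hβ1 : β ≤ 1)
    (hρ : ρ = d ^ r / (4 * r * 8 ^ r)) (m : ℕ) (hm : (1 - β) ^ m < ρ) :
    ∃ Y : ℝ, ∀ n s y : ℝ, 1 ≤ n → Y ≤ y → y ^ (4 * r + 7) ≤ s → n * y ^ (4 * r + 7) ≤ s ^ (2 * r) →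
      Num n (s / n) (4 * s) (y ^ 2 * s) (n / (y * s)) (y / s) β ρ (d * s) (s ^ r / y) r m := by
  set C1 : ℝ := 4 * ((r : ℝ) + 1) ^ 2 * 4 ^ (2 * r - 1) with hC1
  set C2 : ℝ := 2 * m / d ^ r with hC2
  set C3 : ℝ := 16 / (d ^ r) ^ 2 with hC3
  set C4 : ℝ := 12 * 2 ^ (2 * r) with hC4
  set C5 : ℝ := 12 * (2 * r * 2 ^ r * 4 ^ (2 * r + 1)) with hC5
  set C6 : ℝ := 12 * ((r : ℝ) ^ 2 * 4 ^ (4 * r)) with hC6
  have hr0 : (0 : ℝ) < r := by exact_mod_cast (by omega : 0 < r)
  have hdr : 0 < d ^ r := by positivity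
  refine ⟨1 + C1 + C2 + C3 + C4 + C5 + C6, ?_⟩
  intro n s y hn hY hs1 hs2
  have p1 : 0 ≤ C1 := by positivity
  have p2 : 0 ≤ C2 := by positivity
  have p3 : 0 ≤ C3 := by positivity
  have p4 : 0 ≤ C4 := by positivity
  have p5 : 0 ≤ C5 := by positivity
  have p6 : 0 ≤ C6 := by positivity
  have hy1 : 1 ≤ y := by linarith
  have hy0 : 0 < y := by linarith
  have hys : y ≤ s := (le_self_pow₀ hy1 (by omega)).trans hs1
  have hs0 : 0 < s := by linarith
  have hs11 : 1 ≤ s := by linarith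
  have hn0 : 0 < n := by linarith
  have hyp : ∀ a b : ℕ, a ≤ b → y ^ a ≤ y ^ b := fun a b h => pow_le_pow_right₀ hy1 h
  have hsn : s / n * n = s := by field_simp
  refine
    { hn := hn0
      hr := by omega
      hp := by positivity
      hΔ := by linarith
      hΘ := by positivity
      hΘΔ := ?_
      hpΔ := ?_
      hamax := by positivity
      hγ := by positivity
      hβ0 := hβ0
      hβ1 := hβ1
      hρ := by rw [hρ]; positivity
      hm := hm
      ht := by positivity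
      hK0 := by positivity
      hK := ?_
      hmK := ?_
      hL := ?_
      hlast := ?_
      hN1 := ?_
      hN2 := ?_
      hN3 := ?_ }
  · have h1 : y ^ 2 ≤ s := (hyp 2 (4 * r + 7) (by omega)).trans hs1
    nlinarith
  · rw [hsn]; nlinarith
  · -- hK
    have e : (s ^ r / y) ^ 2 / 2 = s ^ (2 * r - 1) * (s / (2 * y ^ 2)) := by
      have : s ^ (2 * r) = s ^ (2 * r - 1) * s := by
        rw [← pow_succ]; congr 1; omega
      rw [div_pow, ← pow_mul, mul_comm r 2, this]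
      field_simp
    rw [e, mul_pow]
    have h1 : C1 * y ^ 2 ≤ s := by
      have : y ^ 3 ≤ s := (hyp 3 (4 * r + 7) (by omega)).trans hs1
      have h2 : C1 * y ^ 2 ≤ y * y ^ 2 := mul_le_mul_of_nonneg_right (by linarith) (by positivity)
      calc C1 * y ^ 2 ≤ y * y ^ 2 := h2
        _ = y ^ 3 := by ring
        _ ≤ s := this
    have h2 : C1 / 2 ≤ s / (2 * y ^ 2) := by
      rw [le_div_iff₀ (by positivity)]
      nlinarith
    calc 2 * ((r : ℝ) + 1) ^ 2 * (4 ^ (2 * r - 1) * s ^ (2 * r - 1))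
        = s ^ (2 * r - 1) * (C1 / 2) := by rw [hC1]; ring
      _ ≤ _ := mul_le_mul_of_nonneg_left h2 (by positivity)
  · -- hmK
    have h1 : 2 * (m : ℝ) ≤ y * d ^ r := by
      have : C2 ≤ y := by linarith
      rw [hC2, div_le_iff₀ hdr] at this
      linarith
    rw [mul_pow]
    have e : (m : ℝ) * (s ^ r / y) = (s ^ r) * (m / y) := by ring
    rw [e]
    have h2 : (m : ℝ) / y ≤ d ^ r / 2 := by
      rw [div_le_iff₀ hy0]; linarith
    calc s ^ r * (m / y) ≤ s ^ r * (d ^ r / 2) := mul_le_mul_of_nonneg_left h2 (by positivity)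
      _ = _ := by ring
  · -- hL
    rw [hρ]
    apply le_of_eq
    have : (2 * (4 * s)) ^ r = 8 ^ r * s ^ r := by rw [← mul_pow]; ring
    rw [this, mul_pow]
    field_simp
    ring
  · -- hlast
    have h1 : C3 * y ^ (2 * r + 1) ≤ s ^ (r - 1) := by
      calc C3 * y ^ (2 * r + 1) ≤ y * y ^ (2 * r + 1) :=
            mul_le_mul_of_nonneg_right (by linarith) (by positivity)
        _ = y ^ (2 * r + 2) := by ring
        _ ≤ y ^ (4 * r + 7) := hyp _ _ (by omega)
        _ ≤ s := hs1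
        _ ≤ s ^ (r - 1) := le_self_pow₀ hs11 (by omega)
    have e1 : n / (y * s) * ((d * s) ^ r / 2) ^ 2 = (n * s ^ r) * ((d ^ r) ^ 2 * s ^ (r - 1) / (4 * y)) := by
      have : s ^ r = s ^ (r - 1) * s := by rw [← pow_succ]; congr 1; omega
      rw [mul_pow, this]
      field_simp
      norm_num
    have e2 : 4 * (y ^ 2 * s) ^ r * n = (n * s ^ r) * (4 * y ^ (2 * r)) := by
      rw [mul_pow, ← pow_mul]; ring
    rw [e1, e2]
    refine mul_le_mul_of_nonneg_left ?_ (by positivity)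
    rw [le_div_iff₀ (by positivity)]
    have h2 : 16 * y ^ (2 * r + 1) ≤ (d ^ r) ^ 2 * s ^ (r - 1) := by
      have := mul_le_mul_of_nonneg_left h1 (by positivity : 0 ≤ (d ^ r) ^ 2)
      rw [hC3] at this
      calc 16 * y ^ (2 * r + 1) = (d ^ r) ^ 2 * (16 / (d ^ r) ^ 2 * y ^ (2 * r + 1)) := by field_simp
        _ ≤ _ := this
    calc 4 * y ^ (2 * r) * (4 * y) = 16 * y ^ (2 * r + 1) := by ring
      _ ≤ _ := h2
  · -- hN1
    have h1 : C4 * (n * y ^ (4 * r + 6)) < s ^ (2 * r) := by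
      have : C4 < y := by linarith
      calc C4 * (n * y ^ (4 * r + 6)) < y * (n * y ^ (4 * r + 6)) :=
            mul_lt_mul_of_pos_right this (by positivity)
        _ = n * y ^ (4 * r + 7) := by ring
        _ ≤ _ := hs2
    have e1 : y / s * n ^ 2 * (2 * (y ^ 2 * s)) ^ (2 * r) =
        (n * s ^ (2 * r) / (12 * s * y ^ 5)) * (C4 * (n * y ^ (4 * r + 6))) := by
      rw [hC4, mul_pow, mul_pow, ← pow_mul, show 4 * r + 6 = 2 * (2 * r) + 6 by ring, pow_add y]
      field_simp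
    have e2 : n / (y * s) * (s ^ r / y) ^ 4 / 12 = (n * s ^ (2 * r) / (12 * s * y ^ 5)) * s ^ (2 * r) := by
      rw [div_pow, ← pow_mul, show r * 4 = 2 * r + 2 * r by ring, pow_add]
      field_simp
    rw [e1, e2]
    exact mul_lt_mul_of_pos_left h1 (by positivity)
  · -- hN2
    have h1 : C5 * y ^ (2 * r + 6) < s ^ (r - 1) := by
      have : C5 < y := by linarith
      calc C5 * y ^ (2 * r + 6) < y * y ^ (2 * r + 6) :=
            mul_lt_mul_of_pos_right this (by positivity)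
        _ = y ^ (2 * r + 7) := by ring
        _ ≤ y ^ (4 * r + 7) := hyp _ _ (by omega)
        _ ≤ s := hs1
        _ ≤ s ^ (r - 1) := le_self_pow₀ hs11 (by omega)
    have hs3 : s ^ (2 * r + 1) * s ^ r * s ^ (r - 1) = s ^ (4 * r) := by
      rw [← pow_add, ← pow_add]; congr 1; omega
    have e1 : y / s * n * (2 * r * (2 * (y ^ 2 * s)) ^ r * (4 * s) ^ (2 * r + 1)) =
        (n * (s ^ (2 * r + 1) * s ^ r) / (12 * s * y ^ 5)) * (C5 * y ^ (2 * r + 6)) := by
      rw [hC5, mul_pow 4 s, mul_pow 2, mul_pow (y ^ 2), ← pow_mul, pow_add y (2 * r) 6]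
      field_simp
    have e2 : n / (y * s) * (s ^ r / y) ^ 4 / 12 =
        (n * (s ^ (2 * r + 1) * s ^ r) / (12 * s * y ^ 5)) * s ^ (r - 1) := by
      have e3 : (n * (s ^ (2 * r + 1) * s ^ r) / (12 * s * y ^ 5)) * s ^ (r - 1) =
        n * (s ^ (2 * r + 1) * s ^ r * s ^ (r - 1)) / (12 * s * y ^ 5) := by ring
      rw [e3, hs3, div_pow, ← pow_mul, show r * 4 = 4 * r by ring]
      field_simp
    rw [e1, e2]
    exact mul_lt_mul_of_pos_left h1 (by positivity)
  · -- hN3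
    have h1 : C6 * y ^ 5 < s := by
      have : C6 < y := by linarith
      calc C6 * y ^ 5 < y * y ^ 5 := mul_lt_mul_of_pos_right this (by positivity)
        _ = y ^ 6 := by ring
        _ ≤ y ^ (4 * r + 7) := hyp _ _ (by omega)
        _ ≤ s := hs1
    have e1 : y / s * ((r : ℝ) ^ 2 * (4 * s) ^ (4 * r)) =
        (s ^ (4 * r) / (12 * s * y ^ 4)) * (C6 * y ^ 5) := by
      rw [hC6, mul_pow 4 s]
      field_simp
    have e2 : (s ^ r / y) ^ 4 / 12 = (s ^ (4 * r) / (12 * s * y ^ 4)) * s := by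
      rw [div_pow, ← pow_mul, show r * 4 = 4 * r by ring]
      field_simp
    rw [e1, e2]
    exact mul_lt_mul_of_pos_left h1 (by positivity)

end Pool.MP_1bacea_co
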