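import Pool.Agent.Lib.MP_1bacea_co.Defs

/-!
Random bipartition: Ex over V → Bool with p = 1/2 (P = {v | ω v}). Pr(|N(v) ∩ P| < t) ≤ 2^t (3/4)^{4t}
≤ e^{-t/4} by Markov with (1/2)^{|N(v)∩P|}; the same for the complement; union bound < 1, so some ω works.
-/

set_option autoImplicit false

open Finset

namespace Pool.MP_1bacea_co

variable {V : Type*} [Fintype V] [DecidableEq V]

open scoped Classical in
private lemma part_const {t : ℝ} (ht : 0 ≤ t) {d : ℝ} (hd : 4 * t ≤ d) :
    (2 : ℝ) ^ t * (3 / 4 : ℝ) ^ d ≤ Real.exp (-(t / 4)) := by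
  have h1 : (3 / 4 : ℝ) ^ d ≤ (3 / 4 : ℝ) ^ (4 * t) :=
    Real.rpow_le_rpow_of_exponent_ge (by norm_num) (by norm_num) hd
  have h2 : (3 / 4 : ℝ) ^ (4 * t) = ((81 / 256 : ℝ)) ^ t := by
    rw [Real.rpow_mul (by norm_num)]
    congr 1
    norm_num
  have h3 : (2 : ℝ) ^ t * ((81 / 256 : ℝ)) ^ t = (81 / 128 : ℝ) ^ t := by
    rw [← Real.mul_rpow (by norm_num) (by norm_num)]
    congr 1
    norm_num
  have h4 : (81 / 128 : ℝ) ≤ Real.exp (-(1 / 4)) := by
    have := Real.add_one_le_exp (-(1 / 4) : ℝ)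
    linarith
  have h5 : Real.exp (-(t / 4)) = Real.exp (-(1 / 4)) ^ t := by
    rw [← Real.exp_mul]
    congr 1
    ring
  calc (2 : ℝ) ^ t * (3 / 4 : ℝ) ^ d ≤ (2 : ℝ) ^ t * (3 / 4 : ℝ) ^ (4 * t) :=
        mul_le_mul_of_nonneg_left h1 (by positivity)
    _ = (81 / 128 : ℝ) ^ t := by rw [h2, h3]
    _ ≤ Real.exp (-(1 / 4)) ^ t := Real.rpow_le_rpow (by norm_num) h4 ht
    _ = _ := h5.symm

open scoped Classical in
private lemma part_one (G : SimpleGraph V) (v : V) (b : Bool) {t : ℝ} (ht : 0 ≤ t)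
    (hdeg : 4 * t ≤ dg G v univ) :
    Pr (1 / 2) (fun ω : V → Bool =>
      (((univ : Finset V).filter fun u => G.Adj v u ∧ ω u = b).card : ℝ) < t) ≤
      Real.exp (-(t / 4)) := by
  set g : V → Bool → ℝ := fun u c => if G.Adj v u ∧ c = b then 1 / 2 else 1 with hg
  have key : ∀ ω : V → Bool, ∏ u, g u (ω u) =
      (1 / 2 : ℝ) ^ ((univ : Finset V).filter fun u => G.Adj v u ∧ ω u = b).card := by
    intro ω
    simp only [hg]
    rw [prod_ite]
    simp
  have hE : Ex (1 / 2) (fun ω : V → Bool => (2 : ℝ) ^ t * ∏ u, g u (ω u)) =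
      (2 : ℝ) ^ t * (3 / 4 : ℝ) ^ (dg G v univ) := by
    rw [Ex_mul_left, Ex_prod]
    congr 1
    have : ∀ u, (1 / 2 * g u true + (1 - 1 / 2) * g u false : ℝ) =
        if G.Adj v u then 3 / 4 else 1 := by
      intro u
      simp only [hg]
      by_cases hu : G.Adj v u
      · cases b <;> simp [hu] <;> norm_num
      · simp [hu]
    simp_rw [this]
    rw [prod_ite]
    simp only [prod_const, one_pow, mul_one]
    rfl
  refine (Pr_le_Ex (by norm_num) (by norm_num) (f := fun ω => (2 : ℝ) ^ t * ∏ u, g u (ω u))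
    ?_ ?_).trans ?_
  · intro ω
    rw [key]
    positivity
  · intro ω hω
    rw [key]
    have e : (1 / 2 : ℝ) ^ ((univ : Finset V).filter fun u => G.Adj v u ∧ ω u = b).card =
        (2 : ℝ) ^ (-(((univ : Finset V).filter fun u => G.Adj v u ∧ ω u = b).card : ℝ)) := by
      rw [Real.rpow_neg (by norm_num), Real.rpow_natCast]
      simp
    rw [e, ← Real.rpow_add (by norm_num)]
    apply Real.one_le_rpow (by norm_num)
    linarith
  · rw [hE, ← Real.rpow_natCast]
    exact part_const ht hdeg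

theorem exists_partition (G : SimpleGraph V) {t : ℝ} (ht : 0 ≤ t)
    (hdeg : ∀ v, 4 * t ≤ dg G v univ)
    (hn : 2 * Fintype.card V * Real.exp (-(t / 4)) < 1) :
    ∃ P : Finset V, ∀ v, t ≤ dg G v P ∧ t ≤ dg G v Pᶜ := by
  classical
  have hA : Pr (1 / 2) (fun ω : V → Bool => ∃ k ∈ (univ : Finset (V × Bool)),
      (((univ : Finset V).filter fun u => G.Adj k.1 u ∧ ω u = k.2).card : ℝ) < t) < 1 := by
    refine lt_of_le_of_lt (Pr_exists_le (by norm_num) (by norm_num) _
      (fun (k : V × Bool) (ω : V → Bool) =>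
        (((univ : Finset V).filter fun u => G.Adj k.1 u ∧ ω u = k.2).card : ℝ) < t)) ?_
    have : ∑ k : V × Bool, Pr (1 / 2) (fun ω : V → Bool =>
        (((univ : Finset V).filter fun u => G.Adj k.1 u ∧ ω u = k.2).card : ℝ) < t) ≤
        ∑ k : V × Bool, Real.exp (-(t / 4)) := by
      refine sum_le_sum fun k _ => ?_
      have := part_one G k.1 k.2 ht (hdeg k.1)
      convert this
    refine lt_of_le_of_lt this ?_
    rw [sum_const, card_univ, Fintype.card_prod, Fintype.card_bool, nsmul_eq_mul]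
    push_cast
    linarith
  have hB : ∃ ω : V → Bool, ¬ ∃ k ∈ (univ : Finset (V × Bool)),
      (((univ : Finset V).filter fun u => G.Adj k.1 u ∧ ω u = k.2).card : ℝ) < t := by
    by_contra hcon
    push_neg at hcon
    have h1 : Pr (1 / 2) (fun ω : V → Bool => ∃ k ∈ (univ : Finset (V × Bool)),
      (((univ : Finset V).filter fun u => G.Adj k.1 u ∧ ω u = k.2).card : ℝ) < t) = 1 := by
      unfold Pr
      have : (fun ω : V → Bool => ind (∃ k ∈ (univ : Finset (V × Bool)),
          (((univ : Finset V).filter fun u => G.Adj k.1 u ∧ ω u = k.2).card : ℝ) < t)) =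
          fun _ => 1 := by
        ext ω
        obtain ⟨k, hk, hk'⟩ := hcon ω
        exact ind_true ⟨k, hk, hk'⟩
      rw [this, Ex_const]
    linarith
  obtain ⟨ω, hω⟩ := hB
  push_neg at hω
  refine ⟨univ.filter fun u => ω u = true, fun v => ⟨?_, ?_⟩⟩
  · have h := hω (v, true) (mem_univ _)
    refine h.trans (le_of_eq ?_)
    unfold dg
    congr 2
    ext u
    simp [and_comm]
  · have h := hω (v, false) (mem_univ _)
    refine h.trans (le_of_eq ?_)
    unfold dg
    congr 2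
    ext u
    simp [and_comm]

end Pool.MP_1bacea_co
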