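import Mathlib

/-!
Expectation of functions of independent Bernoulli(p) bits, as a finite sum.
-/

set_option autoImplicit false

open Finset

namespace Pool.MP_1bacea_co

variable {ι : Type*} [Fintype ι] [DecidableEq ι]

/-- the weight of a configuration of bits -/
noncomputable def wt (p : ℝ) (ω : ι → Bool) : ℝ := ∏ i, (if ω i then p else 1 - p)

/-- the expectation -/
noncomputable def Ex (p : ℝ) (f : (ι → Bool) → ℝ) : ℝ := ∑ ω, wt p ω * f ω

omit [DecidableEq ι] in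
lemma wt_nonneg {p : ℝ} (h0 : 0 ≤ p) (h1 : p ≤ 1) (ω : ι → Bool) : 0 ≤ wt p ω := by
  unfold wt
  refine prod_nonneg fun i _ => ?_
  split_ifs
  · exact h0
  · linarith

/-- factorisation over the bits -/
lemma Ex_prod (p : ℝ) (g : ι → Bool → ℝ) :
    Ex p (fun ω => ∏ i, g i (ω i)) = ∏ i, (p * g i true + (1 - p) * g i false) := by
  unfold Ex wt
  have h : ∀ ω : ι → Bool, (∏ i, (if ω i then p else 1 - p)) * ∏ i, g i (ω i) =
      ∏ i, ((if ω i then p else 1 - p) * g i (ω i)) := fun ω => prod_mul_distrib.symm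
  simp_rw [h]
  have e := (Finset.prod_univ_sum (ι := ι) (fun _ : ι => (Finset.univ : Finset Bool))
    (fun i b => (if b then p else 1 - p) * g i b)).symm
  rw [Fintype.piFinset_univ] at e
  rw [e]
  refine prod_congr rfl fun i _ => ?_
  simp

lemma Ex_const (p c : ℝ) : Ex (ι := ι) p (fun _ => c) = c := by
  have h := Ex_prod (ι := ι) p (fun _ _ => 1)
  simp only [prod_const_one, mul_one, add_sub_cancel] at h
  have : Ex (ι := ι) p (fun _ => c) = Ex (ι := ι) p (fun _ => 1) * c := by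
    unfold Ex
    rw [sum_mul]
    refine sum_congr rfl fun ω _ => ?_
    ring
  rw [this, h, one_mul]

lemma sum_wt (p : ℝ) : ∑ ω : ι → Bool, wt p ω = 1 := by
  have := Ex_const (ι := ι) p 1
  unfold Ex at this
  simpa using this

lemma Ex_add (p : ℝ) (f g : (ι → Bool) → ℝ) :
    Ex p (fun ω => f ω + g ω) = Ex p f + Ex p g := by
  unfold Ex
  rw [← sum_add_distrib]
  exact sum_congr rfl fun ω _ => by ring

lemma Ex_mul_left (p c : ℝ) (f : (ι → Bool) → ℝ) :
    Ex p (fun ω => c * f ω) = c * Ex p f := by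
  unfold Ex
  rw [mul_sum]
  exact sum_congr rfl fun ω _ => by ring

lemma Ex_sum {κ : Type*} (p : ℝ) (s : Finset κ) (f : κ → (ι → Bool) → ℝ) :
    Ex p (fun ω => ∑ k ∈ s, f k ω) = ∑ k ∈ s, Ex p (f k) := by
  unfold Ex
  rw [sum_comm]
  exact sum_congr rfl fun ω _ => by rw [mul_sum]

lemma Ex_mono {p : ℝ} (h0 : 0 ≤ p) (h1 : p ≤ 1) {f g : (ι → Bool) → ℝ} (h : ∀ ω, f ω ≤ g ω) :
    Ex p f ≤ Ex p g :=
  sum_le_sum fun ω _ => mul_le_mul_of_nonneg_left (h ω) (wt_nonneg h0 h1 ω)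

lemma Ex_nonneg {p : ℝ} (h0 : 0 ≤ p) (h1 : p ≤ 1) {f : (ι → Bool) → ℝ} (h : ∀ ω, 0 ≤ f ω) :
    0 ≤ Ex p f :=
  sum_nonneg fun ω _ => mul_nonneg (wt_nonneg h0 h1 ω) (h ω)

/-- indicator of a proposition -/
noncomputable def ind (A : Prop) : ℝ := open scoped Classical in if A then 1 else 0

lemma ind_true {A : Prop} (h : A) : ind A = 1 := by classical exact if_pos h
lemma ind_false {A : Prop} (h : ¬ A) : ind A = 0 := by classical exact if_neg h
lemma ind_nonneg (A : Prop) : 0 ≤ ind A := by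
  by_cases h : A
  · rw [ind_true h]; norm_num
  · rw [ind_false h]
lemma ind_le_one (A : Prop) : ind A ≤ 1 := by
  by_cases h : A
  · rw [ind_true h]
  · rw [ind_false h]; norm_num
lemma ind_mono {A B : Prop} (h : A → B) : ind A ≤ ind B := by
  by_cases hA : A
  · rw [ind_true hA, ind_true (h hA)]
  · rw [ind_false hA]; exact ind_nonneg _

/-- the probability of an event -/
noncomputable def Pr (p : ℝ) (A : (ι → Bool) → Prop) : ℝ := Ex p (fun ω => ind (A ω))

lemma Pr_nonneg {p : ℝ} (h0 : 0 ≤ p) (h1 : p ≤ 1) (A : (ι → Bool) → Prop) : 0 ≤ Pr p A :=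
  Ex_nonneg h0 h1 fun ω => ind_nonneg _

lemma Pr_mono {p : ℝ} (h0 : 0 ≤ p) (h1 : p ≤ 1) {A B : (ι → Bool) → Prop}
    (h : ∀ ω, A ω → B ω) : Pr p A ≤ Pr p B :=
  Ex_mono h0 h1 fun ω => ind_mono (h ω)

lemma Pr_le_one {p : ℝ} (h0 : 0 ≤ p) (h1 : p ≤ 1) (A : (ι → Bool) → Prop) : Pr p A ≤ 1 := by
  refine (Ex_mono h0 h1 (fun ω => ind_le_one _)).trans ?_
  rw [Ex_const]

lemma Pr_not (p : ℝ) (A : (ι → Bool) → Prop) : Pr p (fun ω => ¬ A ω) = 1 - Pr p A := by
  have h : Pr p (fun ω => ¬ A ω) + Pr p A = 1 := by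
    unfold Pr
    rw [← Ex_add]
    have : (fun ω : ι → Bool => ind (¬ A ω) + ind (A ω)) = fun _ => 1 := by
      ext ω
      by_cases hA : A ω
      · rw [ind_true hA, ind_false (not_not_intro hA)]; norm_num
      · rw [ind_false hA, ind_true hA]; norm_num
    rw [this, Ex_const]
  linarith

/-- Markov -/
lemma Pr_le_Ex {p : ℝ} (h0 : 0 ≤ p) (h1 : p ≤ 1) {A : (ι → Bool) → Prop} {f : (ι → Bool) → ℝ}
    (hf : ∀ ω, 0 ≤ f ω) (h : ∀ ω, A ω → 1 ≤ f ω) : Pr p A ≤ Ex p f := by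
  refine Ex_mono h0 h1 fun ω => ?_
  by_cases hA : A ω
  · rw [ind_true hA]; exact h ω hA
  · rw [ind_false hA]; exact hf ω

lemma Pr_exists_le {κ : Type*} {p : ℝ} (h0 : 0 ≤ p) (h1 : p ≤ 1) (s : Finset κ)
    (A : κ → (ι → Bool) → Prop) :
    Pr p (fun ω => ∃ k ∈ s, A k ω) ≤ ∑ k ∈ s, Pr p (A k) := by
  have : Pr p (fun ω => ∃ k ∈ s, A k ω) ≤ Ex p (fun ω => ∑ k ∈ s, ind (A k ω)) := by
    refine Pr_le_Ex h0 h1 (fun ω => sum_nonneg fun k _ => ind_nonneg _) ?_
    rintro ω ⟨k, hk, hA⟩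
    refine le_trans ?_ (single_le_sum (f := fun k => ind (A k ω))
      (fun k _ => ind_nonneg _) hk)
    rw [ind_true hA]
  rw [Ex_sum] at this
  exact this

lemma Pr_or_le {p : ℝ} (h0 : 0 ≤ p) (h1 : p ≤ 1) (A B : (ι → Bool) → Prop) :
    Pr p (fun ω => A ω ∨ B ω) ≤ Pr p A + Pr p B := by
  unfold Pr
  rw [← Ex_add]
  refine Ex_mono h0 h1 fun ω => ?_
  by_cases hA : A ω
  · rw [ind_true (Or.inl hA : A ω ∨ B ω), ind_true hA]
    linarith [ind_nonneg (B ω)]
  · by_cases hB : B ω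
    · rw [ind_true (Or.inr hB : A ω ∨ B ω), ind_true hB]
      linarith [ind_nonneg (A ω)]
    · rw [ind_false (not_or.mpr ⟨hA, hB⟩)]
      linarith [ind_nonneg (A ω), ind_nonneg (B ω)]

/-- `f` depends only on the bits in `I` -/
def DepOn (I : Set ι) (f : (ι → Bool) → ℝ) : Prop :=
  ∀ ω ω', (∀ i ∈ I, ω i = ω' i) → f ω = f ω'

omit [Fintype ι] [DecidableEq ι] in
lemma DepOn.mono {I J : Set ι} (h : I ⊆ J) {f : (ι → Bool) → ℝ} (hf : DepOn I f) : DepOn J f :=
  fun ω ω' h' => hf ω ω' fun i hi => h' i (h hi)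

/-- independence -/
lemma Ex_mul_of_disjoint (p : ℝ) {I J : Set ι} (hIJ : Disjoint I J) {f g : (ι → Bool) → ℝ}
    (hf : DepOn I f) (hg : DepOn J g) : Ex p (fun ω => f ω * g ω) = Ex p f * Ex p g := by
  classical
  let mix : (ι → Bool) → (ι → Bool) → (ι → Bool) := fun ω ω' i => if i ∈ I then ω i else ω' i
  let e : ((ι → Bool) × (ι → Bool)) ≃ ((ι → Bool) × (ι → Bool)) :=
    { toFun := fun q => (mix q.1 q.2, mix q.2 q.1)
      invFun := fun q => (mix q.1 q.2, mix q.2 q.1)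
      left_inv := by
        rintro ⟨a, b⟩
        ext i <;> by_cases hi : i ∈ I <;> simp [mix, hi]
      right_inv := by
        rintro ⟨a, b⟩
        ext i <;> by_cases hi : i ∈ I <;> simp [mix, hi] }
  have hwt : ∀ a b : ι → Bool, wt p (mix a b) * wt p (mix b a) = wt p a * wt p b := by
    intro a b
    unfold wt
    rw [← prod_mul_distrib, ← prod_mul_distrib]
    refine prod_congr rfl fun i _ => ?_
    by_cases hi : i ∈ I
    · simp [mix, hi]
    · simp [mix, hi, mul_comm]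
  have h1 : Ex p f * Ex p g = ∑ q : (ι → Bool) × (ι → Bool), (wt p q.1 * f q.1) * (wt p q.2 * g q.2) := by
    unfold Ex
    rw [Fintype.sum_prod_type, sum_mul_sum]
  have h2 : Ex p (fun ω => f ω * g ω) =
      ∑ q : (ι → Bool) × (ι → Bool), (wt p q.1 * (f q.1 * g q.1)) * wt p q.2 := by
    rw [Fintype.sum_prod_type]
    simp_rw [← mul_sum, sum_wt, mul_one]
    rfl
  rw [h1, h2, ← Equiv.sum_comp e]
  refine sum_congr rfl fun q _ => ?_
  obtain ⟨a, b⟩ := q
  show (wt p (mix a b) * (f (mix a b) * g (mix a b))) * wt p (mix b a) = _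
  have hf' : f (mix a b) = f a := hf _ _ fun i hi => by simp [mix, hi]
  have hg' : g (mix a b) = g b := hg _ _ fun i hi => by
    have : i ∉ I := fun h => Set.disjoint_left.mp hIJ h hi
    simp [mix, this]
  rw [hf', hg']
  have := hwt a b
  calc wt p (mix a b) * (f a * g b) * wt p (mix b a)
      = (wt p (mix a b) * wt p (mix b a)) * (f a * g b) := by ring
    _ = _ := by rw [this]; ring

end Pool.MP_1bacea_co
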