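import Pool.Agent.Lib.MP_1bacea_co.Defs

/-!
A random subset P (Ex over V → Bool with probability κ; P = {v | ω v}) of size about κ n catching the expected part of every
neighbourhood. Exponential moments (Ex_prod, Markov): for A ⊆ V, X = |A ∩ P|, N = |A|:
E e^{-tX} = (1 - κ(1-e^{-t}))^N ≤ exp(-κN(t - t^2/2)), so Pr(X < (1-ε)κN) ≤ exp(-ε^2κN/2) (t = ε);
E e^{tX} ≤ exp(κN(t+t^2)) (t ≤ 1), so Pr(X > (1+ε)κN) ≤ exp(-ε^2κN/4) (t = ε/2).
Use the first for neighbourhoods (if |N(v)| ≥ D0 then Pr(X < (1-ε)κD0) ≤ exp(-ε^2κD0/2): take t = ε and bound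
exp(t(1-ε)κD0 - κN(t-t^2/2)) with N ≥ D0) and for V with ε = 1/2 (exp(-κn/8)); the second for V. Union bound < 1.
-/

set_option autoImplicit false

open Finset

namespace Pool.MP_1bacea_co

variable {V : Type*} [Fintype V] [DecidableEq V]

/-- exponential moment of the number of chosen elements of `A` -/
lemma ss_mgf (κ c : ℝ) (A : Finset V) :
    Ex κ (fun ω : V → Bool => Real.exp (c * ((A.filter fun v => ω v = true).card : ℝ))) =
      (κ * Real.exp c + (1 - κ)) ^ A.card := by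
  have h := Ex_prod (ι := V) κ (fun v b => if v ∈ A ∧ b = true then Real.exp c else 1)
  have e1 : (fun ω : V → Bool => Real.exp (c * ((A.filter fun v => ω v = true).card : ℝ))) =
      fun ω => ∏ v, (if v ∈ A ∧ ω v = true then Real.exp c else 1) := by
    ext ω
    rw [← prod_filter, prod_const, ← Real.exp_nat_mul]
    have : (A.filter fun v => ω v = true) = (univ.filter fun v => v ∈ A ∧ ω v = true) := by
      ext v; simp
    rw [this, mul_comm]
  rw [e1, h]
  have e2 : ∀ v : V, (κ * (if v ∈ A ∧ true = true then Real.exp c else 1) +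
      (1 - κ) * (if v ∈ A ∧ false = true then Real.exp c else 1)) =
      if v ∈ A then κ * Real.exp c + (1 - κ) else 1 := by
    intro v
    by_cases hv : v ∈ A <;> simp [hv]
  rw [prod_congr rfl fun v _ => e2 v, ← prod_filter, prod_const]
  congr 2
  ext v; simp

lemma ss_exp_neg_le {t : ℝ} (ht : 0 ≤ t) : Real.exp (-t) ≤ 1 - t + t ^ 2 / 2 := by
  -- `e^{-t} (1 + t + t^2/2) ≤ 1` and `(1 - t + t^2/2)(1 + t + t^2/2) = 1 + t^4/4`
  have h1 : 1 + t + t ^ 2 / 2 ≤ Real.exp t := Real.quadratic_le_exp_of_nonneg ht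
  have h2 : 0 < 1 + t + t ^ 2 / 2 := by positivity
  rw [Real.exp_neg]
  have h3 : (Real.exp t)⁻¹ ≤ (1 + t + t ^ 2 / 2)⁻¹ := inv_anti₀ h2 h1
  refine h3.trans ?_
  rw [inv_le_iff_one_le_mul₀ h2]
  nlinarith [sq_nonneg (t ^ 2)]

lemma ss_exp_le {t : ℝ} (ht : 0 ≤ t) (ht1 : t ≤ 1) : Real.exp t ≤ 1 + t + t ^ 2 := by
  have h := Real.abs_exp_sub_one_sub_id_le (x := t) (by rw [abs_of_nonneg ht]; exact ht1)
  have := (abs_le.mp h).2
  linarith

/-- lower tail -/
lemma ss_lower {κ ε D : ℝ} (hκ0 : 0 < κ) (hκ1 : κ ≤ 1) (hε0 : 0 < ε) (hε1 : ε ≤ 1)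
    (A : Finset V) (hD : D ≤ A.card) :
    Pr κ (fun ω : V → Bool => ((A.filter fun v => ω v = true).card : ℝ) < (1 - ε) * (κ * D)) ≤
      Real.exp (-(ε ^ 2 * κ * D / 2)) := by
  have h1 : Pr κ (fun ω : V → Bool =>
      ((A.filter fun v => ω v = true).card : ℝ) < (1 - ε) * (κ * D)) ≤
      Ex κ (fun ω : V → Bool => Real.exp (ε * ((1 - ε) * (κ * D))) *
        Real.exp (-ε * ((A.filter fun v => ω v = true).card : ℝ))) := by
    apply Pr_le_Ex hκ0.le hκ1
    · intro ω; positivity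
    · intro ω hω
      rw [← Real.exp_add]
      apply Real.one_le_exp
      nlinarith
  rw [Ex_mul_left, ss_mgf] at h1
  refine h1.trans ?_
  have h2 : κ * Real.exp (-ε) + (1 - κ) ≤ Real.exp (-(κ * (ε - ε ^ 2 / 2))) := by
    have h3 := ss_exp_neg_le hε0.le
    have h4 := Real.add_one_le_exp (-(κ * (ε - ε ^ 2 / 2)))
    nlinarith
  have h0 : 0 ≤ κ * Real.exp (-ε) + (1 - κ) := by
    have := Real.exp_pos (-ε)
    nlinarith
  calc Real.exp (ε * ((1 - ε) * (κ * D))) * (κ * Real.exp (-ε) + (1 - κ)) ^ A.card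
      ≤ Real.exp (ε * ((1 - ε) * (κ * D))) * (Real.exp (-(κ * (ε - ε ^ 2 / 2)))) ^ A.card := by
        gcongr
    _ = Real.exp (ε * ((1 - ε) * (κ * D)) + A.card * (-(κ * (ε - ε ^ 2 / 2)))) := by
        rw [← Real.exp_nat_mul, ← Real.exp_add]
    _ ≤ Real.exp (-(ε ^ 2 * κ * D / 2)) := by
        apply Real.exp_le_exp.mpr
        have h5 : 0 ≤ κ * (ε - ε ^ 2 / 2) := by
          apply mul_nonneg hκ0.le
          nlinarith
        nlinarith

/-- upper tail -/
lemma ss_upper {κ ε : ℝ} (hκ0 : 0 < κ) (hκ1 : κ ≤ 1) (hε0 : 0 < ε) (hε1 : ε ≤ 1)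
    (A : Finset V) :
    Pr κ (fun ω : V → Bool => (1 + ε) * (κ * A.card) <
      ((A.filter fun v => ω v = true).card : ℝ)) ≤
      Real.exp (-(ε ^ 2 * κ * A.card / 4)) := by
  have h1 : Pr κ (fun ω : V → Bool => (1 + ε) * (κ * A.card) <
      ((A.filter fun v => ω v = true).card : ℝ)) ≤
      Ex κ (fun ω : V → Bool => Real.exp (-(ε / 2 * ((1 + ε) * (κ * A.card)))) *
        Real.exp (ε / 2 * ((A.filter fun v => ω v = true).card : ℝ))) := by
    apply Pr_le_Ex hκ0.le hκ1
    · intro ω; positivity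
    · intro ω hω
      rw [← Real.exp_add]
      apply Real.one_le_exp
      nlinarith
  rw [Ex_mul_left, ss_mgf] at h1
  refine h1.trans ?_
  have h2 : κ * Real.exp (ε / 2) + (1 - κ) ≤ Real.exp (κ * (ε / 2 + (ε / 2) ^ 2)) := by
    have h3 := ss_exp_le (t := ε / 2) (by linarith) (by linarith)
    have h4 := Real.add_one_le_exp (κ * (ε / 2 + (ε / 2) ^ 2))
    nlinarith
  have h0 : 0 ≤ κ * Real.exp (ε / 2) + (1 - κ) := by
    have := Real.exp_pos (ε / 2)
    nlinarith
  calc Real.exp (-(ε / 2 * ((1 + ε) * (κ * A.card)))) *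
        (κ * Real.exp (ε / 2) + (1 - κ)) ^ A.card
      ≤ Real.exp (-(ε / 2 * ((1 + ε) * (κ * A.card)))) *
        (Real.exp (κ * (ε / 2 + (ε / 2) ^ 2))) ^ A.card := by
        gcongr
    _ = Real.exp (-(ε / 2 * ((1 + ε) * (κ * A.card))) +
        A.card * (κ * (ε / 2 + (ε / 2) ^ 2))) := by
        rw [← Real.exp_nat_mul, ← Real.exp_add]
    _ = Real.exp (-(ε ^ 2 * κ * A.card / 4)) := by
        congr 1
        ring

theorem exists_small_subset (G : SimpleGraph V) {κ ε D0 : ℝ} (hκ0 : 0 < κ) (hκ1 : κ ≤ 1)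
    (hε0 : 0 < ε) (hε1 : ε ≤ 1) (hD0 : 0 ≤ D0) (hdeg : ∀ v, D0 ≤ dg G v univ)
    (hn : Fintype.card V * Real.exp (-(ε ^ 2 * κ * D0 / 2)) +
      Real.exp (-(ε ^ 2 * κ * Fintype.card V / 4)) + Real.exp (-(κ * Fintype.card V / 8)) < 1) :
    ∃ P : Finset V, (P.card : ℝ) ≤ (1 + ε) * (κ * Fintype.card V) ∧
      κ * Fintype.card V / 2 ≤ P.card ∧ ∀ v, (1 - ε) * (κ * D0) ≤ dg G v P := by
  classical
  by_contra hcon
  push Not at hcon
  let A : V → Finset V := fun v => univ.filter fun u => G.Adj v u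
  have hA : ∀ v, ((A v).card : ℝ) = dg G v univ := by
    intro v
    unfold dg
    simp only [A]
  have hAP : ∀ v (ω : V → Bool), dg G v (univ.filter fun v => ω v = true) =
      ((A v).filter fun u => ω u = true).card := by
    intro v ω
    unfold dg
    congr 1
    ext u
    simp [A, and_comm]
  have h1 : (1 : ℝ) ≤ Pr κ (fun ω : V → Bool => (∃ v ∈ (univ : Finset V),
      (((A v).filter fun u => ω u = true).card : ℝ) < (1 - ε) * (κ * D0)) ∨
      ((1 + ε) * (κ * (univ : Finset V).card) <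
        (((univ : Finset V).filter fun v => ω v = true).card : ℝ) ∨
      (((univ : Finset V).filter fun v => ω v = true).card : ℝ) <
        (1 - 1 / 2) * (κ * (univ : Finset V).card))) := by
    have h0 := Ex_const (ι := V) κ 1
    unfold Pr
    refine h0.symm.le.trans ?_
    apply Ex_mono hκ0.le hκ1
    intro ω
    rw [ind_true]
    by_cases hc1 : (((univ : Finset V).filter fun v => ω v = true).card : ℝ) ≤
        (1 + ε) * (κ * Fintype.card V)
    · by_cases hc2 : κ * Fintype.card V / 2 ≤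
          (((univ : Finset V).filter fun v => ω v = true).card : ℝ)
      · obtain ⟨v, hv⟩ := hcon _ hc1 hc2
        left
        refine ⟨v, mem_univ v, ?_⟩
        rw [← hAP v ω]
        exact hv
      · right; right
        rw [card_univ]
        push Not at hc2
        linarith
    · right; left
      rw [card_univ]
      exact not_le.mp hc1
  have h2 := Pr_or_le hκ0.le hκ1 (fun ω : V → Bool => ∃ v ∈ (univ : Finset V),
      (((A v).filter fun u => ω u = true).card : ℝ) < (1 - ε) * (κ * D0))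
    (fun ω => ((1 + ε) * (κ * (univ : Finset V).card) <
        (((univ : Finset V).filter fun v => ω v = true).card : ℝ) ∨
      (((univ : Finset V).filter fun v => ω v = true).card : ℝ) <
        (1 - 1 / 2) * (κ * (univ : Finset V).card)))
  have h3 := Pr_or_le hκ0.le hκ1 (fun ω : V → Bool => (1 + ε) * (κ * (univ : Finset V).card) <
        (((univ : Finset V).filter fun v => ω v = true).card : ℝ))
    (fun ω => (((univ : Finset V).filter fun v => ω v = true).card : ℝ) <
        (1 - 1 / 2) * (κ * (univ : Finset V).card))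
  have h4 := Pr_exists_le hκ0.le hκ1 (univ : Finset V) (fun v (ω : V → Bool) =>
      (((A v).filter fun u => ω u = true).card : ℝ) < (1 - ε) * (κ * D0))
  have h5 : ∑ v ∈ (univ : Finset V), Pr κ (fun ω : V → Bool =>
      (((A v).filter fun u => ω u = true).card : ℝ) < (1 - ε) * (κ * D0)) ≤
      ∑ v ∈ (univ : Finset V), Real.exp (-(ε ^ 2 * κ * D0 / 2)) := by
    apply sum_le_sum
    intro v _
    exact ss_lower hκ0 hκ1 hε0 hε1 (A v) (by rw [hA v]; exact hdeg v)
  rw [sum_const, card_univ, nsmul_eq_mul] at h5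
  have h6 := ss_upper hκ0 hκ1 hε0 hε1 (univ : Finset V)
  have h7 := ss_lower hκ0 hκ1 (ε := 1 / 2) (by norm_num) (by norm_num) (univ : Finset V)
    (D := ((univ : Finset V).card : ℝ)) le_rfl
  have h8 : Real.exp (-((1 / 2 : ℝ) ^ 2 * κ * ((univ : Finset V).card : ℝ) / 2)) =
      Real.exp (-(κ * Fintype.card V / 8)) := by
    rw [card_univ]
    congr 1
    ring
  rw [h8] at h7
  have h9 : Real.exp (-(ε ^ 2 * κ * ((univ : Finset V).card : ℝ) / 4)) =
      Real.exp (-(ε ^ 2 * κ * Fintype.card V / 4)) := by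
    rw [card_univ]
  rw [h9] at h6
  linarith

end Pool.MP_1bacea_co
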