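import Pool.Agent.Lib.MP_1bacea_co.Container

/-!
Union bound for property D. n = card V, s = n p.
Fix P, R ⊆ P with |R| ≥ ρ n, and G₀ inside P satisfying the density hypothesis. If ¬ PropD is
witnessed by (P,R,G₀,I) then all edges of G₀ are present (event E1, depends on the bits inside P,
probability p^{e(G₀)}) and ∑_{w ∉ P} |I w| ≥ d s |R| where I w ⊆ N(w) ∩ R is Conf-free (event F, depends
only on the bits s(w,z), w ∉ P, z ∈ R). Independent (Ex_mul_of_disjoint). Apply `container` with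
conf = Conf G₀ r (symmetric: reverse the path), β = e^{-lam}: C : Finset V → Finset V. For w ∉ P put
Y_w = ∑_{T ⊆ R, |T| ≤ τ} [T ⊆ N(w)] e^{lam |T|} e^{lam |N(w) ∩ C T|} ≥ e^{lam |I w|}. Then
F ⇒ ∏_{w ∉ P} Y_w ≥ exp(lam d s |R|) ≥ exp(5 s n) (lam d ρ = 5). The Y_w, w ∉ P, depend on disjoint sets of bits
so E ∏ Y_w = ∏ E Y_w, and E Y_w = ∑_T (p e^lam)^{|T|} (1+p(e^lam-1))^{|C T|} ≤
(∑_{t ≤ τ} C(n,t)(p e^lam)^t) exp(p e^lam e^{-lam} n) ≤ e^{2s}. So Pr F ≤ exp(-5sn+2sn).
Sum over G₀: ∑ p^{e(G₀)} ≤ (1+p)^{n(n+1)/2} ≤ e^{sn}; over P,R: 4^n ≤ e^{0.7 s n} (s ≥ 2). Total ≤ e^{-1.3 s n}.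
-/

set_option autoImplicit false

open Finset

namespace Pool.MP_1bacea_co

variable {V : Type*} [Fintype V] [DecidableEq V]

section general

variable {ι : Type*} [Fintype ι] [DecidableEq ι]

lemma ud_Ex_single (p : ℝ) (i : ι) (u : Bool → ℝ) :
    Ex p (fun ω : ι → Bool => u (ω i)) = p * u true + (1 - p) * u false := by
  have key := Ex_prod (ι := ι) p (fun j b => if j = i then u b else 1)
  have h1 : (fun ω : ι → Bool => ∏ j, (if j = i then u (ω j) else 1)) = fun ω => u (ω i) := by
    funext ω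
    rw [Finset.prod_ite_eq' univ i (fun j => u (ω j))]
    simp
  rw [h1] at key
  rw [key, Finset.prod_eq_single i]
  · simp
  · intro j _ hj
    simp [hj]
  · intro h
    exact absurd (mem_univ i) h

lemma ud_Ex_prod_indep {κ : Type*} [DecidableEq κ] (p : ℝ) (J : κ → Set ι)
    (f : κ → (ι → Bool) → ℝ) (W : Finset κ)
    (hJ : ∀ a ∈ W, ∀ b ∈ W, a ≠ b → Disjoint (J a) (J b))
    (hf : ∀ a ∈ W, DepOn (J a) (f a)) :
    Ex p (fun ω => ∏ a ∈ W, f a ω) = ∏ a ∈ W, Ex p (f a) := by
  induction W using Finset.induction_on with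
  | empty => simp [Ex_const]
  | insert a W ha ih =>
    rw [Finset.prod_insert ha, ← ih
      (fun x hx y hy => hJ x (mem_insert_of_mem hx) y (mem_insert_of_mem hy))
      (fun x hx => hf x (mem_insert_of_mem hx))]
    have h1 : (fun ω => ∏ x ∈ insert a W, f x ω) = fun ω => f a ω * ∏ x ∈ W, f x ω := by
      funext ω
      rw [Finset.prod_insert ha]
    rw [h1]
    refine Ex_mul_of_disjoint p (I := J a) (J := ⋃ x ∈ W, J x) ?_ (hf a (mem_insert_self _ _)) ?_
    · rw [Set.disjoint_iUnion₂_right]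
      intro x hx
      exact hJ a (mem_insert_self _ _) x (mem_insert_of_mem hx) (fun h => ha (h ▸ hx))
    · intro ω ω' h
      refine Finset.prod_congr rfl fun x hx => ?_
      refine hf x (mem_insert_of_mem hx) ω ω' fun i hi => h i ?_
      exact Set.mem_iUnion₂.mpr ⟨x, hx, hi⟩

lemma ud_Ex_prod_bits {κ : Type*} [DecidableEq κ] (p : ℝ) (φ : κ → ι) (D : Finset κ)
    (hφ : ∀ a ∈ D, ∀ b ∈ D, φ a = φ b → a = b) (u : κ → Bool → ℝ) :
    Ex p (fun ω : ι → Bool => ∏ z ∈ D, u z (ω (φ z))) =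
      ∏ z ∈ D, (p * u z true + (1 - p) * u z false) := by
  rw [ud_Ex_prod_indep p (fun z => {φ z}) (fun z ω => u z (ω (φ z))) D]
  · exact Finset.prod_congr rfl fun z _ => ud_Ex_single p (φ z) (u z)
  · intro a ha b hb hab
    rw [Set.disjoint_singleton]
    exact fun h => hab (hφ a ha b hb h)
  · intro a _ ω ω' h
    show u a (ω (φ a)) = u a (ω' (φ a))
    rw [h (φ a) (Set.mem_singleton _)]

lemma ud_Ex_all (p : ℝ) (E : Finset ι) :
    Ex p (fun ω : ι → Bool => ind (∀ e ∈ E, ω e = true)) = p ^ E.card := by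
  have key := ud_Ex_prod_bits p id E (fun a _ b _ h => h)
    (fun (_ : ι) (b : Bool) => if b then (1 : ℝ) else 0)
  have h1 : (fun ω : ι → Bool => ind (∀ e ∈ E, ω e = true)) =
      fun ω => ∏ e ∈ E, (fun (_ : ι) (b : Bool) => if b then (1 : ℝ) else 0) e (ω (id e)) := by
    funext ω
    by_cases h : ∀ e ∈ E, ω e = true
    · rw [ind_true h, Finset.prod_eq_one]
      intro e he
      simp [h e he]
    · rw [ind_false h]
      push Not at h
      obtain ⟨e, he, hne⟩ := h
      rw [Finset.prod_eq_zero he]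
      simp [hne]
  rw [h1]
  refine key.trans ?_
  simp

end general

/-- the weight of one vertex `z` in the exponential moment -/
noncomputable def udU (lam : ℝ) (T : Finset V) (z : V) (b : Bool) : ℝ :=
  if z ∈ T then (if b then Real.exp lam else 0) else (if b then Real.exp lam else 1)

lemma udU_nonneg (lam : ℝ) (T : Finset V) (z : V) (b : Bool) : 0 ≤ udU lam T z b := by
  unfold udU
  have := Real.exp_pos lam
  split_ifs <;> linarith

/-- the exponential moment majorant -/
noncomputable def udY (lam : ℝ) (τ : ℕ) (R : Finset V) (C : Finset V → Finset V) (w : V)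
    (ω : Sym2 V → Bool) : ℝ :=
  ∑ T ∈ R.powerset.filter (fun T => T.card ≤ τ), ∏ z ∈ T ∪ C T, udU lam T z (ω s(w, z))

lemma udY_nonneg (lam : ℝ) (τ : ℕ) (R : Finset V) (C : Finset V → Finset V) (w : V)
    (ω : Sym2 V → Bool) : 0 ≤ udY lam τ R C w ω :=
  sum_nonneg fun _ _ => prod_nonneg fun _ _ => udU_nonneg _ _ _ _

lemma udY_dep (lam : ℝ) (τ : ℕ) (R : Finset V) (C : Finset V → Finset V)
    (hC : ∀ T, C T ⊆ R) (w : V) :
    DepOn {e : Sym2 V | ∃ z ∈ R, e = s(w, z)} (udY lam τ R C w) := by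
  intro ω ω' h
  unfold udY
  refine sum_congr rfl fun T hT => prod_congr rfl fun z hz => ?_
  have hz' : z ∈ R := by
    rcases mem_union.mp hz with h1 | h1
    · exact mem_powerset.mp (mem_filter.mp hT).1 h1
    · exact hC T h1
  rw [h s(w, z) ⟨z, hz', rfl⟩]

lemma udY_lower {lam : ℝ} (hlam : 0 ≤ lam) (τ : ℕ) (R : Finset V) (C : Finset V → Finset V)
    (w : V) (ω : Sym2 V → Bool) (I T : Finset V) (hI : I ⊆ R) (hT : T ⊆ I) (hTc : T.card ≤ τ)
    (hIT : I ⊆ T ∪ C T) (hω : ∀ z ∈ I, ω s(w, z) = true) :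
    Real.exp (lam * I.card) ≤ udY lam τ R C w ω := by
  unfold udY
  have hmem : T ∈ R.powerset.filter (fun T => T.card ≤ τ) :=
    mem_filter.mpr ⟨mem_powerset.mpr (hT.trans hI), hTc⟩
  refine le_trans ?_ (single_le_sum (f := fun T => ∏ z ∈ T ∪ C T, udU lam T z (ω s(w, z)))
    (fun _ _ => prod_nonneg fun _ _ => udU_nonneg _ _ _ _) hmem)
  have h1 : Real.exp (lam * I.card) =
      ∏ z ∈ T ∪ C T, (if z ∈ I then Real.exp lam else 1) := by
    rw [Finset.prod_ite_mem, Finset.inter_eq_right.mpr hIT, prod_const, ← Real.exp_nat_mul,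
      mul_comm]
  rw [h1]
  refine prod_le_prod (fun z _ => ?_) (fun z _ => ?_)
  · split_ifs
    · exact (Real.exp_pos _).le
    · norm_num
  · by_cases hz : z ∈ I
    · rw [if_pos hz, hω z hz]
      unfold udU
      simp
    · rw [if_neg hz]
      unfold udU
      rw [if_neg (fun h => hz (hT h))]
      split_ifs
      · exact Real.one_le_exp hlam
      · exact le_refl _

lemma udY_Ex {p : ℝ} (h0 : 0 ≤ p) {lam : ℝ} (hlam : 0 ≤ lam) (τ : ℕ)
    (R : Finset V) (C : Finset V → Finset V)
    (hC : ∀ T, C T ⊆ R ∧ Disjoint T (C T) ∧ ((C T).card : ℝ) ≤ Real.exp (-lam) * R.card)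
    (hsum : ∑ t ∈ range (τ + 1), ((Fintype.card V).choose t : ℝ) * (p * Real.exp lam) ^ t ≤
      Real.exp (Fintype.card V * p)) (w : V) :
    Ex p (udY lam τ R C w) ≤ Real.exp (2 * (Fintype.card V * p)) := by
  have hE1 : 1 ≤ Real.exp lam := Real.one_le_exp hlam
  have h1 : Ex p (udY lam τ R C w) = ∑ T ∈ R.powerset.filter (fun T => T.card ≤ τ),
      (p * Real.exp lam) ^ T.card * (p * Real.exp lam + (1 - p)) ^ (C T).card := by
    unfold udY
    rw [Ex_sum]
    refine sum_congr rfl fun T _ => ?_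
    rw [ud_Ex_prod_bits p (fun z => s(w, z)) (T ∪ C T) ?_ (udU lam T)]
    · rw [prod_union (hC T).2.1]
      congr 1
      · rw [← prod_const]
        refine prod_congr rfl fun z hz => ?_
        simp [udU, hz]
      · rw [← prod_const]
        refine prod_congr rfl fun z hz => ?_
        have hz' : z ∉ T := fun h => Finset.disjoint_left.mp (hC T).2.1 h hz
        simp [udU, hz']
    · intro a _ b _ hab
      exact Sym2.congr_right.mp hab
  rw [h1]
  have h2 : ∀ T : Finset V, (p * Real.exp lam + (1 - p)) ^ (C T).card ≤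
      Real.exp (Fintype.card V * p) := by
    intro T
    have hb : (0 : ℝ) ≤ p * Real.exp lam + (1 - p) := by nlinarith
    have hb1 : p * Real.exp lam + (1 - p) ≤ Real.exp (p * Real.exp lam) := by
      have := Real.add_one_le_exp (p * Real.exp lam)
      linarith
    calc (p * Real.exp lam + (1 - p)) ^ (C T).card
        ≤ (Real.exp (p * Real.exp lam)) ^ (C T).card := pow_le_pow_left₀ hb hb1 _
      _ = Real.exp ((C T).card * (p * Real.exp lam)) := (Real.exp_nat_mul _ _).symm
      _ ≤ Real.exp (Fintype.card V * p) := by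
          refine Real.exp_le_exp.mpr ?_
          have h3 : ((C T).card : ℝ) ≤ Real.exp (-lam) * R.card := (hC T).2.2
          have h4 : (R.card : ℝ) ≤ Fintype.card V := by exact_mod_cast card_le_univ R
          have h5 : Real.exp (-lam) * Real.exp lam = 1 := by
            rw [← Real.exp_add]; simp
          have h6 : ((C T).card : ℝ) ≤ Real.exp (-lam) * Fintype.card V :=
            h3.trans (mul_le_mul_of_nonneg_left h4 (Real.exp_pos _).le)
          have h7 : (0 : ℝ) ≤ p * Real.exp lam := mul_nonneg h0 (Real.exp_pos _).le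
          calc ((C T).card : ℝ) * (p * Real.exp lam)
              ≤ (Real.exp (-lam) * Fintype.card V) * (p * Real.exp lam) :=
                mul_le_mul_of_nonneg_right h6 h7
            _ = (Real.exp (-lam) * Real.exp lam) * (Fintype.card V * p) := by ring
            _ = Fintype.card V * p := by rw [h5, one_mul]
  have h3 : ∑ T ∈ R.powerset.filter (fun T => T.card ≤ τ),
      (p * Real.exp lam) ^ T.card * (p * Real.exp lam + (1 - p)) ^ (C T).card ≤
      (∑ T ∈ R.powerset.filter (fun T => T.card ≤ τ), (p * Real.exp lam) ^ T.card) *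
        Real.exp (Fintype.card V * p) := by
    rw [sum_mul]
    refine sum_le_sum fun T _ => mul_le_mul_of_nonneg_left (h2 T) ?_
    exact pow_nonneg (mul_nonneg h0 (Real.exp_pos _).le) _
  have h4 : ∑ T ∈ R.powerset.filter (fun T => T.card ≤ τ), (p * Real.exp lam) ^ T.card ≤
      Real.exp (Fintype.card V * p) := by
    refine le_trans ?_ hsum
    have hx : (0 : ℝ) ≤ p * Real.exp lam := mul_nonneg h0 (Real.exp_pos _).le
    calc ∑ T ∈ R.powerset.filter (fun T => T.card ≤ τ), (p * Real.exp lam) ^ T.card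
        ≤ ∑ T ∈ (univ : Finset (Finset V)).filter (fun T => T.card ∈ range (τ + 1)),
            (p * Real.exp lam) ^ T.card := by
          refine sum_le_sum_of_subset_of_nonneg ?_ (fun T _ _ => pow_nonneg hx _)
          intro T hT
          rw [mem_filter] at hT ⊢
          exact ⟨mem_univ _, mem_range.mpr (Nat.lt_succ_of_le hT.2)⟩
      _ = ∑ t ∈ range (τ + 1), ∑ T ∈ (univ : Finset (Finset V)).filter (fun T => T.card = t),
            (p * Real.exp lam) ^ T.card := by
          rw [← Finset.sum_fiberwise_of_maps_to (s := (univ : Finset (Finset V)).filter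
            (fun T => T.card ∈ range (τ + 1))) (t := range (τ + 1)) (g := fun T => T.card)
            (fun T hT => (mem_filter.mp hT).2)]
          refine sum_congr rfl fun t ht => ?_
          refine sum_congr ?_ fun _ _ => rfl
          ext T
          simp only [mem_filter, mem_univ, true_and]
          exact ⟨fun h => h.2, fun h => ⟨h ▸ ht, h⟩⟩
      _ = ∑ t ∈ range (τ + 1), ((Fintype.card V).choose t : ℝ) * (p * Real.exp lam) ^ t := by
          refine sum_congr rfl fun t _ => ?_
          rw [sum_congr rfl (g := fun _ => (p * Real.exp lam) ^ t)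
            (fun T hT => by rw [(mem_filter.mp hT).2]), sum_const, nsmul_eq_mul]
          congr 2
          have : (univ : Finset (Finset V)).filter (fun T => T.card = t) =
              powersetCard t univ := by
            ext T
            simp [mem_powersetCard]
          rw [this, card_powersetCard, card_univ]
  calc _ ≤ _ := h3
    _ ≤ Real.exp (Fintype.card V * p) * Real.exp (Fintype.card V * p) :=
        mul_le_mul_of_nonneg_right h4 (Real.exp_pos _).le
    _ = Real.exp (2 * (Fintype.card V * p)) := by rw [← Real.exp_add]; congr 1; ring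

lemma ud_conf_symm (G : SimpleGraph V) (r : ℕ) (a b : V) (h : Conf G r a b) : Conf G r b a := by
  obtain ⟨x, hx, hadj, h0, hl⟩ := h
  refine ⟨fun i => x (Fin.rev i), fun i j hij => ?_, fun i => ?_, ?_, ?_⟩
  · exact Fin.rev_injective (hx hij)
  · have := hadj (Fin.rev i)
    show G.Adj (x (Fin.rev i.castSucc)) (x (Fin.rev i.succ))
    rw [Fin.rev_castSucc, Fin.rev_succ]
    exact this.symm
  · show x (Fin.rev 0) = b
    rw [Fin.rev_zero]; exact hl
  · show x (Fin.rev (Fin.last _)) = a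
    rw [Fin.rev_last]; exact h0

/-- the part of the conditions that does not depend on the random bits -/
def udGood (r : ℕ) (γ β ρ : ℝ) (P R : Finset V) (E : Finset (Sym2 V)) : Prop :=
  (∀ e ∈ E, ∀ v ∈ e, v ∈ P) ∧ R ⊆ P ∧ ρ * Fintype.card V ≤ R.card ∧
    (∀ S ⊆ R, β * R.card ≤ S.card →
      γ * (S.card : ℝ) ^ 2 ≤ npairs (Conf (SimpleGraph.fromEdgeSet (E : Set (Sym2 V))) r) S)

/-- the random part -/
def udEv (r : ℕ) (t : ℝ) (P R : Finset V) (E : Finset (Sym2 V)) (ω : Sym2 V → Bool) : Prop :=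
  ∃ I : V → Finset V, (∀ w, I w ⊆ R ∧ (∀ z ∈ I w, ω s(w, z) = true) ∧
      ∀ z ∈ I w, ∀ z' ∈ I w, ¬ Conf (SimpleGraph.fromEdgeSet (E : Set (Sym2 V))) r z z') ∧
      t * R.card ≤ ∑ w ∈ univ \ P, ((I w).card : ℝ)

lemma ud_single (r : ℕ) {p : ℝ} (h0 : 0 ≤ p) (h1 : p ≤ 1) {d ρ lam γ : ℝ} (hd : 0 < d)
    (hρ : 0 < ρ) (hγ : 0 < γ) (hlam : lam = 5 / (d * ρ))
    (τ : ℕ) (hτ : lam / γ + 1 ≤ τ)
    (hsum : ∑ t ∈ range (τ + 1), ((Fintype.card V).choose t : ℝ) * (p * Real.exp lam) ^ t ≤
      Real.exp (Fintype.card V * p)) (P R : Finset V) (E : Finset (Sym2 V)) :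
    Pr p (fun ω : Sym2 V → Bool => udGood r γ (Real.exp (-lam)) ρ P R E ∧
      (∀ e ∈ E, ω e = true) ∧ udEv r (d * (Fintype.card V * p)) P R E ω) ≤
      p ^ E.card * Real.exp (-3 * (Fintype.card V * p * Fintype.card V)) := by
  set n : ℝ := (Fintype.card V : ℝ) with hn
  have hn0 : 0 ≤ n := by rw [hn]; exact Nat.cast_nonneg _
  have hlam0 : 0 < lam := by rw [hlam]; positivity
  by_cases hG : udGood r γ (Real.exp (-lam)) ρ P R E
  swap
  · have : Pr p (fun ω : Sym2 V → Bool => udGood r γ (Real.exp (-lam)) ρ P R E ∧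
        (∀ e ∈ E, ω e = true) ∧ udEv r (d * (n * p)) P R E ω) = 0 := by
      unfold Pr
      rw [show (fun ω : Sym2 V → Bool => ind (udGood r γ (Real.exp (-lam)) ρ P R E ∧
        (∀ e ∈ E, ω e = true) ∧ udEv r (d * (n * p)) P R E ω)) = fun _ => 0 from
        funext fun ω => ind_false fun h => hG h.1]
      exact Ex_const p 0
    rw [this]
    exact mul_nonneg (pow_nonneg h0 _) (Real.exp_pos _).le
  obtain ⟨hE, hRP, hR, hdens⟩ := hG
  obtain ⟨C, hC, hcont⟩ := container R (Conf (SimpleGraph.fromEdgeSet (E : Set (Sym2 V))) r)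
    (ud_conf_symm _ r) (Real.exp_pos (-lam)) (Real.exp_le_one_iff.mpr (by linarith)) hγ hdens
  -- the pointwise bound
  have hpt : ∀ ω : Sym2 V → Bool, ind (udGood r γ (Real.exp (-lam)) ρ P R E ∧
      (∀ e ∈ E, ω e = true) ∧ udEv r (d * (n * p)) P R E ω) ≤
      Real.exp (-5 * (n * p * n)) *
        (ind (∀ e ∈ E, ω e = true) * ∏ w ∈ univ \ P, udY lam τ R C w ω) := by
    intro ω
    have hYn : 0 ≤ ∏ w ∈ univ \ P, udY lam τ R C w ω := prod_nonneg fun _ _ => udY_nonneg _ _ _ _ _ _
    by_cases hA : udGood r γ (Real.exp (-lam)) ρ P R E ∧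
      (∀ e ∈ E, ω e = true) ∧ udEv r (d * (n * p)) P R E ω
    swap
    · rw [ind_false hA]
      exact mul_nonneg (Real.exp_pos _).le (mul_nonneg (ind_nonneg _) hYn)
    rw [ind_true hA, ind_true hA.2.1, one_mul]
    obtain ⟨I, hI, hIs⟩ := hA.2.2
    have hY : ∀ w, Real.exp (lam * (I w).card) ≤ udY lam τ R C w ω := by
      intro w
      obtain ⟨T, hT, hTc, hTI⟩ := hcont (I w) (hI w).1 (hI w).2.2
      refine udY_lower hlam0.le τ R C w ω (I w) T (hI w).1 hT ?_ hTI (hI w).2.1
      have : Real.log (1 / Real.exp (-lam)) = lam := by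
        rw [one_div, ← Real.exp_neg, neg_neg, Real.log_exp]
      rw [this] at hTc
      exact_mod_cast hTc.trans hτ
    have hprod : Real.exp (lam * ∑ w ∈ univ \ P, ((I w).card : ℝ)) ≤
        ∏ w ∈ univ \ P, udY lam τ R C w ω := by
      rw [mul_sum, Real.exp_sum]
      exact prod_le_prod (fun _ _ => (Real.exp_pos _).le) (fun w _ => hY w)
    have hbig : 5 * (n * p * n) ≤ lam * ∑ w ∈ univ \ P, ((I w).card : ℝ) := by
      have e1 : lam * (d * (n * p) * (ρ * n)) = 5 * (n * p * n) := by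
        rw [hlam]
        field_simp
      rw [← e1]
      refine mul_le_mul_of_nonneg_left ?_ hlam0.le
      refine le_trans ?_ hIs
      refine mul_le_mul_of_nonneg_left hR ?_
      exact mul_nonneg hd.le (mul_nonneg hn0 h0)
    calc (1 : ℝ) = Real.exp (-5 * (n * p * n)) * Real.exp (5 * (n * p * n)) := by
          rw [← Real.exp_add]; simp
      _ ≤ Real.exp (-5 * (n * p * n)) * ∏ w ∈ univ \ P, udY lam τ R C w ω := by
          refine mul_le_mul_of_nonneg_left ?_ (Real.exp_pos _).le
          exact (Real.exp_le_exp.mpr hbig).trans hprod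
  have hEx : Ex p (fun ω : Sym2 V → Bool => ind (∀ e ∈ E, ω e = true) *
      ∏ w ∈ univ \ P, udY lam τ R C w ω) ≤ p ^ E.card * Real.exp (2 * (n * p * n)) := by
    rw [Ex_mul_of_disjoint p (I := {e : Sym2 V | ∀ v ∈ e, v ∈ P})
      (J := {e : Sym2 V | ∃ v ∈ e, v ∉ P})]
    · rw [ud_Ex_all]
      refine mul_le_mul_of_nonneg_left ?_ (pow_nonneg h0 _)
      rw [ud_Ex_prod_indep p (fun w => {e : Sym2 V | ∃ z ∈ R, e = s(w, z)})
        (fun w => udY lam τ R C w) (univ \ P)]
      · calc ∏ w ∈ univ \ P, Ex p (udY lam τ R C w)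
            ≤ ∏ _w ∈ univ \ P, Real.exp (2 * (n * p)) := by
              refine prod_le_prod (fun w _ => Ex_nonneg h0 h1 fun _ => udY_nonneg _ _ _ _ _ _)
                (fun w _ => udY_Ex h0 hlam0.le τ R C hC hsum w)
          _ = Real.exp (((univ \ P).card : ℝ) * (2 * (n * p))) := by
              rw [prod_const, ← Real.exp_nat_mul]
          _ ≤ Real.exp (2 * (n * p * n)) := by
              refine Real.exp_le_exp.mpr ?_
              have hc : (((univ \ P).card : ℕ) : ℝ) ≤ n := by
                rw [hn]; exact_mod_cast card_le_univ _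
              have : 0 ≤ 2 * (n * p) := by positivity
              nlinarith
      · intro a ha b hb hab
        rw [Set.disjoint_left]
        rintro e ⟨z, hz, rfl⟩ ⟨z', hz', he⟩
        have ha' : a ∉ P := (mem_sdiff.mp ha).2
        have hb' : b ∉ P := (mem_sdiff.mp hb).2
        rcases Sym2.eq_iff.mp he with ⟨h, _⟩ | ⟨h, _⟩
        · exact hab h
        · exact ha' (h ▸ hRP hz')
      · intro a _
        exact udY_dep lam τ R C (fun T => (hC T).1) a
    · rw [Set.disjoint_left]
      rintro e he ⟨v, hv, hvP⟩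
      exact hvP (he v hv)
    · intro ω ω' h
      have : (∀ e ∈ E, ω e = true) ↔ (∀ e ∈ E, ω' e = true) := by
        constructor
        · intro h' e he
          rw [← h e (hE e he)]; exact h' e he
        · intro h' e he
          rw [h e (hE e he)]; exact h' e he
      simp only [this]
    · intro ω ω' h
      refine prod_congr rfl fun w hw => ?_
      refine udY_dep lam τ R C (fun T => (hC T).1) w ω ω' ?_
      rintro e ⟨z, hz, rfl⟩
      exact h _ ⟨w, Sym2.mem_mk_left w z, (mem_sdiff.mp hw).2⟩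
  calc Pr p (fun ω : Sym2 V → Bool => udGood r γ (Real.exp (-lam)) ρ P R E ∧
      (∀ e ∈ E, ω e = true) ∧ udEv r (d * (n * p)) P R E ω)
      ≤ Ex p (fun ω : Sym2 V → Bool => Real.exp (-5 * (n * p * n)) *
        (ind (∀ e ∈ E, ω e = true) * ∏ w ∈ univ \ P, udY lam τ R C w ω)) :=
        Ex_mono h0 h1 hpt
    _ = Real.exp (-5 * (n * p * n)) * Ex p (fun ω : Sym2 V → Bool =>
        ind (∀ e ∈ E, ω e = true) * ∏ w ∈ univ \ P, udY lam τ R C w ω) := Ex_mul_left _ _ _
    _ ≤ Real.exp (-5 * (n * p * n)) * (p ^ E.card * Real.exp (2 * (n * p * n))) :=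
        mul_le_mul_of_nonneg_left hEx (Real.exp_pos _).le
    _ = p ^ E.card * Real.exp (-3 * (n * p * n)) := by
        rw [show -3 * (n * p * n) = -5 * (n * p * n) + 2 * (n * p * n) by ring, Real.exp_add]
        ring

theorem Pr_propD (r : ℕ) {p : ℝ} (h0 : 0 ≤ p) (h1 : p ≤ 1) {d ρ lam γ : ℝ} (hd : 0 < d)
    (hρ : 0 < ρ) (hγ : 0 < γ) (hlam : lam = 5 / (d * ρ)) (hs : 2 ≤ Fintype.card V * p)
    (τ : ℕ) (hτ : lam / γ + 1 ≤ τ)
    (hsum : ∑ t ∈ range (τ + 1), ((Fintype.card V).choose t : ℝ) * (p * Real.exp lam) ^ t ≤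
      Real.exp (Fintype.card V * p)) :
    Pr p (fun ω : Sym2 V → Bool =>
      ¬ PropD (Gr ω) r γ (Real.exp (-lam)) ρ (d * (Fintype.card V * p))) ≤
      Real.exp (-(Fintype.card V * p * Fintype.card V)) := by
  classical
  set n : ℝ := (Fintype.card V : ℝ) with hn
  have hn0 : 0 ≤ n := by rw [hn]; exact Nat.cast_nonneg _
  have hn1 : 1 ≤ n := by
    by_contra hcon
    push Not at hcon
    nlinarith
  -- reduction to the union
  have hsub : ∀ ω : Sym2 V → Bool, ¬ PropD (Gr ω) r γ (Real.exp (-lam)) ρ (d * (n * p)) →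
      ∃ k ∈ (univ : Finset ((Finset V × Finset V) × Finset (Sym2 V))),
        (udGood r γ (Real.exp (-lam)) ρ k.1.1 k.1.2 k.2 ∧
        (∀ e ∈ k.2, ω e = true) ∧ udEv r (d * (n * p)) k.1.1 k.1.2 k.2 ω) := by
    intro ω h
    unfold PropD at h
    push Not at h
    obtain ⟨P, R, G₀, hG, hGP, hRP, hR, hdens, I, hI, hIs⟩ := h
    have hedge : SimpleGraph.fromEdgeSet ((G₀.edgeSet.toFinset : Finset (Sym2 V)) : Set (Sym2 V))
        = G₀ := by
      rw [Set.coe_toFinset, SimpleGraph.fromEdgeSet_edgeSet]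
    refine ⟨((P, R), G₀.edgeSet.toFinset), mem_univ _, ⟨?_, hRP, hR, ?_⟩, ?_, I, ?_, hIs⟩
    · intro e he
      rw [Set.mem_toFinset] at he
      induction e using Sym2.ind with
      | _ a b =>
        have hab : G₀.Adj a b := he
        intro v hv
        rcases Sym2.mem_iff.mp hv with rfl | rfl
        · exact (hGP _ _ hab).1
        · exact (hGP _ _ hab).2
    · show ∀ S ⊆ R, _ → _
      rw [hedge]
      exact hdens
    · intro e he
      rw [Set.mem_toFinset] at he
      induction e using Sym2.ind with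
      | _ a b =>
        have hab : G₀.Adj a b := he
        exact (hG hab).2
    · show ∀ w, _
      rw [hedge]
      exact fun w => ⟨(hI w).1, fun z hz => ((hI w).2.1 z hz).2, (hI w).2.2⟩
  have hbound : Pr p (fun ω : Sym2 V → Bool =>
      ¬ PropD (Gr ω) r γ (Real.exp (-lam)) ρ (d * (n * p))) ≤
      ∑ k : (Finset V × Finset V) × Finset (Sym2 V),
        p ^ k.2.card * Real.exp (-3 * (n * p * n)) := by
    refine (Pr_mono h0 h1 hsub).trans ((Pr_exists_le h0 h1 _ _).trans ?_)
    exact sum_le_sum fun k _ => ud_single r h0 h1 hd hρ hγ hlam τ hτ hsum k.1.1 k.1.2 k.2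
  refine hbound.trans ?_
  have hsumE : ∑ E : Finset (Sym2 V), p ^ E.card = (p + 1) ^ (Fintype.card (Sym2 V)) := by
    have := Finset.sum_pow_mul_eq_add_pow p (1 : ℝ) (univ : Finset (Sym2 V))
    simpa using this
  have hcard : (Fintype.card (Sym2 V) : ℝ) = n * (n + 1) / 2 := by
    rw [Sym2.card, Nat.cast_choose_two]
    push_cast
    ring
  have hE2 : (p + 1) ^ (Fintype.card (Sym2 V)) ≤ Real.exp (n * p * n) := by
    calc (p + 1) ^ (Fintype.card (Sym2 V)) ≤ (Real.exp p) ^ (Fintype.card (Sym2 V)) :=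
          pow_le_pow_left₀ (by linarith) (Real.add_one_le_exp p) _
      _ = Real.exp ((Fintype.card (Sym2 V) : ℝ) * p) := (Real.exp_nat_mul _ _).symm
      _ ≤ Real.exp (n * p * n) := by
          refine Real.exp_le_exp.mpr ?_
          rw [hcard]
          have : n * (n + 1) / 2 ≤ n * n := by nlinarith
          nlinarith
  have h4 : ((2 : ℝ) ^ (Fintype.card V)) * (2 : ℝ) ^ (Fintype.card V) ≤ Real.exp (n * p * n) := by
    have hl : (4 : ℝ) ≤ Real.exp 2 := by
      have h2 : (2 : ℝ) ≤ Real.exp 1 := by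
        have := Real.add_one_le_exp 1
        linarith
      calc (4 : ℝ) = 2 * 2 := by norm_num
        _ ≤ Real.exp 1 * Real.exp 1 := by
            exact mul_le_mul h2 h2 (by norm_num) (Real.exp_pos _).le
        _ = Real.exp 2 := by rw [← Real.exp_add]; norm_num
    calc ((2 : ℝ) ^ (Fintype.card V)) * (2 : ℝ) ^ (Fintype.card V) = 4 ^ (Fintype.card V) := by
          rw [← mul_pow]; norm_num
      _ ≤ (Real.exp 2) ^ (Fintype.card V) := pow_le_pow_left₀ (by norm_num) hl _
      _ = Real.exp ((Fintype.card V : ℝ) * 2) := (Real.exp_nat_mul _ _).symm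
      _ ≤ Real.exp (n * p * n) := by
          refine Real.exp_le_exp.mpr ?_
          rw [← hn]
          nlinarith
  rw [Fintype.sum_prod_type]
  have hs1 : ∀ x : Finset V × Finset V, ∑ y : Finset (Sym2 V), p ^ y.card *
      Real.exp (-3 * (n * p * n)) = (p + 1) ^ (Fintype.card (Sym2 V)) *
      Real.exp (-3 * (n * p * n)) := fun _ => by rw [← sum_mul, hsumE]
  calc ∑ x : Finset V × Finset V, ∑ y : Finset (Sym2 V), p ^ y.card *
      Real.exp (-3 * (n * p * n))
      = ∑ x : Finset V × Finset V, (p + 1) ^ (Fintype.card (Sym2 V)) *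
        Real.exp (-3 * (n * p * n)) := sum_congr rfl fun x _ => hs1 x
    _ = (((2 : ℝ) ^ (Fintype.card V)) * (2 : ℝ) ^ (Fintype.card V)) *
        ((p + 1) ^ (Fintype.card (Sym2 V)) * Real.exp (-3 * (n * p * n))) := by
        rw [sum_const, card_univ, nsmul_eq_mul, Fintype.card_prod, Fintype.card_finset]
        push_cast
        ring
    _ ≤ Real.exp (n * p * n) * (Real.exp (n * p * n) * Real.exp (-3 * (n * p * n))) := by
        refine mul_le_mul h4 (mul_le_mul_of_nonneg_right hE2 (Real.exp_pos _).le) ?_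
          (Real.exp_pos _).le
        exact mul_nonneg (pow_nonneg (by linarith) _) (Real.exp_pos _).le
    _ = Real.exp (-(n * p * n)) := by
        rw [← Real.exp_add, ← Real.exp_add]
        congr 1
        ring

end Pool.MP_1bacea_co
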