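import Pool.Agent.Lib.MP_1bacea_co.DefsC
import Pool.Agent.Lib.MP_1bacea_co.UnionD

/-!
Union bound for property E (adapt UnionD.lean; n = card V).
Fix P with |P| ≤ b and G₀ inside P satisfying the density hypothesis. If ¬ PropE is witnessed by (P,G₀,I) then all
edges of G₀ are present (bits inside P, probability p^{e(G₀)}) and for every w ∉ P there is a Conf-free
I w ⊆ N(w) ∩ P with |I w| ≥ a. Apply `container` with R = P, β = 1/2: C : Finset V → Finset V. With
Y_w = ∑_{T ⊆ P, |T| ≤ τ} [T ⊆ N(w)] e^{lam|T|} e^{lam |N(w) ∩ C T|} ≥ e^{lam |I w|} ≥ e^{lam a} (lemmas udY_* of UnionD with R = P),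
∏_{w ∉ P} (e^{-lam a} Y_w) ≥ 1, the Y_w are independent of each other and of the bits inside P, and
e^{-lam a} E Y_w ≤ e^{-lam a} (∑_{t ≤ τ} C(n,t)(p e^lam)^t) exp(p (e^lam - 1) |P|/2) ≤ e^{-c}. (check udY_Ex; it may be
stated with β = e^{-lam}; then reprove the needed version.) So the probability for fixed (P,G₀) is at most
p^{e(G₀)} e^{-c (n - |P|)} ≤ p^{e(G₀)} e^{-c n/2}. Sum over G₀ inside P: (1+p)^{number of pairs in P} ≤ exp(p b^2) (pairs in P
number C(|P|,2) ≤ |P|^2; with the diagonal |P|(|P|+1)/2 ≤ |P|^2); sum over P: 2^n.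
-/

set_option autoImplicit false

open Finset

namespace Pool.MP_1bacea_co

variable {V : Type*} [Fintype V] [DecidableEq V]

omit [DecidableEq V] in
private lemma ue_sum {p : ℝ} (h0 : 0 ≤ p) (lam : ℝ) (τ : ℕ) (R : Finset V) :
    ∑ T ∈ R.powerset.filter (fun T => T.card ≤ τ), (p * Real.exp lam) ^ T.card ≤
      ∑ t ∈ range (τ + 1), ((Fintype.card V).choose t : ℝ) * (p * Real.exp lam) ^ t := by
  have hx : (0 : ℝ) ≤ p * Real.exp lam := mul_nonneg h0 (Real.exp_pos _).le
  calc ∑ T ∈ R.powerset.filter (fun T => T.card ≤ τ), (p * Real.exp lam) ^ T.card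
      ≤ ∑ T ∈ (univ : Finset (Finset V)).filter (fun T => T.card ∈ range (τ + 1)),
          (p * Real.exp lam) ^ T.card := by
        refine sum_le_sum_of_subset_of_nonneg ?_ (fun T _ _ => pow_nonneg hx _)
        intro T hT
        rw [mem_filter] at hT ⊢
        exact ⟨mem_univ _, mem_range.mpr (Nat.lt_succ_of_le hT.2)⟩
    _ = ∑ t ∈ range (τ + 1), ∑ T ∈ (univ : Finset (Finset V)).filter (fun T => T.card = t),
          (p * Real.exp lam) ^ T.card := by
        rw [← Finset.sum_fiberwise_of_maps_to (s := (univ : Finset (Finset V)).filter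
          (fun T => T.card ∈ range (τ + 1))) (t := range (τ + 1)) (g := fun T => T.card)
          (fun T hT => (mem_filter.mp hT).2)]
        refine sum_congr rfl fun t ht => ?_
        refine sum_congr ?_ fun _ _ => rfl
        ext T
        simp only [mem_filter, mem_univ, true_and]
        exact ⟨fun h => h.2, fun h => ⟨h ▸ ht, h⟩⟩
    _ = ∑ t ∈ range (τ + 1), ((Fintype.card V).choose t : ℝ) * (p * Real.exp lam) ^ t := by
        refine sum_congr rfl fun t _ => ?_
        rw [sum_congr rfl (g := fun _ => (p * Real.exp lam) ^ t)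
          (fun T hT => by rw [(mem_filter.mp hT).2]), sum_const, nsmul_eq_mul]
        congr 2
        have : (univ : Finset (Finset V)).filter (fun T => T.card = t) =
            powersetCard t univ := by
          ext T
          simp [mem_powersetCard]
        rw [this, card_powersetCard, card_univ]

private lemma ue_Ex {p : ℝ} (h0 : 0 ≤ p) {lam : ℝ} (hlam : 0 ≤ lam) (τ : ℕ)
    (R : Finset V) (C : Finset V → Finset V) {m : ℝ}
    (hC : ∀ T, C T ⊆ R ∧ Disjoint T (C T) ∧ ((C T).card : ℝ) ≤ m) (w : V) :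
    Ex p (udY lam τ R C w) ≤
      (∑ t ∈ range (τ + 1), ((Fintype.card V).choose t : ℝ) * (p * Real.exp lam) ^ t) *
        Real.exp (p * (Real.exp lam - 1) * m) := by
  have hE1 : 1 ≤ Real.exp lam := Real.one_le_exp hlam
  have h1 : Ex p (udY lam τ R C w) = ∑ T ∈ R.powerset.filter (fun T => T.card ≤ τ),
      (p * Real.exp lam) ^ T.card * (p * Real.exp lam + (1 - p)) ^ (C T).card := by
    unfold udY
    rw [Ex_sum]
    refine sum_congr rfl fun T _ => ?_
    rw [ud_Ex_prod_bits p (fun z => s(w, z)) (T ∪ C T) ?_ (udU lam T)]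
    · rw [prod_union (hC T).2.1]
      congr 1
      · rw [← prod_const]
        refine prod_congr rfl fun z hz => ?_
        simp [udU, hz]
      · rw [← prod_const]
        refine prod_congr rfl fun z hz => ?_
        have hz' : z ∉ T := fun h => Finset.disjoint_left.mp (hC T).2.1 h hz
        simp [udU, hz']
    · intro a _ b _ hab
      exact Sym2.congr_right.mp hab
  rw [h1]
  have h2 : ∀ T : Finset V, (p * Real.exp lam + (1 - p)) ^ (C T).card ≤
      Real.exp (p * (Real.exp lam - 1) * m) := by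
    intro T
    have hb : (0 : ℝ) ≤ p * Real.exp lam + (1 - p) := by nlinarith
    have hb1 : p * Real.exp lam + (1 - p) ≤ Real.exp (p * (Real.exp lam - 1)) := by
      have := Real.add_one_le_exp (p * (Real.exp lam - 1))
      linarith
    calc (p * Real.exp lam + (1 - p)) ^ (C T).card
        ≤ (Real.exp (p * (Real.exp lam - 1))) ^ (C T).card := pow_le_pow_left₀ hb hb1 _
      _ = Real.exp ((C T).card * (p * (Real.exp lam - 1))) := (Real.exp_nat_mul _ _).symm
      _ ≤ Real.exp (p * (Real.exp lam - 1) * m) := by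
          refine Real.exp_le_exp.mpr ?_
          have h7 : (0 : ℝ) ≤ p * (Real.exp lam - 1) := mul_nonneg h0 (by linarith)
          rw [mul_comm ((C T).card : ℝ)]
          exact mul_le_mul_of_nonneg_left (hC T).2.2 h7
  calc ∑ T ∈ R.powerset.filter (fun T => T.card ≤ τ),
      (p * Real.exp lam) ^ T.card * (p * Real.exp lam + (1 - p)) ^ (C T).card
      ≤ ∑ T ∈ R.powerset.filter (fun T => T.card ≤ τ),
        (p * Real.exp lam) ^ T.card * Real.exp (p * (Real.exp lam - 1) * m) := by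
        refine sum_le_sum fun T _ => mul_le_mul_of_nonneg_left (h2 T) ?_
        exact pow_nonneg (mul_nonneg h0 (Real.exp_pos _).le) _
    _ = (∑ T ∈ R.powerset.filter (fun T => T.card ≤ τ), (p * Real.exp lam) ^ T.card) *
        Real.exp (p * (Real.exp lam - 1) * m) := by rw [sum_mul]
    _ ≤ _ := mul_le_mul_of_nonneg_right (ue_sum h0 lam τ R) (Real.exp_pos _).le

/-- the part of the conditions that does not depend on the random bits -/
private def ueGood (r : ℕ) (γ b : ℝ) (P : Finset V) (E : Finset (Sym2 V)) : Prop :=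
  (∀ e ∈ E, ∀ v ∈ e, v ∈ P) ∧ (P.card : ℝ) ≤ b ∧
    (∀ S ⊆ P, (P.card : ℝ) / 2 ≤ S.card →
      γ * (S.card : ℝ) ^ 2 ≤ npairs (Conf (SimpleGraph.fromEdgeSet (E : Set (Sym2 V))) r) S)

/-- the random part -/
private def ueEv (r : ℕ) (a : ℝ) (P : Finset V) (E : Finset (Sym2 V)) (ω : Sym2 V → Bool) : Prop :=
  ∃ I : V → Finset V, ∀ w, w ∉ P → (I w ⊆ P ∧ (∀ z ∈ I w, ω s(w, z) = true) ∧
      ∀ z ∈ I w, ∀ z' ∈ I w, ¬ Conf (SimpleGraph.fromEdgeSet (E : Set (Sym2 V))) r z z') ∧
      a ≤ ((I w).card : ℝ)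

private lemma ue_single (r : ℕ) {p : ℝ} (h0 : 0 ≤ p) (h1 : p ≤ 1) {γ a b lam c : ℝ} (hγ : 0 < γ)
    (hlam : 0 < lam) (hc : 0 ≤ c) (hb : b ≤ Fintype.card V / 2)
    (τ : ℕ) (hτ : Real.log 2 / γ + 1 ≤ τ)
    (hB : Real.exp (-(lam * a)) *
      (∑ t ∈ range (τ + 1), ((Fintype.card V).choose t : ℝ) * (p * Real.exp lam) ^ t) *
      Real.exp (p * (Real.exp lam - 1) * (b / 2)) ≤ Real.exp (-c)) (P : Finset V)
    (E : Finset (Sym2 V)) :
    Pr p (fun ω : Sym2 V → Bool => ueGood r γ b P E ∧ (∀ e ∈ E, ω e = true) ∧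
      ueEv r a P E ω) ≤ p ^ E.card * Real.exp (-(c * (Fintype.card V / 2))) := by
  set n : ℝ := (Fintype.card V : ℝ) with hn
  by_cases hG : ueGood r γ b P E
  swap
  · have : Pr p (fun ω : Sym2 V → Bool => ueGood r γ b P E ∧ (∀ e ∈ E, ω e = true) ∧
        ueEv r a P E ω) = 0 := by
      unfold Pr
      rw [show (fun ω : Sym2 V → Bool => ind (ueGood r γ b P E ∧ (∀ e ∈ E, ω e = true) ∧
        ueEv r a P E ω)) = fun _ => 0 from funext fun ω => ind_false fun h => hG h.1]
      exact Ex_const p 0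
    rw [this]
    exact mul_nonneg (pow_nonneg h0 _) (Real.exp_pos _).le
  obtain ⟨hE, hPb, hdens⟩ := hG
  obtain ⟨C, hC, hcont⟩ := container P (Conf (SimpleGraph.fromEdgeSet (E : Set (Sym2 V))) r)
    (ud_conf_symm _ r) (β := 1 / 2) (by norm_num) (by norm_num) hγ
    (fun S hS hS' => hdens S hS (by linarith))
  have hC' : ∀ T, C T ⊆ P ∧ Disjoint T (C T) ∧ ((C T).card : ℝ) ≤ b / 2 := fun T =>
    ⟨(hC T).1, (hC T).2.1, (hC T).2.2.trans (by linarith)⟩
  -- the pointwise bound
  have hpt : ∀ ω : Sym2 V → Bool, ind (ueGood r γ b P E ∧ (∀ e ∈ E, ω e = true) ∧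
      ueEv r a P E ω) ≤
      ind (∀ e ∈ E, ω e = true) * ∏ w ∈ univ \ P, Real.exp (-(lam * a)) * udY lam τ P C w ω := by
    intro ω
    have hYn : 0 ≤ ∏ w ∈ univ \ P, Real.exp (-(lam * a)) * udY lam τ P C w ω :=
      prod_nonneg fun _ _ => mul_nonneg (Real.exp_pos _).le (udY_nonneg _ _ _ _ _ _)
    by_cases hA : ueGood r γ b P E ∧ (∀ e ∈ E, ω e = true) ∧ ueEv r a P E ω
    swap
    · rw [ind_false hA]
      exact mul_nonneg (ind_nonneg _) hYn
    rw [ind_true hA, ind_true hA.2.1, one_mul]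
    obtain ⟨I, hI⟩ := hA.2.2
    rw [← prod_const_one (s := univ \ P) (M := ℝ)]
    refine prod_le_prod (fun _ _ => zero_le_one) ?_
    intro w hw
    obtain ⟨⟨hI1, hI2, hI3⟩, hI4⟩ := hI w (mem_sdiff.mp hw).2
    obtain ⟨T, hT, hTc, hTI⟩ := hcont (I w) hI1 hI3
    have hY := udY_lower hlam.le τ P C w ω (I w) T hI1 hT (by
      have : Real.log (1 / (1 / 2)) = Real.log 2 := by norm_num
      rw [this] at hTc
      exact_mod_cast hTc.trans hτ) hTI hI2
    calc (1 : ℝ) = Real.exp (-(lam * a)) * Real.exp (lam * a) := by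
          rw [← Real.exp_add]
          simp
      _ ≤ Real.exp (-(lam * a)) * udY lam τ P C w ω := by
          refine mul_le_mul_of_nonneg_left (le_trans ?_ hY) (Real.exp_pos _).le
          exact Real.exp_le_exp.mpr (mul_le_mul_of_nonneg_left hI4 hlam.le)
  have hEx : Ex p (fun ω : Sym2 V → Bool => ind (∀ e ∈ E, ω e = true) *
      ∏ w ∈ univ \ P, Real.exp (-(lam * a)) * udY lam τ P C w ω) ≤
      p ^ E.card * Real.exp (-(c * (n / 2))) := by
    rw [Ex_mul_of_disjoint p (I := {e : Sym2 V | ∀ v ∈ e, v ∈ P})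
      (J := {e : Sym2 V | ∃ v ∈ e, v ∉ P})]
    · rw [ud_Ex_all]
      refine mul_le_mul_of_nonneg_left ?_ (pow_nonneg h0 _)
      rw [ud_Ex_prod_indep p (fun w => {e : Sym2 V | ∃ z ∈ P, e = s(w, z)})
        (fun w ω => Real.exp (-(lam * a)) * udY lam τ P C w ω) (univ \ P)]
      · calc ∏ w ∈ univ \ P, Ex p (fun ω => Real.exp (-(lam * a)) * udY lam τ P C w ω)
            ≤ ∏ _w ∈ univ \ P, Real.exp (-c) := by
              refine prod_le_prod (fun w _ => Ex_nonneg h0 h1 fun _ =>
                mul_nonneg (Real.exp_pos _).le (udY_nonneg _ _ _ _ _ _)) (fun w _ => ?_)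
              rw [Ex_mul_left]
              refine le_trans ?_ hB
              rw [mul_assoc]
              exact mul_le_mul_of_nonneg_left (ue_Ex h0 hlam.le τ P C hC' w) (Real.exp_pos _).le
          _ = Real.exp (((univ \ P).card : ℝ) * (-c)) := by
              rw [prod_const, ← Real.exp_nat_mul]
          _ ≤ Real.exp (-(c * (n / 2))) := by
              refine Real.exp_le_exp.mpr ?_
              have hcard : (((univ \ P).card : ℕ) : ℝ) = n - P.card := by
                rw [card_sdiff_of_subset (subset_univ P), card_univ,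
                  Nat.cast_sub (card_le_univ P)]
              have : n / 2 ≤ ((univ \ P).card : ℝ) := by
                rw [hcard]
                linarith
              nlinarith
      · intro a ha b hb hab
        rw [Set.disjoint_left]
        rintro e ⟨z, hz, rfl⟩ ⟨z', hz', he⟩
        have ha' : a ∉ P := (mem_sdiff.mp ha).2
        rcases Sym2.eq_iff.mp he with ⟨h, _⟩ | ⟨h, _⟩
        · exact hab h
        · exact ha' (h ▸ hz')
      · intro a _ ω ω' h
        show _ * udY lam τ P C a ω = _ * udY lam τ P C a ω'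
        rw [udY_dep lam τ P C (fun T => (hC T).1) a ω ω' h]
    · rw [Set.disjoint_left]
      rintro e he ⟨v, hv, hvP⟩
      exact hvP (he v hv)
    · intro ω ω' h
      have : (∀ e ∈ E, ω e = true) ↔ (∀ e ∈ E, ω' e = true) := by
        constructor
        · intro h' e he
          rw [← h e (hE e he)]; exact h' e he
        · intro h' e he
          rw [h e (hE e he)]; exact h' e he
      simp only [this]
    · intro ω ω' h
      refine prod_congr rfl fun w hw => ?_
      rw [udY_dep lam τ P C (fun T => (hC T).1) w ω ω' ?_]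
      rintro e ⟨z, hz, rfl⟩
      exact h _ ⟨w, Sym2.mem_mk_left w z, (mem_sdiff.mp hw).2⟩
  exact (Ex_mono h0 h1 hpt).trans hEx

theorem Pr_propE (r : ℕ) {p : ℝ} (h0 : 0 ≤ p) (h1 : p ≤ 1) {γ a b lam c : ℝ} (hγ : 0 < γ)
    (hlam : 0 < lam) (hc : 0 ≤ c) (hb0 : 0 ≤ b) (hb : b ≤ Fintype.card V / 2)
    (τ : ℕ) (hτ : Real.log 2 / γ + 1 ≤ τ)
    (hB : Real.exp (-(lam * a)) *
      (∑ t ∈ range (τ + 1), ((Fintype.card V).choose t : ℝ) * (p * Real.exp lam) ^ t) *
      Real.exp (p * (Real.exp lam - 1) * (b / 2)) ≤ Real.exp (-c)) :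
    Pr p (fun ω : Sym2 V → Bool => ¬ PropE (Gr ω) r γ a b) ≤
      2 ^ Fintype.card V * Real.exp (p * b ^ 2) * Real.exp (-(c * (Fintype.card V / 2))) := by
  classical
  set K : Finset ((_ : Finset V) × Finset (Sym2 V)) :=
    ((univ : Finset (Finset V)).filter fun P => (P.card : ℝ) ≤ b).sigma fun P => P.sym2.powerset
    with hK
  -- reduction to the union
  have hsub : ∀ ω : Sym2 V → Bool, ¬ PropE (Gr ω) r γ a b →
      ∃ k ∈ K, (ueGood r γ b k.1 k.2 ∧ (∀ e ∈ k.2, ω e = true) ∧ ueEv r a k.1 k.2 ω) := by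
    intro ω h
    unfold PropE at h
    push Not at h
    obtain ⟨P, G₀, hG, hGP, hPb, hdens, I, hI, hIs⟩ := h
    have hedge : SimpleGraph.fromEdgeSet ((G₀.edgeSet.toFinset : Finset (Sym2 V)) : Set (Sym2 V))
        = G₀ := by
      rw [Set.coe_toFinset, SimpleGraph.fromEdgeSet_edgeSet]
    have hin : ∀ e ∈ G₀.edgeSet.toFinset, ∀ v ∈ e, v ∈ P := by
      intro e he
      rw [Set.mem_toFinset] at he
      induction e using Sym2.ind with
      | _ a b =>
        have hab : G₀.Adj a b := he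
        intro v hv
        rcases Sym2.mem_iff.mp hv with rfl | rfl
        · exact (hGP _ _ hab).1
        · exact (hGP _ _ hab).2
    refine ⟨⟨P, G₀.edgeSet.toFinset⟩, ?_, ⟨hin, hPb, ?_⟩, ?_, I, ?_⟩
    · rw [hK, mem_sigma, mem_filter, mem_powerset]
      refine ⟨⟨mem_univ _, hPb⟩, ?_⟩
      intro e he
      rw [mem_sym2_iff]
      exact hin e he
    · show ∀ S ⊆ P, _ → _
      rw [hedge]
      exact hdens
    · intro e he
      rw [Set.mem_toFinset] at he
      induction e using Sym2.ind with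
      | _ a b =>
        have hab : G₀.Adj a b := he
        exact (hG hab).2
    · show ∀ w, _
      rw [hedge]
      exact fun w hw => ⟨⟨(hI w hw).1, fun z hz => ((hI w hw).2.1 z hz).2, (hI w hw).2.2⟩,
        hIs w hw⟩
  have hbound : Pr p (fun ω : Sym2 V → Bool => ¬ PropE (Gr ω) r γ a b) ≤
      ∑ k ∈ K, p ^ k.2.card * Real.exp (-(c * (Fintype.card V / 2))) := by
    refine (Pr_mono h0 h1 hsub).trans ((Pr_exists_le h0 h1 K
      (fun k ω => ueGood r γ b k.1 k.2 ∧ (∀ e ∈ k.2, ω e = true) ∧ ueEv r a k.1 k.2 ω)).trans ?_)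
    exact sum_le_sum fun k _ => ue_single r h0 h1 hγ hlam hc hb τ hτ hB k.1 k.2
  refine hbound.trans ?_
  rw [← sum_mul]
  refine mul_le_mul_of_nonneg_right ?_ (Real.exp_pos _).le
  rw [hK, sum_sigma]
  have hPsum : ∀ P ∈ (univ : Finset (Finset V)).filter fun P => (P.card : ℝ) ≤ b,
      ∑ E ∈ P.sym2.powerset, p ^ E.card ≤ Real.exp (p * b ^ 2) := by
    intro P hP
    rw [mem_filter] at hP
    have e1 : ∑ E ∈ P.sym2.powerset, p ^ E.card = (p + 1) ^ P.sym2.card := by
      have := Finset.sum_pow_mul_eq_add_pow p (1 : ℝ) P.sym2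
      simpa using this
    rw [e1]
    have e2 : (P.sym2.card : ℝ) ≤ b ^ 2 := by
      rw [card_sym2, Nat.cast_choose_two]
      push_cast
      have h2 : (0 : ℝ) ≤ P.card := Nat.cast_nonneg _
      have h3 : (P.card : ℝ) ≤ (P.card : ℝ) ^ 2 := by
        rcases Nat.eq_zero_or_pos P.card with h | h
        · rw [h]
          norm_num
        · have : (1 : ℝ) ≤ P.card := by exact_mod_cast h
          nlinarith
      have h4 : (P.card : ℝ) ^ 2 ≤ b ^ 2 := pow_le_pow_left₀ h2 hP.2 2
      nlinarith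
    calc (p + 1) ^ P.sym2.card ≤ (Real.exp p) ^ P.sym2.card :=
          pow_le_pow_left₀ (by linarith) (Real.add_one_le_exp p) _
      _ = Real.exp ((P.sym2.card : ℝ) * p) := (Real.exp_nat_mul _ _).symm
      _ ≤ Real.exp (p * b ^ 2) := by
          refine Real.exp_le_exp.mpr ?_
          rw [mul_comm]
          exact mul_le_mul_of_nonneg_left e2 h0
  refine (sum_le_sum hPsum).trans ?_
  rw [sum_const, nsmul_eq_mul]
  refine mul_le_mul_of_nonneg_right ?_ (Real.exp_pos _).le
  have h5 : ((univ : Finset (Finset V)).filter fun P => (P.card : ℝ) ≤ b).card ≤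
      2 ^ Fintype.card V := by
    refine (card_filter_le _ _).trans ?_
    rw [card_univ, Fintype.card_finset]
  exact_mod_cast h5

end Pool.MP_1bacea_co
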