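import Pool.Agent.Lib.MP_1bacea_co.Numeric
import Pool.Agent.Lib.MP_1bacea_co.UnionD
import Pool.Agent.Lib.MP_1bacea_co.Bridge
import Pool.Agent.Lib.MP_1bacea_co.Partition
import Pool.Agent.Lib.MP_1bacea_co.LocalSparse

/-!
Threshold zero above the exponent.
-/

set_option autoImplicit false

open Finset Filter Topology

namespace Pool.MP_1bacea_co

/-- With high probability, every `H`-free subgraph of `G(n,p)` with minimum degree at least `d p n`
is `C`-colourable. -/
def WhpColorable {m : ℕ} (H : SimpleGraph (Fin m)) (p : ℕ → unitInterval) (d : ℝ) (C : ℕ) : Prop :=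
  Tendsto (fun n : ℕ => (SimpleGraph.binomialRandom (Fin n) (p n)).real
    {Γ | ∀ G : SimpleGraph (Fin n), G ≤ Γ → H.Free G →
      (∀ v, d * (p n : ℝ) * n ≤ ((G.neighborSet v).ncard : ℝ)) → G.Colorable C}) atTop (𝓝 1)

lemma tendsto_of_Pr_not (p : ℕ → unitInterval) (Q : ∀ n : ℕ, SimpleGraph (Fin n) → Prop)
    (err : ℕ → ℝ) (herr : Tendsto err atTop (𝓝 0))
    (h : ∀ᶠ n in atTop, Pr (p n : ℝ) (fun ω : Sym2 (Fin n) → Bool => ¬ Q n (Gr ω)) ≤ err n) :
    Tendsto (fun n : ℕ => (SimpleGraph.binomialRandom (Fin n) (p n)).real {Γ | Q n Γ})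
      atTop (𝓝 1) := by
  have h1 : Tendsto (fun n => 1 - err n) atTop (𝓝 1) := by
    have := herr.const_sub 1
    rwa [sub_zero] at this
  refine tendsto_of_tendsto_of_tendsto_of_le_of_le' h1 tendsto_const_nhds ?_ ?_
  · filter_upwards [h] with n hn
    rw [binomial_eq_Pr]
    rw [Pr_not] at hn
    linarith
  · filter_upwards with n
    rw [binomial_eq_Pr]
    exact Pr_le_one (p n).2.1 (p n).2.2 _

lemma noCyc_of_free {V : Type*} {G : SimpleGraph V} {r : ℕ}
    (h : (SimpleGraph.cycleGraph (2 * r + 3)).Free G) : NoCyc G r := by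
  intro x hinj hx
  obtain ⟨h1, h2⟩ := hx
  apply h
  have key : ∀ u : Fin (2 * r + 3), G.Adj (x u) (x (u + 1)) := by
    intro u
    induction u using Fin.lastCases with
    | last => rw [Fin.last_add_one]; exact h2
    | cast i => rw [Fin.coeSucc_eq_succ]; exact h1 i
  refine ⟨⟨⟨x, ?_⟩, hinj⟩⟩
  intro u v huv
  rw [SimpleGraph.cycleGraph_adj] at huv
  rcases huv with h' | h'
  · have : u = v + 1 := sub_eq_iff_eq_add'.mp h'
    rw [this]; exact (key v).symm
  · have : v = u + 1 := sub_eq_iff_eq_add'.mp h'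
    rw [this]; exact key u

lemma dg_eq_ncard {n : ℕ} (G : SimpleGraph (Fin n)) (v : Fin n) :
    dg G v univ = (G.neighborSet v).ncard := by
  classical
  unfold dg
  rw [← Set.ncard_coe_finset]
  congr 1
  ext u
  simp

lemma adj_sub_eq_Em {V : Type*} [Fintype V] [DecidableEq V] (p : ℝ) (ω : Sym2 V → Bool) :
    (fun u v => adj (Gr ω) u v - if u = v then 0 else p) = Em p ω := by
  funext u v
  unfold adj Em
  by_cases huv : u = v
  · subst huv
    rw [ind_false (fun h => h.1 rfl)]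
    simp
  · simp only [huv, if_false]
    congr 1
    by_cases hb : ω s(u, v) = true
    · rw [ind_true (A := (Gr ω).Adj u v) ⟨huv, hb⟩]; simp [hb]
    · rw [ind_false (A := (Gr ω).Adj u v) (fun h => hb h.2)]; simp [hb]

/-- the sum over fingerprints -/
lemma sum_choose_le {n : ℕ} {p lam y : ℝ} (hn : 1 ≤ (n : ℝ)) (hp0 : 0 < p) (hp1 : p ≤ 1)
    (hlam : 0 < lam) (hy : 1 ≤ y) (hys : y ≤ n * p)
    (hlog1 : 2 * lam * (Real.log n + lam) ≤ y) (hlog2 : 12 * (Real.log n + lam) ≤ y)
    (hys2 : 12 ≤ (n : ℝ) * p) (hyl : 2 * lam ≤ y) (τ : ℕ)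
    (hτ : (τ : ℝ) ≤ lam * (n * p) / y + 2) :
    ∑ t ∈ range (τ + 1), (n.choose t : ℝ) * (p * Real.exp lam) ^ t ≤ Real.exp (n * p) := by
  set s : ℝ := n * p with hs
  have hs0 : 0 < s := by linarith
  have hy0 : 0 < y := by linarith
  have hx1 : 1 ≤ s * Real.exp lam := by
    have : 1 ≤ Real.exp lam := Real.one_le_exp hlam.le
    nlinarith
  have hsn : s ≤ n := by rw [hs]; nlinarith
  have hlogn : 0 ≤ Real.log n := Real.log_nonneg hn
  have hterm : ∀ t ∈ range (τ + 1), (n.choose t : ℝ) * (p * Real.exp lam) ^ t ≤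
      (s * Real.exp lam) ^ τ := by
    intro t ht
    have ht' : t ≤ τ := by have := mem_range.mp ht; omega
    have h1 : (n.choose t : ℝ) ≤ (n : ℝ) ^ t := by exact_mod_cast Nat.choose_le_pow n t
    calc (n.choose t : ℝ) * (p * Real.exp lam) ^ t ≤ (n : ℝ) ^ t * (p * Real.exp lam) ^ t :=
          mul_le_mul_of_nonneg_right h1 (by positivity)
      _ = (s * Real.exp lam) ^ t := by rw [← mul_pow, hs]; ring
      _ ≤ _ := pow_le_pow_right₀ hx1 ht'
  refine (sum_le_sum hterm).trans ?_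
  rw [sum_const, card_range, nsmul_eq_mul]
  have h3 : ((τ + 1 : ℕ) : ℝ) ≤ s := by
    push_cast
    have : lam * s / y ≤ s / 2 := by
      rw [div_le_iff₀ hy0]
      nlinarith
    linarith
  have h4 : ((τ + 1 : ℕ) : ℝ) * (s * Real.exp lam) ^ τ ≤ s * (s * Real.exp lam) ^ τ :=
    mul_le_mul_of_nonneg_right h3 (by positivity)
  refine h4.trans ?_
  have h5 : s * (s * Real.exp lam) ^ τ = Real.exp (Real.log s + τ * (Real.log s + lam)) := by
    rw [Real.exp_add, Real.exp_log hs0, Real.exp_nat_mul, Real.exp_add, Real.exp_log hs0]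
  rw [h5]
  apply Real.exp_le_exp.mpr
  have hlogs : Real.log s ≤ Real.log n := Real.log_le_log hs0 hsn
  have h6 : Real.log s + lam ≤ Real.log n + lam := by linarith
  have h7 : Real.log s + τ * (Real.log s + lam) ≤ (lam * s / y + 3) * (Real.log n + lam) := by
    have hτ0 : (0 : ℝ) ≤ τ := Nat.cast_nonneg _
    calc Real.log s + τ * (Real.log s + lam) ≤ (Real.log n + lam) + τ * (Real.log n + lam) := by
          have := mul_le_mul_of_nonneg_left h6 hτ0
          linarith
      _ = (τ + 1) * (Real.log n + lam) := by ring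
      _ ≤ _ := mul_le_mul_of_nonneg_right (by linarith) (by linarith)
  refine h7.trans ?_
  have h8 : lam * s / y * (Real.log n + lam) ≤ s / 2 := by
    rw [div_mul_eq_mul_div, div_le_iff₀ hy0]
    nlinarith
  nlinarith

lemma up_aux (C n s Y : ℝ) (N : ℕ) (hs : s ≠ 0) (hY : Y ≠ 0) :
    C * n * s ^ N / (Y * s) ^ N = C * (n / Y ^ N) := by
  rw [mul_pow]
  field_simp

/-- Threshold zero for `p ≥ n^{-(1 - 1/(2r)) + δ}`. -/
theorem upper_main (r : ℕ) (hr : 2 ≤ r) (δ : ℝ) (hδ : 0 < δ) (p : ℕ → unitInterval)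
    (hp : ∀ᶠ n : ℕ in atTop, (n : ℝ) ^ (-(1 - 1 / (2 * r : ℝ)) + δ) ≤ (p n : ℝ))
    (d : ℝ) (hd : 0 < d) :
    ∃ C : ℕ, WhpColorable (SimpleGraph.cycleGraph (2 * r + 3)) p d C := by
  have hr0 : (0 : ℝ) < r := by exact_mod_cast (by omega : 0 < r)
  -- constants
  set th : ℝ := δ / (4 * r + 7) with hth
  have hth0 : 0 < th := by positivity
  have hδth : δ = th * (4 * r + 7 : ℕ) := by
    rw [hth]; push_cast; field_simp
  set d' : ℝ := d / 4 with hd'
  have hd'0 : 0 < d' := by positivity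
  set ρ : ℝ := d' ^ r / (4 * r * 8 ^ r) with hρ
  have hρ0 : 0 < ρ := by positivity
  set lam : ℝ := 5 / (d' * ρ) with hlam
  have hlam0 : 0 < lam := by positivity
  set β : ℝ := Real.exp (-lam) with hβ
  have hβ0 : 0 < β := Real.exp_pos _
  have hβ1 : β ≤ 1 := Real.exp_le_one_iff.mpr (by linarith)
  obtain ⟨m, hm⟩ : ∃ m : ℕ, (1 - β) ^ m < ρ := by
    refine exists_pow_lt_of_lt_one hρ0 ?_
    linarith
  obtain ⟨Y, hY⟩ := num_exists r hr d' β ρ hd'0 hβ0 hβ1 hρ m hm
  obtain ⟨D0, hD0⟩ : ∃ D0 : ℕ, 4 ≤ th * (D0 + 1) := by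
    obtain ⟨D, hD⟩ := exists_nat_ge (4 / th)
    refine ⟨D, ?_⟩
    rw [div_le_iff₀ hth0] at hD
    nlinarith
  obtain ⟨j, hj⟩ : ∃ j : ℕ, 1 ≤ th * 2 ^ j := by
    obtain ⟨j, hj⟩ := pow_unbounded_of_one_lt (1 / th) (by norm_num : (1 : ℝ) < 2)
    refine ⟨j, ?_⟩
    rw [div_lt_iff₀ hth0] at hj
    nlinarith
  set Cj : ℝ := (2 ^ j + 1 : ℝ) ^ (2 * 2 ^ j + 2) with hCj
  refine ⟨2 * ((m + 1) * (D0 + 1)), ?_⟩
  unfold WhpColorable
  refine tendsto_of_Pr_not p _ (fun n => 2 * ((n : ℝ) * Real.exp (-(n : ℝ) ^ th)) + (4 + Cj) * (n : ℝ)⁻¹) ?_ ?_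
  · -- the error tends to zero
    have h1 : Tendsto (fun x : ℝ => x ^ (1 / th) * Real.exp (-1 * x)) atTop (𝓝 0) :=
      tendsto_rpow_mul_exp_neg_mul_atTop_nhds_zero _ _ one_pos
    have h2 : Tendsto (fun n : ℕ => (n : ℝ) ^ th) atTop atTop :=
      (tendsto_rpow_atTop hth0).comp tendsto_natCast_atTop_atTop
    have h3 := h1.comp h2
    have h4 : Tendsto (fun n : ℕ => (n : ℝ) * Real.exp (-(n : ℝ) ^ th)) atTop (𝓝 0) := by
      refine h3.congr fun n => ?_
      simp only [Function.comp_apply]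
      rw [← Real.rpow_mul (Nat.cast_nonneg n), mul_one_div_cancel hth0.ne', Real.rpow_one, neg_one_mul]
    have h5 : Tendsto (fun n : ℕ => (n : ℝ)⁻¹) atTop (𝓝 0) := tendsto_inv_atTop_nhds_zero_nat
    have h6 := (h4.const_mul 2).add (h5.const_mul (4 + Cj))
    simpa using h6
  · -- eventual conditions
    have hlogo : ∀ c : ℝ, 0 < c → ∀ᶠ n : ℕ in atTop, Real.log n ≤ c * (n : ℝ) ^ th := by
      intro c hc
      have h1 := (isLittleO_log_rpow_atTop hth0).bound hc
      have h2 := tendsto_natCast_atTop_atTop.eventually h1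
      filter_upwards [h2, eventually_ge_atTop 1] with n hn hn1
      have h3 : 0 ≤ (n : ℝ) ^ th := Real.rpow_nonneg (Nat.cast_nonneg n) _
      rw [Real.norm_of_nonneg h3] at hn
      exact (le_abs_self _).trans hn
    have hyt : Tendsto (fun n : ℕ => (n : ℝ) ^ th) atTop atTop :=
      (tendsto_rpow_atTop hth0).comp tendsto_natCast_atTop_atTop
    have hpart : Tendsto (fun n : ℕ => 2 * (n : ℝ) * Real.exp (-(d' * (n : ℝ) ^ th / 4))) atTop (𝓝 0) := by
      have h1 : Tendsto (fun x : ℝ => x ^ (1 / th) * Real.exp (-(d' / 4) * x)) atTop (𝓝 0) :=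
        tendsto_rpow_mul_exp_neg_mul_atTop_nhds_zero _ _ (by positivity)
      have h3 := (h1.comp hyt).const_mul 2
      rw [mul_zero] at h3
      refine h3.congr fun n => ?_
      simp only [Function.comp_apply]
      rw [← Real.rpow_mul (Nat.cast_nonneg n), mul_one_div_cancel hth0.ne', Real.rpow_one]
      rw [show -(d' / 4) * (n : ℝ) ^ th = -(d' * (n : ℝ) ^ th / 4) by ring]
      ring
    have hpart1 := hpart.eventually (gt_mem_nhds (zero_lt_one))
    filter_upwards [hp, eventually_ge_atTop 12, hyt.eventually_ge_atTop Y, hyt.eventually_ge_atTop 12,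
      hyt.eventually_ge_atTop (2 * lam), hyt.eventually_ge_atTop (4 * lam * lam),
      hyt.eventually_ge_atTop (24 * lam),
      hlogo (1 / (4 * lam)) (by positivity), hlogo (1 / 24) (by norm_num), hpart1]
      with n hpn hn12 hyY hy12 hy2l hy4l hy24 hlog1 hlog2 hpt
    set y : ℝ := (n : ℝ) ^ th with hy
    set q : ℝ := (p n : ℝ) with hq
    have hq0' : 0 ≤ q := (p n).2.1
    have hq1 : q ≤ 1 := (p n).2.2
    have hn1 : (1 : ℝ) ≤ n := by exact_mod_cast (by omega : 1 ≤ n)
    have hn0 : (0 : ℝ) < n := by linarith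
    have hy1 : 1 ≤ y := by linarith
    have hy0 : 0 < y := by linarith
    set s : ℝ := n * q with hs
    have hcard : (Fintype.card (Fin n) : ℝ) = n := by rw [Fintype.card_fin]
    -- lower bounds on s
    have hsge : (n : ℝ) ^ (1 / (2 * r : ℝ) + δ) ≤ s := by
      have : (n : ℝ) ^ (1 / (2 * r : ℝ) + δ) = n * (n : ℝ) ^ (-(1 - 1 / (2 * r : ℝ)) + δ) := by
        rw [← Real.rpow_one_add' hn0.le]
        · congr 1; ring
        · have : (0:ℝ) < 1 / (2 * r) := by positivity
          have h2 : 1 + (-(1 - 1 / (2 * r : ℝ)) + δ) = 1 / (2 * r) + δ := by ring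
          rw [h2]; positivity
      rw [this, hs]
      exact mul_le_mul_of_nonneg_left hpn hn0.le
    have hypow : y ^ (4 * r + 7) = (n : ℝ) ^ δ := by
      rw [hy, ← Real.rpow_natCast, ← Real.rpow_mul hn0.le, ← hδth]
    have hs1 : y ^ (4 * r + 7) ≤ s := by
      rw [hypow]
      refine le_trans (Real.rpow_le_rpow_of_exponent_le hn1 ?_) hsge
      have : (0:ℝ) < 1 / (2 * r) := by positivity
      linarith
    have hs2 : n * y ^ (4 * r + 7) ≤ s ^ (2 * r) := by
      have h1 : ((n : ℝ) ^ (1 / (2 * r : ℝ) + δ)) ^ (2 * r) ≤ s ^ (2 * r) :=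
        pow_le_pow_left₀ (Real.rpow_nonneg hn0.le _) hsge _
      refine le_trans ?_ h1
      rw [hypow, ← Real.rpow_natCast, ← Real.rpow_mul hn0.le, ← Real.rpow_one_add' hn0.le (by positivity)]
      refine Real.rpow_le_rpow_of_exponent_le hn1 ?_
      push_cast
      have h2 : (1 / (2 * (r : ℝ)) + δ) * (2 * r) = 1 + 2 * r * δ := by field_simp
      rw [h2]
      have h3 : (1 : ℝ) ≤ 2 * r := by
        have : (2 : ℝ) ≤ r := by exact_mod_cast hr
        linarith
      nlinarith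
    have hys : y ≤ s := (le_self_pow₀ hy1 (by omega)).trans hs1
    have hs0 : 0 < s := by linarith
    have hs12 : 12 ≤ s := by linarith
    have hq0 : 0 < q := by
      rcases hq0'.lt_or_eq with h | h
      · exact h
      · rw [hs, ← h, mul_zero] at hs0; exact absurd hs0 (lt_irrefl _)
    have N := hY n s y hn1 hyY hs1 hs2
    have hsq : s / n = q := by rw [hs]; field_simp
    rw [hsq] at N
    -- the events
    have hD := Pr_propD (V := Fin n) r hq0' hq1 (d := d') (ρ := ρ) (lam := lam) (γ := y / s) hd'0 hρ0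
      (by positivity) hlam (by rw [hcard]; linarith) (⌈lam * s / y⌉₊ + 1)
      (by
        push_cast
        have : lam / (y / s) = lam * s / y := by field_simp
        rw [this]
        have := Nat.le_ceil (lam * s / y)
        linarith)
      (by
        have h := sum_choose_le (n := n) (p := q) (lam := lam) (y := y) hn1 hq0 hq1 hlam0 hy1 hys
          (by
            have : 2 * lam * Real.log n ≤ y / 2 := by
              calc 2 * lam * Real.log n ≤ 2 * lam * (1 / (4 * lam) * y) :=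
                    mul_le_mul_of_nonneg_left hlog1 (by positivity)
                _ = y / 2 := by field_simp; norm_num
            nlinarith)
          (by nlinarith) hs12 hy2l (⌈lam * s / y⌉₊ + 1)
          (by
            push_cast
            have := Nat.ceil_lt_add_one (by positivity : 0 ≤ lam * s / y)
            linarith)
        simpa [Fintype.card_fin] using h)
    have hA := Pr_maxdeg (V := Fin n) hq0' hq1
    have hC := Pr_locsp (V := Fin n) hq0' hq1 (amax := n / (y * s)) (η := th) hth0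
      (by rw [hcard]; exact_mod_cast (by omega : 8 ≤ n))
      (by
        rw [hcard, Real.rpow_neg hn0.le, ← hy, ← hsq]
        apply le_of_eq; field_simp) D0 hD0
    have hB := Pr_norm (V := Fin n) hq0' hq1 (by rw [hcard]; linarith) j (Θ := y ^ 2 * s) (by positivity)
    rw [hcard] at hA hB hC hD
    -- the union
    have hgood : ∀ ω : Sym2 (Fin n) → Bool,
        (∀ v, (dg (Gr ω) v univ : ℝ) ≤ 4 * (n * q)) →
        (∀ x : Fin n → ℝ, ns ((Em q ω).mulVec x) ≤ (y ^ 2 * s) * ns x) →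
        LocSp (Gr ω) (n / (y * s)) D0 →
        PropD (Gr ω) r (y / s) (Real.exp (-lam)) ρ (d' * (n * q)) →
        ∀ G : SimpleGraph (Fin n), G ≤ Gr ω → (SimpleGraph.cycleGraph (2 * r + 3)).Free G →
        (∀ v, d * q * n ≤ ((G.neighborSet v).ncard : ℝ)) → G.Colorable (2 * ((m + 1) * (D0 + 1))) := by
      intro ω g1 g2 g3 g4 G hG hfree hdeg
      have hH : Host (Gr ω) q (4 * s) (y ^ 2 * s) (n / (y * s)) (y / s) β ρ (d' * s) r D0 :=
        ⟨g1, by rw [adj_sub_eq_Em]; exact g2, g3, g4⟩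
      obtain ⟨P, hP⟩ := exists_partition G (t := d' * s) (by positivity)
        (fun v => by
          rw [dg_eq_ncard]
          refine le_trans ?_ (hdeg v)
          rw [hd', hs]; apply le_of_eq; ring)
        (by
          rw [hcard]
          refine lt_of_le_of_lt ?_ hpt
          refine mul_le_mul_of_nonneg_left ?_ (by positivity)
          apply Real.exp_le_exp.mpr
          have := mul_le_mul_of_nonneg_left hys hd'0.le
          linarith)
      have N' : Num (Fintype.card (Fin n)) q (4 * s) (y ^ 2 * s) (n / (y * s)) (y / s) β ρ (d' * s)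
          (s ^ r / y) r m := by rw [hcard]; exact N
      exact determ N' hH hG (noCyc_of_free hfree) P hP
    have hU : Pr q (fun ω : Sym2 (Fin n) → Bool => ¬ ∀ G : SimpleGraph (Fin n), G ≤ Gr ω →
        (SimpleGraph.cycleGraph (2 * r + 3)).Free G →
        (∀ v, d * q * n ≤ ((G.neighborSet v).ncard : ℝ)) → G.Colorable (2 * ((m + 1) * (D0 + 1)))) ≤
        Pr q (fun ω => ((¬ ∀ v, (dg (Gr ω) v univ : ℝ) ≤ 4 * (n * q)) ∨
          (¬ ∀ x : Fin n → ℝ, ns ((Em q ω).mulVec x) ≤ (y ^ 2 * s) * ns x)) ∨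
          ((¬ LocSp (Gr ω) (n / (y * s)) D0) ∨
          (¬ PropD (Gr ω) r (y / s) (Real.exp (-lam)) ρ (d' * (n * q))))) := by
      refine Pr_mono hq0' hq1 fun ω hω => ?_
      by_contra hcon
      push Not at hcon
      exact hω (hgood ω hcon.1.1 hcon.1.2 hcon.2.1 hcon.2.2)
    refine hU.trans ?_
    refine (Pr_or_le hq0' hq1 _ _).trans ?_
    refine (add_le_add (Pr_or_le hq0' hq1 _ _) (Pr_or_le hq0' hq1 _ _)).trans ?_
    have b1 : (n : ℝ) * Real.exp (-(n * q)) ≤ n * Real.exp (-y) :=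
      mul_le_mul_of_nonneg_left (Real.exp_le_exp.mpr (by linarith)) hn0.le
    have b4 : Real.exp (-(n * q * n)) ≤ n * Real.exp (-y) := by
      have h1 : Real.exp (-(n * q * n)) ≤ Real.exp (-y) := by
        apply Real.exp_le_exp.mpr
        have : s * 1 ≤ s * n := mul_le_mul_of_nonneg_left hn1 hs0.le
        linarith
      have h2 : Real.exp (-y) ≤ n * Real.exp (-y) := by
        have := (Real.exp_pos (-y)).le
        nlinarith
      exact h1.trans h2
    have b2 : (2 ^ j + 1 : ℝ) ^ (2 * 2 ^ j + 2) * (n : ℝ) * ((n : ℝ) * q) ^ 2 ^ j / (y ^ 2 * s) ^ 2 ^ j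
        ≤ Cj * (n : ℝ)⁻¹ := by
      have h1 : (2 ^ j + 1 : ℝ) ^ (2 * 2 ^ j + 2) * (n : ℝ) * ((n : ℝ) * q) ^ 2 ^ j / (y ^ 2 * s) ^ 2 ^ j
        = Cj * (n / (y ^ 2) ^ 2 ^ j) := by
        exact up_aux Cj n s (y ^ 2) (2 ^ j) hs0.ne' (by positivity)
      rw [h1]
      refine mul_le_mul_of_nonneg_left ?_ (by positivity)
      rw [div_le_iff₀ (by positivity), inv_mul_eq_div, le_div_iff₀ hn0]
      have h2 : (n : ℝ) ≤ y ^ 2 ^ j := by
        rw [hy, ← Real.rpow_natCast, ← Real.rpow_mul hn0.le]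
        calc (n : ℝ) = (n : ℝ) ^ (1 : ℝ) := (Real.rpow_one _).symm
          _ ≤ _ := Real.rpow_le_rpow_of_exponent_le hn1 (by push_cast; exact hj)
      calc (n : ℝ) * n ≤ y ^ 2 ^ j * y ^ 2 ^ j := mul_le_mul h2 h2 hn0.le (by positivity)
        _ = _ := by rw [← mul_pow, ← sq]
    have b3 : (4 : ℝ) / n = 4 * (n : ℝ)⁻¹ := div_eq_mul_inv _ _
    rw [b3] at hC
    have hA' := hA.trans b1
    have hB' := hB.trans b2
    have hD' := hD.trans b4
    linarith

end Pool.MP_1bacea_co
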