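import Pool.Agent.Lib.MP_1bacea_co.DenseC
import Pool.Agent.Lib.MP_1bacea_co.UnionE
import Pool.Agent.Lib.MP_1bacea_co.SmallSubset
import Pool.Agent.Lib.MP_1bacea_co.Upper

/-!
The bound `1/2`.
-/

set_option autoImplicit false

open Finset Filter Topology

namespace Pool.MP_1bacea_co

/-- numerical conditions -/
theorem numC_exists (r : ℕ) (hr : 1 ≤ r) (g κ : ℝ) (hg : 0 < g) (hg2 : g ≤ 1 / 2) (hκ : 0 < κ) :
    ∃ γ : ℝ, 0 < γ ∧ ∃ Y : ℝ, ∀ n s y : ℝ, 1 ≤ n → 1 ≤ y → y ^ 2 * Y ≤ s → Y ≤ s →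
      n * y ^ (4 * r + 2) ≤ s ^ (2 * r + 1) →
      NumC n (s / n) (4 * s) (y ^ 2 * s) γ ((1 / 2 + g / 2) * (κ * s)) ((1 + g / 2) * (κ * n))
        (κ * n / 2) (g * κ * s / 8) r := by
  set A : ℝ := (1 / 2 + g / 2) * κ with hA
  have hA0 : 0 < A := by positivity
  set γ : ℝ := (g * κ / 8 * A ^ (2 * r) / 2) ^ 2 / ((2 * (r : ℝ) + 2) * 4 ^ (2 * (2 * r + 1))) with hγ
  refine ⟨γ, by positivity, ?_⟩
  set C1 : ℝ := 4 ^ (2 * r) * 256 * 16 / (g ^ 2 * κ ^ 3 * A ^ (2 * r)) with hC1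
  set C2 : ℝ := (2 * (r : ℝ) + 2) ^ 2 * 4 ^ (2 * r) * 32 / (g * κ * A ^ (2 * r)) with hC2
  refine ⟨1 + C1 + C2, ?_⟩
  intro n s y hn hy hs1 hs2 hs3
  have p1 : 0 ≤ C1 := by positivity
  have p2 : 0 ≤ C2 := by positivity
  have hs11 : 1 ≤ s := by linarith
  have hs0 : 0 < s := by linarith
  have hn0 : 0 < n := by linarith
  have hy0 : 0 < y := by linarith
  have hy2 : 1 ≤ y ^ 2 := one_le_pow₀ hy
  have hsn : s / n * n = s := by field_simp
  have hys : y ^ 2 ≤ s := by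
    have : y ^ 2 * 1 ≤ y ^ 2 * (1 + C1 + C2) := mul_le_mul_of_nonneg_left (by linarith) (by positivity)
    linarith
  refine
    { hn := hn0
      hp := by positivity
      hΔ := by linarith
      hΘ := by positivity
      hΘΔ := by nlinarith
      hpΔ := by rw [hsn]; nlinarith
      ha := by positivity
      hb0 := by positivity
      hh := by positivity
      hab := ?_
      hbad := ?_
      hpath := ?_
      hγ := ?_ }
  · have : s / n * ((1 + g / 2) * (κ * n) / 2) = (1 + g / 2) * κ * s / 2 := by field_simp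
    rw [this]
    nlinarith [mul_pos (mul_pos hg hκ) hs0]
  · -- hbad
    have e0 : (1 / 2 + g / 2) * (κ * s) = A * s := by rw [hA]; ring
    rw [e0]
    have h1 : C1 * y ^ 2 ≤ s := by
      have : y ^ 2 * C1 ≤ y ^ 2 * (1 + C1 + C2) := mul_le_mul_of_nonneg_left (by linarith) (by positivity)
      linarith
    have e1 : y ^ 2 * s * n * (4 * s) ^ (2 * r) =
        (n * s ^ (2 * r + 1) * (g ^ 2 * κ ^ 3 * A ^ (2 * r) / (256 * 16))) * (C1 * y ^ 2) := by
      rw [hC1, mul_pow 4 s, pow_succ s]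
      field_simp
    have e2 : (g * κ * s / 8) ^ 2 * (κ * n / 2 / 2) * ((A * s) ^ (2 * r) / 4) =
        (n * s ^ (2 * r + 1) * (g ^ 2 * κ ^ 3 * A ^ (2 * r) / (256 * 16))) * (4 * s) := by
      rw [mul_pow A s, pow_succ s]
      field_simp
      norm_num
    rw [e1, e2]
    refine mul_le_mul_of_nonneg_left ?_ (by positivity)
    linarith
  · -- hpath
    have e0 : (1 / 2 + g / 2) * (κ * s) = A * s := by rw [hA]; ring
    rw [e0]
    have h1 : C2 ≤ s := by linarith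
    have e1 : (2 * (r : ℝ) + 2) ^ 2 * (4 * s) ^ (2 * r) = (s ^ (2 * r) * (g * κ * A ^ (2 * r) / 32)) * C2 := by
      rw [hC2, mul_pow 4 s]
      field_simp
    have e2 : g * κ * s / 8 * (A * s) ^ (2 * r) / 4 = (s ^ (2 * r) * (g * κ * A ^ (2 * r) / 32)) * s := by
      rw [mul_pow A s]
      field_simp
      norm_num
    rw [e1, e2]
    exact mul_le_mul_of_nonneg_left h1 (by positivity)
  · -- hγ
    have e0 : (1 / 2 + g / 2) * (κ * s) = A * s := by rw [hA]; ring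
    rw [e0]
    have h1 : (2 * (y ^ 2 * s)) ^ (2 * r + 1) * n ≤ (4 * s) ^ (2 * (2 * r + 1)) := by
      have e1 : (2 * (y ^ 2 * s)) ^ (2 * r + 1) * n =
          2 ^ (2 * r + 1) * s ^ (2 * r + 1) * (n * y ^ (4 * r + 2)) := by
        rw [mul_pow, mul_pow, ← pow_mul, show 2 * (2 * r + 1) = 4 * r + 2 by ring]; ring
      have e2 : (4 * s) ^ (2 * (2 * r + 1)) = 4 ^ (2 * (2 * r + 1)) * s ^ (2 * r + 1) * s ^ (2 * r + 1) := by
        rw [mul_pow, two_mul (2 * r + 1), pow_add s]; ring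
      rw [e1, e2]
      refine mul_le_mul ?_ hs3 (by positivity) (by positivity)
      refine mul_le_mul_of_nonneg_right ?_ (by positivity)
      calc (2 : ℝ) ^ (2 * r + 1) ≤ 4 ^ (2 * r + 1) := pow_le_pow_left₀ (by norm_num) (by norm_num) _
        _ ≤ 4 ^ (2 * (2 * r + 1)) := pow_le_pow_right₀ (by norm_num) (by omega)
    have h2 : γ * ((2 * (y ^ 2 * s)) ^ (2 * r + 1) * n + ((2 * r + 1 : ℕ) : ℝ) * (4 * s) ^ (2 * (2 * r + 1))) ≤
        γ * ((2 * (r : ℝ) + 2) * (4 * s) ^ (2 * (2 * r + 1))) := by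
      refine mul_le_mul_of_nonneg_left ?_ (by positivity)
      push_cast
      linarith
    refine h2.trans (le_of_eq ?_)
    have e3 : g * κ * s / 8 * (A * s) ^ (2 * r) / 2 = (g * κ / 8 * A ^ (2 * r) / 2) * s ^ (2 * r + 1) := by
      rw [mul_pow A s, pow_succ s]; ring
    rw [e3, hγ, mul_pow 4 s, mul_pow (g * κ / 8 * A ^ (2 * r) / 2), ← pow_mul s, mul_comm (2 * r + 1) 2]
    field_simp

/-- the bound of the exponential moment -/
lemma hB_bound {n : ℕ} {p s g κ lam γ : ℝ} (τ : ℕ) (hs : s = n * p) (hp0 : 0 ≤ p) (hg : 0 < g)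
    (hg2 : g ≤ 1 / 2) (hκ : 0 < κ) (hn0 : (0 : ℝ) < n) (hs1 : 1 ≤ s) (hlam : lam = g / 8)
    (hsm : ((τ + 1 : ℕ) : ℝ) * (s * Real.exp lam) ^ τ ≤ Real.exp (κ * g ^ 2 / 128 * s)) :
    Real.exp (-(lam * ((1 / 2 + g / 2) * (κ * s)))) *
      (∑ t ∈ range (τ + 1), (n.choose t : ℝ) * (p * Real.exp lam) ^ t) *
      Real.exp (p * (Real.exp lam - 1) * (((1 + g / 2) * (κ * n)) / 2)) ≤
      Real.exp (-(κ * g ^ 2 / 128 * s)) := by
  have hlam0 : 0 < lam := by rw [hlam]; positivity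
  have hlam1 : lam ≤ 1 := by rw [hlam]; linarith
  have hs0 : 0 < s := by linarith
  have hx1 : 1 ≤ s * Real.exp lam := by
    have : 1 ≤ Real.exp lam := Real.one_le_exp hlam0.le
    nlinarith
  have hterm : ∀ t ∈ range (τ + 1), (n.choose t : ℝ) * (p * Real.exp lam) ^ t ≤
      (s * Real.exp lam) ^ τ := by
    intro t ht
    have ht' : t ≤ τ := by have := mem_range.mp ht; omega
    have h1 : (n.choose t : ℝ) ≤ (n : ℝ) ^ t := by exact_mod_cast Nat.choose_le_pow n t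
    calc (n.choose t : ℝ) * (p * Real.exp lam) ^ t ≤ (n : ℝ) ^ t * (p * Real.exp lam) ^ t :=
          mul_le_mul_of_nonneg_right h1 (by positivity)
      _ = (s * Real.exp lam) ^ t := by rw [← mul_pow, hs]; ring
      _ ≤ _ := pow_le_pow_right₀ hx1 ht'
  have hsum : ∑ t ∈ range (τ + 1), (n.choose t : ℝ) * (p * Real.exp lam) ^ t ≤
      Real.exp (κ * g ^ 2 / 128 * s) := by
    refine (sum_le_sum hterm).trans ?_
    rw [sum_const, card_range, nsmul_eq_mul]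
    exact hsm
  have hexp : Real.exp lam - 1 ≤ lam + lam ^ 2 := by
    have := Real.abs_exp_sub_one_sub_id_le (x := lam) (by rw [abs_of_pos hlam0]; exact hlam1)
    have := (abs_le.mp this).2
    linarith
  have hpb : p * (((1 + g / 2) * (κ * n)) / 2) = (1 + g / 2) * (κ * s) / 2 := by rw [hs]; ring
  have h3 : p * (Real.exp lam - 1) * (((1 + g / 2) * (κ * n)) / 2) ≤
      (lam + lam ^ 2) * ((1 + g / 2) * (κ * s) / 2) := by
    calc p * (Real.exp lam - 1) * (((1 + g / 2) * (κ * n)) / 2)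
        = (Real.exp lam - 1) * (p * (((1 + g / 2) * (κ * n)) / 2)) := by ring
      _ = (Real.exp lam - 1) * ((1 + g / 2) * (κ * s) / 2) := by rw [hpb]
      _ ≤ _ := mul_le_mul_of_nonneg_right hexp (by positivity)
  calc _ ≤ Real.exp (-(lam * ((1 / 2 + g / 2) * (κ * s)))) * Real.exp (κ * g ^ 2 / 128 * s) *
      Real.exp ((lam + lam ^ 2) * ((1 + g / 2) * (κ * s) / 2)) := by
        refine mul_le_mul ?_ (Real.exp_le_exp.mpr h3) (Real.exp_pos _).le (by positivity)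
        exact mul_le_mul_of_nonneg_left hsum (Real.exp_pos _).le
    _ = Real.exp (-(lam * ((1 / 2 + g / 2) * (κ * s))) + κ * g ^ 2 / 128 * s +
      (lam + lam ^ 2) * ((1 + g / 2) * (κ * s) / 2)) := by rw [Real.exp_add, Real.exp_add]
    _ ≤ _ := by
        apply Real.exp_le_exp.mpr
        have e : -(lam * ((1 / 2 + g / 2) * (κ * s))) + κ * g ^ 2 / 128 * s +
          (lam + lam ^ 2) * ((1 + g / 2) * (κ * s) / 2) =
          κ * s * (g / 8 * (-(g / 4) + g / 8 * (1 / 2 + g / 4)) + g ^ 2 / 128) := by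
          rw [hlam]; ring
        have e2 : -(κ * g ^ 2 / 128 * s) = κ * s * (-(g ^ 2 / 128)) := by ring
        rw [e, e2]
        refine mul_le_mul_of_nonneg_left ?_ (by positivity)
        nlinarith [mul_pos hg hg]

lemma cc_exp1 {g κ s y c3 : ℝ} (hc3 : c3 = (g / 2) ^ 2 * κ / 4) (hc30 : 0 ≤ c3) (hg : 0 < g)
    (hκ : 0 < κ) (hs : 0 < s) (hys : y ≤ s) :
    Real.exp (-((g / 2) ^ 2 * κ * ((1 / 2 + g) * s) / 2)) ≤ Real.exp (-(c3 * y)) := by
  apply Real.exp_le_exp.mpr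
  have h1 : c3 * y ≤ c3 * s := mul_le_mul_of_nonneg_left hys hc30
  have h2 : c3 * s ≤ (g / 2) ^ 2 * κ * ((1 / 2 + g) * s) / 2 := by
    rw [hc3]
    have h3 : 0 ≤ (g / 2) ^ 2 * κ * s := by positivity
    nlinarith
  linarith

lemma cc_exp2 {g κ n y c3 : ℝ} (hc3 : c3 = (g / 2) ^ 2 * κ / 4) (hc30 : 0 ≤ c3) (hyn : y ≤ n) :
    Real.exp (-((g / 2) ^ 2 * κ * n / 4)) ≤ Real.exp (-(c3 * y)) := by
  apply Real.exp_le_exp.mpr
  have h1 : c3 * y ≤ c3 * n := mul_le_mul_of_nonneg_left hyn hc30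
  have h2 : c3 * n = (g / 2) ^ 2 * κ * n / 4 := by rw [hc3]; ring
  linarith

lemma cc_exp3 {g κ n y c3 : ℝ} (hc3 : c3 = (g / 2) ^ 2 * κ / 4) (hc30 : 0 ≤ c3) (hg : 0 < g)
    (hg2 : g ≤ 1 / 2) (hκ : 0 < κ) (hn : 0 < n) (hyn : y ≤ n) :
    Real.exp (-(κ * n / 8)) ≤ Real.exp (-(c3 * y)) := by
  apply Real.exp_le_exp.mpr
  have h1 : c3 * y ≤ c3 * n := mul_le_mul_of_nonneg_left hyn hc30
  have h2 : c3 * n ≤ κ * n / 8 := by
    rw [hc3]
    have h4 : (g / 2) ^ 2 ≤ 1 / 2 := by nlinarith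
    have h3 : 0 ≤ κ * n := by positivity
    nlinarith
  linarith

lemma cc_sum {g κ s n y c3 : ℝ} (hc3 : c3 = (g / 2) ^ 2 * κ / 4) (hc30 : 0 ≤ c3) (hg : 0 < g)
    (hg2 : g ≤ 1 / 2) (hκ : 0 < κ) (hn : 1 ≤ n) (hs : 0 < s) (hys : y ≤ s) (hyn : y ≤ n)
    (hpt : 3 * (n * Real.exp (-(c3 * y))) < 1) :
    n * Real.exp (-((g / 2) ^ 2 * κ * ((1 / 2 + g) * s) / 2)) +
      Real.exp (-((g / 2) ^ 2 * κ * n / 4)) + Real.exp (-(κ * n / 8)) < 1 := by
  have e1 := cc_exp1 hc3 hc30 hg hκ hs hys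
  have e2 := cc_exp2 (κ := κ) hc3 hc30 hyn
  have e3 := cc_exp3 hc3 hc30 hg hg2 hκ (by linarith) hyn
  have e4 : n * Real.exp (-((g / 2) ^ 2 * κ * ((1 / 2 + g) * s) / 2)) ≤
    n * Real.exp (-(c3 * y)) := mul_le_mul_of_nonneg_left e1 (by linarith)
  have e5 : Real.exp (-(c3 * y)) ≤ n * Real.exp (-(c3 * y)) := by
    have := (Real.exp_pos (-(c3 * y))).le
    nlinarith
  linarith

lemma cc_a {g κ s : ℝ} (hg : 0 < g) (hg2 : g ≤ 1 / 2) (hκ : 0 < κ) (hs : 0 < s) :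
    (1 / 2 + g / 2) * (κ * s) ≤ (1 - g / 2) * (κ * ((1 / 2 + g) * s)) := by
  have : 0 ≤ κ * s := by positivity
  have h2 : (1 - g / 2) * (κ * ((1 / 2 + g) * s)) = ((1 - g / 2) * (1 / 2 + g)) * (κ * s) := by ring
  rw [h2]
  refine mul_le_mul_of_nonneg_right ?_ this
  nlinarith

lemma cc_final {n : ℕ} {g κ q s b : ℝ} (hκ : κ = g ^ 2 / 1024) (hκ0 : 0 < κ) (hg : 0 < g)
    (hg2 : g ≤ 1 / 2) (hs : s = n * q) (hs0 : 0 < s) (hn0 : (0 : ℝ) < n)
    (hb : b = (1 + g / 2) * (κ * n)) (hκs : 1 / κ ^ 2 ≤ s) :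
    (2 : ℝ) ^ n * Real.exp (q * b ^ 2) * Real.exp (-(κ * g ^ 2 / 128 * s * ((n : ℕ) / 2))) ≤
      Real.exp (-(n : ℝ)) := by
  have h1 : (2 : ℝ) ^ n ≤ Real.exp (n : ℝ) := by
    have h2 : (2 : ℝ) ≤ Real.exp 1 := by
      have := Real.add_one_le_exp (1 : ℝ); linarith
    calc (2 : ℝ) ^ n ≤ Real.exp 1 ^ n := pow_le_pow_left₀ (by norm_num) h2 n
      _ = Real.exp (n : ℝ) := by rw [← Real.exp_nat_mul, mul_one]
  calc _ ≤ Real.exp (n : ℝ) * Real.exp (q * b ^ 2) *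
        Real.exp (-(κ * g ^ 2 / 128 * s * ((n : ℕ) / 2))) := by
        refine mul_le_mul_of_nonneg_right ?_ (Real.exp_pos _).le
        exact mul_le_mul_of_nonneg_right h1 (Real.exp_pos _).le
    _ = Real.exp ((n : ℝ) + q * b ^ 2 + -(κ * g ^ 2 / 128 * s * ((n : ℕ) / 2))) := by
        rw [Real.exp_add, Real.exp_add]
    _ ≤ _ := by
        apply Real.exp_le_exp.mpr
        have e1 : q * b ^ 2 = (1 + g / 2) ^ 2 * (κ ^ 2 * s * n) := by rw [hb, hs]; ring
        have e2 : κ * g ^ 2 / 128 * s * ((n : ℕ) / 2) = 4 * (κ ^ 2 * s * n) := by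
          have : g ^ 2 = 1024 * κ := by rw [hκ]; ring
          rw [this]; ring
        rw [e1, e2]
        have h3 : (1 + g / 2) ^ 2 ≤ 25 / 16 := by nlinarith
        have h4 : 1 ≤ κ ^ 2 * s := by
          rw [div_le_iff₀ (by positivity)] at hκs
          linarith
        have h5 : 1 * (n : ℝ) ≤ κ ^ 2 * s * n := mul_le_mul_of_nonneg_right h4 hn0.le
        have h6 : 0 ≤ κ ^ 2 * s * n := by positivity
        have h7 := mul_le_mul_of_nonneg_right h3 h6
        linarith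

/-- Above `1/2` there is nothing to colour. -/
theorem thmC_main (r : ℕ) (hr : 2 ≤ r) (p : ℕ → unitInterval)
    (hp : ∀ᶠ n : ℕ in atTop, (n : ℝ) ^ (-(1 - 1 / (2 * r : ℝ))) ≤ (p n : ℝ))
    (d : ℝ) (hd : 1 / 2 < d) (C : ℕ) :
    WhpColorable (SimpleGraph.cycleGraph (2 * r + 3)) p d C := by
  have hr0 : (0 : ℝ) < r := by exact_mod_cast (by omega : 0 < r)
  set g : ℝ := min (d - 1 / 2) (1 / 2) with hg
  have hg0 : 0 < g := lt_min (by linarith) (by norm_num)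
  have hg2 : g ≤ 1 / 2 := min_le_right _ _
  have hgd : 1 / 2 + g ≤ d := by have := min_le_left (d - 1 / 2) (1 / 2 : ℝ); linarith
  set κ : ℝ := g ^ 2 / 1024 with hκ
  have hκ0 : 0 < κ := by positivity
  have hκ1 : κ ≤ 1 / 4096 := by rw [hκ]; nlinarith
  obtain ⟨γ, hγ0, Y, hY⟩ := numC_exists r (by omega) g κ hg0 hg2 hκ0
  set th : ℝ := 1 / (2 * r * (4 * r + 2)) with hth
  have hth0 : 0 < th := by positivity
  set lam : ℝ := g / 8 with hlam
  have hlam0 : 0 < lam := by positivity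
  set τ : ℕ := ⌈Real.log 2 / γ⌉₊ + 1 with hτ
  obtain ⟨j, hj⟩ : ∃ j : ℕ, 1 ≤ th * 2 ^ j := by
    obtain ⟨j, hj⟩ := pow_unbounded_of_one_lt (1 / th) (by norm_num : (1 : ℝ) < 2)
    refine ⟨j, ?_⟩
    rw [div_lt_iff₀ hth0] at hj
    nlinarith
  set Cj : ℝ := (2 ^ j + 1 : ℝ) ^ (2 * 2 ^ j + 2) with hCj
  set c3 : ℝ := (g / 2) ^ 2 * κ / 4 with hc3
  have hc30 : 0 < c3 := by positivity
  have hyt : Tendsto (fun n : ℕ => (n : ℝ) ^ th) atTop atTop :=
    (tendsto_rpow_atTop hth0).comp tendsto_natCast_atTop_atTop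
  have hexpt : ∀ b : ℝ, 0 < b → Tendsto (fun n : ℕ => (n : ℝ) * Real.exp (-(b * (n : ℝ) ^ th))) atTop (𝓝 0) := by
    intro b hb
    have h1 : Tendsto (fun x : ℝ => x ^ (1 / th) * Real.exp (-b * x)) atTop (𝓝 0) :=
      tendsto_rpow_mul_exp_neg_mul_atTop_nhds_zero _ _ hb
    refine (h1.comp hyt).congr fun n => ?_
    simp only [Function.comp_apply]
    rw [← Real.rpow_mul (Nat.cast_nonneg n), mul_one_div_cancel hth0.ne', Real.rpow_one, neg_mul]
  unfold WhpColorable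
  refine tendsto_of_Pr_not p _ (fun n => (n : ℝ) * Real.exp (-(1 * (n : ℝ) ^ th)) +
    Cj * (n : ℝ)⁻¹ + Real.exp (-(n : ℝ))) ?_ ?_
  · have h5 : Tendsto (fun n : ℕ => (n : ℝ)⁻¹) atTop (𝓝 0) := tendsto_inv_atTop_nhds_zero_nat
    have h7 : Tendsto (fun n : ℕ => Real.exp (-(n : ℝ))) atTop (𝓝 0) :=
      (Real.tendsto_exp_neg_atTop_nhds_zero).comp tendsto_natCast_atTop_atTop
    have h6 := ((hexpt 1 one_pos).add (h5.const_mul Cj)).add h7
    simpa using h6
  · -- eventual conditions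
    have hsm : ∀ᶠ x : ℝ in atTop, ((τ + 1 : ℕ) : ℝ) * (x * Real.exp lam) ^ τ ≤
        Real.exp (κ * g ^ 2 / 128 * x) := by
      have h1 : Tendsto (fun x : ℝ => x ^ (τ : ℝ) * Real.exp (-(κ * g ^ 2 / 128) * x)) atTop (𝓝 0) :=
        tendsto_rpow_mul_exp_neg_mul_atTop_nhds_zero _ _ (by positivity)
      have h2 := (h1.const_mul (((τ + 1 : ℕ) : ℝ) * Real.exp lam ^ τ)).eventually
        (gt_mem_nhds (by rw [mul_zero]; exact one_pos))
      filter_upwards [h2] with x hx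
      rw [Real.rpow_natCast] at hx
      have h3 : ((τ + 1 : ℕ) : ℝ) * (x * Real.exp lam) ^ τ * Real.exp (-(κ * g ^ 2 / 128) * x) < 1 := by
        rw [mul_pow]
        calc _ = ((τ + 1 : ℕ) : ℝ) * Real.exp lam ^ τ * (x ^ τ * Real.exp (-(κ * g ^ 2 / 128) * x)) := by ring
          _ < 1 := hx
      have h4 : Real.exp (-(κ * g ^ 2 / 128) * x) = (Real.exp (κ * g ^ 2 / 128 * x))⁻¹ := by
        rw [← Real.exp_neg]; congr 1; ring
      rw [h4, mul_inv_lt_iff₀ (Real.exp_pos _), one_mul] at h3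
      exact h3.le
    obtain ⟨X0, hX0⟩ := eventually_atTop.mp hsm
    have hpart1 := ((hexpt c3 hc30).const_mul 3).eventually (gt_mem_nhds (by rw [mul_zero]; exact one_pos))
    filter_upwards [hp, eventually_ge_atTop 1, hyt.eventually_ge_atTop Y, hyt.eventually_ge_atTop 1,
      hyt.eventually_ge_atTop X0, hyt.eventually_ge_atTop (1 / κ ^ 2), hpart1]
      with n hpn hn1' hyY hy1 hyX hyκ hpt
    set y : ℝ := (n : ℝ) ^ th with hy
    set q : ℝ := (p n : ℝ) with hq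
    have hq0' : 0 ≤ q := (p n).2.1
    have hq1 : q ≤ 1 := (p n).2.2
    have hn1 : (1 : ℝ) ≤ n := by exact_mod_cast hn1'
    have hn0 : (0 : ℝ) < n := by linarith
    have hy0 : 0 < y := by linarith
    set s : ℝ := n * q with hs
    have hcard : (Fintype.card (Fin n) : ℝ) = n := by rw [Fintype.card_fin]
    have hsge : (n : ℝ) ^ (1 / (2 * r : ℝ)) ≤ s := by
      have : (n : ℝ) ^ (1 / (2 * r : ℝ)) = n * (n : ℝ) ^ (-(1 - 1 / (2 * r : ℝ))) := by
        rw [← Real.rpow_one_add' hn0.le]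
        · congr 1; ring
        · have h2 : 1 + (-(1 - 1 / (2 * r : ℝ))) = 1 / (2 * r) := by ring
          rw [h2]; positivity
      rw [this, hs]
      exact mul_le_mul_of_nonneg_left hpn hn0.le
    have hypow : y ^ (4 * r + 2) = (n : ℝ) ^ (1 / (2 * r : ℝ)) := by
      rw [hy, ← Real.rpow_natCast, ← Real.rpow_mul hn0.le]
      congr 1
      rw [hth]; push_cast; field_simp
    have hs1 : y ^ (4 * r + 2) ≤ s := by rw [hypow]; exact hsge
    have hys : y ≤ s := (le_self_pow₀ hy1 (by omega)).trans hs1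
    have hs0 : 0 < s := by linarith
    have hs11 : 1 ≤ s := by linarith
    have hsn' : s ≤ n := by rw [hs]; nlinarith
    have hs2 : n * y ^ (4 * r + 2) ≤ s ^ (2 * r + 1) := by
      have h1 : ((n : ℝ) ^ (1 / (2 * r : ℝ))) ^ (2 * r) ≤ s ^ (2 * r) :=
        pow_le_pow_left₀ (Real.rpow_nonneg hn0.le _) hsge _
      have h2 : ((n : ℝ) ^ (1 / (2 * r : ℝ))) ^ (2 * r) = n := by
        rw [← Real.rpow_natCast, ← Real.rpow_mul hn0.le]
        push_cast
        rw [one_div_mul_cancel (by positivity), Real.rpow_one]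
      rw [h2] at h1
      calc n * y ^ (4 * r + 2) ≤ s ^ (2 * r) * s := mul_le_mul h1 hs1 (by positivity) (by positivity)
        _ = _ := by ring
    have hs3 : y ^ 2 * Y ≤ s := by
      calc y ^ 2 * Y ≤ y ^ 2 * y := mul_le_mul_of_nonneg_left hyY (by positivity)
        _ = y ^ 3 := by ring
        _ ≤ y ^ (4 * r + 2) := pow_le_pow_right₀ hy1 (by omega)
        _ ≤ s := hs1
    have hq0 : 0 < q := by
      rcases hq0'.lt_or_eq with h | h
      · exact h
      · rw [hs, ← h, mul_zero] at hs0; exact absurd hs0 (lt_irrefl _)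
    have N := hY n s y hn1 hy1 hs3 (hyY.trans hys) hs2
    have hsq : s / n = q := by rw [hs]; field_simp
    rw [hsq] at N
    set a : ℝ := (1 / 2 + g / 2) * (κ * s) with ha
    set b : ℝ := (1 + g / 2) * (κ * n) with hb
    -- the events
    have hE := Pr_propE (V := Fin n) r hq0' hq1 (γ := γ) (a := a) (b := b) (lam := lam)
      (c := κ * g ^ 2 / 128 * s) hγ0 hlam0 (by positivity) (by positivity)
      (by
        rw [hcard, hb]
        have : (1 + g / 2) * (κ * n) ≤ (5 / 4) * (1 / 4096 * n) :=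
          mul_le_mul (by linarith) (mul_le_mul_of_nonneg_right hκ1 hn0.le) (by positivity) (by norm_num)
        linarith)
      τ
      (by
        rw [hτ]; push_cast
        have := Nat.le_ceil (Real.log 2 / γ)
        linarith)
      (by
        have h := hB_bound (n := n) (p := q) (s := s) (g := g) (κ := κ) (lam := lam) (γ := γ) τ hs hq0' hg0
          hg2 hκ0 hn0 hs11 hlam (hX0 s (hyX.trans hys))
        rw [Fintype.card_fin]
        exact h)
    have hA := Pr_maxdeg (V := Fin n) hq0' hq1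
    have hB := Pr_norm (V := Fin n) hq0' hq1 (by rw [hcard]; linarith) j (Θ := y ^ 2 * s) (by positivity)
    rw [hcard] at hA hB
    rw [Fintype.card_fin] at hE
    -- the union
    have hgood : ∀ ω : Sym2 (Fin n) → Bool,
        (∀ v, (dg (Gr ω) v univ : ℝ) ≤ 4 * (n * q)) →
        (∀ x : Fin n → ℝ, ns ((Em q ω).mulVec x) ≤ (y ^ 2 * s) * ns x) →
        PropE (Gr ω) r γ a b →
        ∀ G : SimpleGraph (Fin n), G ≤ Gr ω → (SimpleGraph.cycleGraph (2 * r + 3)).Free G →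
        (∀ v, d * q * n ≤ ((G.neighborSet v).ncard : ℝ)) → G.Colorable C := by
      intro ω g1 g2 g3 G hG hfree hdeg
      exfalso
      obtain ⟨P, hP1, hP2, hP3⟩ := exists_small_subset G (κ := κ) (ε := g / 2) (D0 := (1 / 2 + g) * s)
        hκ0 (by linarith) (by positivity) (by linarith) (by positivity)
        (fun v => by
          rw [dg_eq_ncard]
          refine le_trans ?_ (hdeg v)
          rw [hs]
          have : (1 / 2 + g) * (n * q) ≤ d * (n * q) := mul_le_mul_of_nonneg_right hgd (by positivity)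
          linarith)
        (by
          rw [hcard]
          exact cc_sum hc3 hc30.le hg0 hg2 hκ0 hn1 hs0 hys (hys.trans hsn') hpt)
      rw [hcard] at hP1 hP2
      have N' : NumC (Fintype.card (Fin n)) q (4 * s) (y ^ 2 * s) γ a b (κ * n / 2) (g * κ * s / 8) r := by
        rw [hcard]; exact N
      refine determC N' hG g1 (by rw [adj_sub_eq_Em]; exact g2) g3 (noCyc_of_free hfree) P ?_ hP1 hP2
      intro v
      refine le_trans ?_ (hP3 v)
      exact cc_a hg0 hg2 hκ0 hs0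
    have hU : Pr q (fun ω : Sym2 (Fin n) → Bool => ¬ ∀ G : SimpleGraph (Fin n), G ≤ Gr ω →
        (SimpleGraph.cycleGraph (2 * r + 3)).Free G →
        (∀ v, d * q * n ≤ ((G.neighborSet v).ncard : ℝ)) → G.Colorable C) ≤
        Pr q (fun ω => ((¬ ∀ v, (dg (Gr ω) v univ : ℝ) ≤ 4 * (n * q)) ∨
          (¬ ∀ x : Fin n → ℝ, ns ((Em q ω).mulVec x) ≤ (y ^ 2 * s) * ns x)) ∨
          (¬ PropE (Gr ω) r γ a b)) := by
      refine Pr_mono hq0' hq1 fun ω hω => ?_
      by_contra hcon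
      push Not at hcon
      exact hω (hgood ω hcon.1.1 hcon.1.2 hcon.2)
    refine hU.trans ?_
    refine (Pr_or_le hq0' hq1 _ _).trans ?_
    refine (add_le_add (Pr_or_le hq0' hq1 _ _) le_rfl).trans ?_
    have b1 : (n : ℝ) * Real.exp (-(n * q)) ≤ n * Real.exp (-(1 * y)) :=
      mul_le_mul_of_nonneg_left (Real.exp_le_exp.mpr (by linarith)) hn0.le
    have b2 : (2 ^ j + 1 : ℝ) ^ (2 * 2 ^ j + 2) * (n : ℝ) * ((n : ℝ) * q) ^ 2 ^ j / (y ^ 2 * s) ^ 2 ^ j
        ≤ Cj * (n : ℝ)⁻¹ := by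
      have h1 : (2 ^ j + 1 : ℝ) ^ (2 * 2 ^ j + 2) * (n : ℝ) * ((n : ℝ) * q) ^ 2 ^ j / (y ^ 2 * s) ^ 2 ^ j
        = Cj * (n / (y ^ 2) ^ 2 ^ j) := by
        exact up_aux Cj n s (y ^ 2) (2 ^ j) hs0.ne' (by positivity)
      rw [h1]
      refine mul_le_mul_of_nonneg_left ?_ (by positivity)
      rw [div_le_iff₀ (by positivity), inv_mul_eq_div, le_div_iff₀ hn0]
      have h2 : (n : ℝ) ≤ y ^ 2 ^ j := by
        rw [hy, ← Real.rpow_natCast, ← Real.rpow_mul hn0.le]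
        calc (n : ℝ) = (n : ℝ) ^ (1 : ℝ) := (Real.rpow_one _).symm
          _ ≤ _ := Real.rpow_le_rpow_of_exponent_le hn1 (by push_cast; exact hj)
      calc (n : ℝ) * n ≤ y ^ 2 ^ j * y ^ 2 ^ j := mul_le_mul h2 h2 hn0.le (by positivity)
        _ = _ := by rw [← mul_pow, ← sq]
    have b3 : (2 : ℝ) ^ n * Real.exp (q * b ^ 2) * Real.exp (-(κ * g ^ 2 / 128 * s * ((n : ℕ) / 2))) ≤
        Real.exp (-(n : ℝ)) := by
      exact cc_final hκ hκ0 hg0 hg2 hs hs0 hn0 hb (hyκ.trans hys)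
    have hA' := hA.trans b1
    have hB' := hB.trans b2
    have hE' := hE.trans b3
    linarith

end Pool.MP_1bacea_co
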