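import Pool.Agent.Lib.MP_1bacea_co.Prob

/-!
The spectral norm of the centred adjacency matrix of a random graph, by the trace method.
-/

set_option autoImplicit false

open Finset

namespace Pool.MP_1bacea_co

variable {V : Type*} [Fintype V] [DecidableEq V]

/-! ### Deterministic part -/

/-- sum of squares -/
noncomputable def ns (x : V → ℝ) : ℝ := ∑ v, x v ^ 2

/-- squared Frobenius norm -/
noncomputable def fr (M : Matrix V V ℝ) : ℝ := ∑ u, ∑ v, M u v ^ 2

omit [DecidableEq V] in
lemma ns_nonneg (x : V → ℝ) : 0 ≤ ns x := sum_nonneg fun _ _ => sq_nonneg _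

omit [DecidableEq V] in
lemma fr_nonneg (M : Matrix V V ℝ) : 0 ≤ fr M :=
  sum_nonneg fun _ _ => sum_nonneg fun _ _ => sq_nonneg _

omit [DecidableEq V] in
lemma ns_mulVec_le (M : Matrix V V ℝ) (x : V → ℝ) : ns (M.mulVec x) ≤ fr M * ns x := by
  unfold ns fr
  rw [sum_mul]
  refine sum_le_sum fun u _ => ?_
  exact sum_mul_sq_le_sq_mul_sq univ (fun v => M u v) x

omit [DecidableEq V] in
lemma ns_eq_dot (x : V → ℝ) : ns x = x ⬝ᵥ x := by
  unfold ns dotProduct
  exact sum_congr rfl fun v _ => by ring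

omit [DecidableEq V] in
lemma dot_sq_le (x y : V → ℝ) : (x ⬝ᵥ y) ^ 2 ≤ ns x * ns y :=
  sum_mul_sq_le_sq_mul_sq univ x y

omit [DecidableEq V] in
lemma ns_sq_le {M : Matrix V V ℝ} (hM : M.IsSymm) (x : V → ℝ) :
    ns (M.mulVec x) ^ 2 ≤ ns x * ns ((M * M).mulVec x) := by
  have h : ns (M.mulVec x) = x ⬝ᵥ ((M * M).mulVec x) := by
    rw [ns_eq_dot, ← Matrix.mulVec_mulVec, Matrix.dotProduct_mulVec x M, ← Matrix.mulVec_transpose,
      hM.eq]
  rw [h]
  exact dot_sq_le _ _

lemma ns_pow_le {M : Matrix V V ℝ} (hM : M.IsSymm) (x : V → ℝ) (j : ℕ) :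
    ns (M.mulVec x) ^ 2 ^ j * ns x ≤ ns x ^ 2 ^ j * ns ((M ^ 2 ^ j).mulVec x) := by
  induction j with
  | zero => simp [mul_comm]
  | succ j ih =>
    rcases eq_or_lt_of_le (ns_nonneg x) with h0 | h0
    · rw [← h0]
      simp
    have hs : (M ^ 2 ^ j).IsSymm := hM.pow _
    have h1 := ns_sq_le hs x
    rw [← pow_add, ← two_mul, ← pow_succ'] at h1
    have h2 : (ns (M.mulVec x) ^ 2 ^ j * ns x) ^ 2 ≤
        (ns x ^ 2 ^ j * ns ((M ^ 2 ^ j).mulVec x)) ^ 2 :=
      pow_le_pow_left₀ (mul_nonneg (pow_nonneg (ns_nonneg _) _) (ns_nonneg _)) ih 2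
    have h3 : (ns x ^ 2 ^ j * ns ((M ^ 2 ^ j).mulVec x)) ^ 2 ≤
        (ns x ^ 2 ^ (j + 1) * ns ((M ^ 2 ^ (j + 1)).mulVec x)) * ns x := by
      have e : (ns x ^ 2 ^ j * ns ((M ^ 2 ^ j).mulVec x)) ^ 2 =
          ns x ^ 2 ^ (j + 1) * ns ((M ^ 2 ^ j).mulVec x) ^ 2 := by
        rw [mul_pow, ← pow_mul, ← pow_succ]
      rw [e, mul_assoc]
      refine mul_le_mul_of_nonneg_left ?_ (pow_nonneg (ns_nonneg _) _)
      rw [mul_comm]; exact h1
    have e2 : (ns (M.mulVec x) ^ 2 ^ j * ns x) ^ 2 = (ns (M.mulVec x) ^ 2 ^ (j + 1) * ns x) * ns x := by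
      rw [mul_pow, ← pow_mul, ← pow_succ]; ring
    rw [e2] at h2
    exact le_of_mul_le_mul_right (h2.trans h3) h0

/-- the norm bound from the Frobenius norm of a high power -/
lemma ns_le_of_fr {M : Matrix V V ℝ} (hM : M.IsSymm) (j : ℕ) {Θ : ℝ} (hΘ : 0 ≤ Θ)
    (h : fr (M ^ 2 ^ j) ≤ Θ ^ 2 ^ j) (x : V → ℝ) : ns (M.mulVec x) ≤ Θ * ns x := by
  rcases eq_or_lt_of_le (ns_nonneg x) with h0 | h0
  · have := ns_mulVec_le M x
    rw [← h0, mul_zero] at this
    rw [← h0, mul_zero]; exact this
  have h1 := ns_pow_le hM x j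
  have h2 := ns_mulVec_le (M ^ 2 ^ j) x
  have h3 : ns (M.mulVec x) ^ 2 ^ j * ns x ≤ (Θ * ns x) ^ 2 ^ j * ns x := by
    refine h1.trans ?_
    rw [mul_pow]
    calc ns x ^ 2 ^ j * ns ((M ^ 2 ^ j).mulVec x) ≤ ns x ^ 2 ^ j * (Θ ^ 2 ^ j * ns x) := by
          refine mul_le_mul_of_nonneg_left (h2.trans ?_) (pow_nonneg (ns_nonneg _) _)
          exact mul_le_mul_of_nonneg_right h (ns_nonneg _)
      _ = _ := by ring
  have h4 := le_of_mul_le_mul_right h3 h0
  exact le_of_pow_le_pow_left₀ (by positivity) (mul_nonneg hΘ (ns_nonneg _)) h4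

/-! ### Walk expansion of powers -/

/-- the product of the entries of `M` along a walk -/
def pw (M : Matrix V V ℝ) {m : ℕ} (x : Fin (m + 1) → V) : ℝ := ∏ i : Fin m, M (x i.castSucc) (x i.succ)

lemma pow_apply_eq_sum (M : Matrix V V ℝ) (m : ℕ) (u v : V) :
    (M ^ m) u v = ∑ x : Fin (m + 1) → V, if x 0 = u ∧ x (Fin.last m) = v then pw M x else 0 := by
  induction m generalizing v with
  | zero =>
    have e : ∀ x : Fin 1 → V, (if x 0 = u ∧ x (Fin.last 0) = v then pw M x else 0) =
        if x 0 = u ∧ x 0 = v then (1 : ℝ) else 0 := by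
      intro x; simp [pw]
    simp_rw [e]
    rw [pow_zero, Matrix.one_apply]
    rw [← Equiv.sum_comp (Equiv.funUnique (Fin 1) V).symm]
    simp only [Equiv.funUnique_symm_apply, uniqueElim_const]
    by_cases h : u = v
    · subst h
      simp
    · rw [if_neg h]
      symm
      apply sum_eq_zero
      intro w _
      rw [if_neg]
      rintro ⟨h1, h2⟩
      exact h (h1.symm.trans h2)
  | succ m ih =>
    rw [pow_succ, Matrix.mul_apply]
    simp_rw [ih]
    rw [← Equiv.sum_comp (Fin.snocEquiv (fun _ : Fin (m + 2) => V)), Fintype.sum_prod_type]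
    have e : ∀ (w : V) (x : Fin (m + 1) → V),
        (if (Fin.snocEquiv (fun _ : Fin (m + 2) => V)) (w, x) 0 = u ∧
          (Fin.snocEquiv (fun _ : Fin (m + 2) => V)) (w, x) (Fin.last (m + 1)) = v then
          pw M ((Fin.snocEquiv (fun _ : Fin (m + 2) => V)) (w, x)) else 0) =
        if w = v then (if x 0 = u then pw M x * M (x (Fin.last m)) v else 0) else 0 := by
      intro w x
      have e0 : (Fin.snocEquiv (fun _ : Fin (m + 2) => V)) (w, x) 0 = x 0 := by
        show Fin.snoc (α := fun _ : Fin (m + 2) => V) x w 0 = x 0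
        exact Fin.snoc_castSucc (α := fun _ : Fin (m + 2) => V) w x (0 : Fin (m + 1))
      have e1 : (Fin.snocEquiv (fun _ : Fin (m + 2) => V)) (w, x) (Fin.last (m + 1)) = w := by
        show Fin.snoc (α := fun _ : Fin (m + 2) => V) x w (Fin.last (m + 1)) = w
        exact Fin.snoc_last (α := fun _ : Fin (m + 2) => V) w x
      rw [e0, e1]
      have e2 : pw M ((Fin.snocEquiv (fun _ : Fin (m + 2) => V)) (w, x)) =
          pw M x * M (x (Fin.last m)) w := by
        show pw M (Fin.snoc (α := fun _ : Fin (m + 2) => V) x w) = _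
        unfold pw
        rw [Fin.prod_univ_castSucc]
        congr 1
        · refine prod_congr rfl fun i _ => ?_
          rw [Fin.snoc_castSucc, ← Fin.castSucc_succ, Fin.snoc_castSucc]
        · rw [Fin.snoc_castSucc, Fin.succ_last, Fin.snoc_last]
      rw [e2]
      by_cases hw : w = v
      · subst hw; simp
      · simp [hw]
    simp_rw [e]
    have hL : ∑ j, (∑ x : Fin (m + 1) → V, if x 0 = u ∧ x (Fin.last m) = j then pw M x else 0) * M j v =
        ∑ x : Fin (m + 1) → V, if x 0 = u then pw M x * M (x (Fin.last m)) v else 0 := by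
      simp_rw [sum_mul]
      rw [sum_comm]
      refine sum_congr rfl fun x _ => ?_
      by_cases hx : x 0 = u
      · simp [hx]
      · simp [hx]
    rw [hL, sum_comm]
    refine sum_congr rfl fun x _ => ?_
    simp

lemma fr_pow_eq {M : Matrix V V ℝ} (hM : M.IsSymm) (q : ℕ) :
    fr (M ^ q) = ∑ x : Fin (2 * q + 1) → V, if x 0 = x (Fin.last (2 * q)) then pw M x else 0 := by
  have h1 : fr (M ^ q) = ∑ u, (M ^ (2 * q)) u u := by
    unfold fr
    refine sum_congr rfl fun u _ => ?_
    rw [two_mul, pow_add, Matrix.mul_apply]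
    refine sum_congr rfl fun v _ => ?_
    have : (M ^ q) v u = (M ^ q) u v := by
      have hs : (M ^ q).IsSymm := hM.pow _
      exact hs.apply u v
    rw [this, sq]
  rw [h1]
  simp_rw [pow_apply_eq_sum]
  rw [sum_comm]
  refine sum_congr rfl fun x _ => ?_
  by_cases hx : x 0 = x (Fin.last (2 * q))
  · rw [if_pos hx]
    rw [sum_eq_single (x 0)]
    · rw [if_pos ⟨rfl, hx.symm⟩]
    · intro u _ hu
      rw [if_neg]
      rintro ⟨h, -⟩
      exact hu h.symm
    · intro h; exact absurd (mem_univ _) h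
  · rw [if_neg hx]
    apply sum_eq_zero
    intro u _
    rw [if_neg]
    rintro ⟨h, h'⟩
    exact hx (h.trans h'.symm)

/-! ### The random matrix -/

/-- the centred adjacency matrix -/
noncomputable def Em (p : ℝ) (ω : Sym2 V → Bool) : Matrix V V ℝ :=
  fun u v => if u = v then 0 else (if ω s(u, v) then 1 else 0) - p

omit [Fintype V] in
lemma Em_isSymm (p : ℝ) (ω : Sym2 V → Bool) : (Em p ω).IsSymm := by
  ext u v
  simp only [Matrix.transpose_apply, Em, Sym2.eq_swap (a := u) (b := v), eq_comm (a := u) (b := v)]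

/-- the edges of a walk -/
def stp {m : ℕ} (x : Fin (m + 1) → V) (i : Fin m) : Sym2 V := s(x i.castSucc, x i.succ)

lemma factor_bound {p : ℝ} (h0 : 0 ≤ p) (h1 : p ≤ 1) {m : ℕ} (hm : 2 ≤ m) :
    |p * (1 - p) ^ m + (1 - p) * (0 - p) ^ m| ≤ p := by
  have a1 : (0 : ℝ) ≤ 1 - p := by linarith
  have a2 : (1 - p) ≤ 1 := by linarith
  obtain ⟨k, rfl⟩ := Nat.exists_eq_add_of_le hm
  have e1 : |p * (1 - p) ^ (2 + k)| ≤ p * (1 - p) := by
    rw [abs_of_nonneg (by positivity)]
    refine mul_le_mul_of_nonneg_left ?_ h0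
    calc (1 - p) ^ (2 + k) ≤ (1 - p) ^ 1 := pow_le_pow_of_le_one a1 a2 (by omega)
      _ = _ := pow_one _
  have e2 : |(1 - p) * (0 - p) ^ (2 + k)| ≤ (1 - p) * (p * p) := by
    rw [abs_mul, abs_of_nonneg a1, abs_pow]
    refine mul_le_mul_of_nonneg_left ?_ a1
    rw [zero_sub, abs_neg, abs_of_nonneg h0]
    calc p ^ (2 + k) ≤ p ^ 2 := pow_le_pow_of_le_one h0 h1 (by omega)
      _ = _ := by ring
  calc _ ≤ _ := abs_add_le _ _
    _ ≤ p * (1 - p) + (1 - p) * (p * p) := add_le_add e1 e2
    _ ≤ p := by nlinarith [mul_nonneg h0 h0, mul_nonneg (mul_nonneg h0 h0) h0]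

lemma Ex_pw_le {p : ℝ} (h0 : 0 ≤ p) (h1 : p ≤ 1) {m : ℕ} (x : Fin (m + 1) → V) :
    Ex p (fun ω => pw (Em p ω) x) ≤
      if (∀ e ∈ univ.image (stp x), 2 ≤ (univ.filter fun i => stp x i = e).card) then
        p ^ (univ.image (stp x)).card else 0 := by
  have hR : 0 ≤ (if (∀ e ∈ univ.image (stp x), 2 ≤ (univ.filter fun i => stp x i = e).card) then
        p ^ (univ.image (stp x)).card else 0) := by
    split_ifs <;> positivity
  by_cases hdeg : ∃ i : Fin m, x i.castSucc = x i.succ
  · obtain ⟨i, hi⟩ := hdeg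
    have : (fun ω : Sym2 V → Bool => pw (Em p ω) x) = fun _ => 0 := by
      ext ω
      unfold pw
      apply prod_eq_zero (mem_univ i)
      simp [Em, hi]
    rw [this, Ex_const]
    exact hR
  push Not at hdeg
  have hpw : (fun ω : Sym2 V → Bool => pw (Em p ω) x) = fun ω => ∏ e,
      ((fun (e : Sym2 V) (b : Bool) => ((if b then (1 : ℝ) else 0) - p) ^
        (univ.filter fun i => stp x i = e).card) e (ω e)) := by
    ext ω
    unfold pw
    have e1 : ∀ i : Fin m, Em p ω (x i.castSucc) (x i.succ) =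
        (fun e : Sym2 V => (if ω e then (1 : ℝ) else 0) - p) (stp x i) := by
      intro i
      simp [Em, stp, hdeg i]
    simp_rw [e1]
    rw [(Finset.prod_fiberwise' univ (stp x) (fun e => (if ω e then (1:ℝ) else 0) - p)).symm]
    refine prod_congr rfl fun e _ => ?_
    rw [prod_const]
  rw [hpw]
  have hexp := Ex_prod p (fun (e : Sym2 V) (b : Bool) => ((if b then (1 : ℝ) else 0) - p) ^
        (univ.filter fun i => stp x i = e).card)
  refine hexp.le.trans ?_
  simp only [if_true, Bool.false_eq_true, if_false]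
  have hres : ∏ e : Sym2 V, (p * (1 - p) ^ (univ.filter fun i => stp x i = e).card +
      (1 - p) * (0 - p) ^ (univ.filter fun i => stp x i = e).card) =
      ∏ e ∈ univ.image (stp x), (p * (1 - p) ^ (univ.filter fun i => stp x i = e).card +
      (1 - p) * (0 - p) ^ (univ.filter fun i => stp x i = e).card) := by
    symm
    apply prod_subset (subset_univ _)
    intro e _ he
    have : (univ.filter fun i => stp x i = e) = ∅ := by
      rw [filter_eq_empty_iff]
      intro i _ hi
      exact he (mem_image.mpr ⟨i, mem_univ _, hi⟩)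
    rw [this, card_empty]; ring
  rw [hres]
  split_ifs with hc
  · refine (le_abs_self _).trans ?_
    rw [abs_prod, ← prod_const]
    exact prod_le_prod (fun _ _ => abs_nonneg _) fun e he => factor_bound h0 h1 (hc e he)
  · push Not at hc
    obtain ⟨e, he, hlt⟩ := hc
    have hpos : 0 < (univ.filter fun i => stp x i = e).card := by
      obtain ⟨i, _, hi⟩ := mem_image.mp he
      exact card_pos.mpr ⟨i, mem_filter.mpr ⟨mem_univ _, hi⟩⟩
    have h1' : (univ.filter fun i => stp x i = e).card = 1 := by omega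
    apply le_of_eq
    apply prod_eq_zero he
    rw [h1']; ring

omit [Fintype V] in
lemma card_image_walk {m : ℕ} (x : Fin (m + 1) → V) :
    (univ.image x).card ≤ (univ.image (stp x)).card + 1 := by
  induction m with
  | zero =>
    refine (card_image_le).trans ?_
    simp
  | succ m ih =>
    have h := ih (fun i : Fin (m + 1) => x i.castSucc)
    have e1 : univ.image x = insert (x (Fin.last (m + 1)))
        (univ.image (fun i : Fin (m + 1) => x i.castSucc)) := by
      ext v
      simp only [mem_image, mem_univ, true_and, mem_insert]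
      constructor
      · rintro ⟨i, rfl⟩
        induction i using Fin.lastCases with
        | last => exact Or.inl rfl
        | cast i => exact Or.inr ⟨i, rfl⟩
      · rintro (rfl | ⟨i, rfl⟩)
        · exact ⟨_, rfl⟩
        · exact ⟨_, rfl⟩
    have e2 : univ.image (stp x) = insert (stp x (Fin.last m))
        (univ.image (stp fun i : Fin (m + 1) => x i.castSucc)) := by
      ext v
      simp only [mem_image, mem_univ, true_and, mem_insert]
      constructor
      · rintro ⟨i, rfl⟩
        induction i using Fin.lastCases with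
        | last => exact Or.inl rfl
        | cast i => exact Or.inr ⟨i, rfl⟩
      · rintro (rfl | ⟨i, rfl⟩)
        · exact ⟨_, rfl⟩
        · exact ⟨i.castSucc, rfl⟩
    by_cases hnew : x (Fin.last (m + 1)) ∈ univ.image (fun i : Fin (m + 1) => x i.castSucc)
    · rw [e1, insert_eq_of_mem hnew, e2]
      refine h.trans ?_
      have := card_le_card (subset_insert (stp x (Fin.last m))
        (univ.image (stp fun i : Fin (m + 1) => x i.castSucc)))
      omega
    · have hnew2 : stp x (Fin.last m) ∉ univ.image (stp fun i : Fin (m + 1) => x i.castSucc) := by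
        intro hmem
        obtain ⟨i, _, hi⟩ := mem_image.mp hmem
        have hx : x (Fin.last (m + 1)) ∈ (stp x (Fin.last m)) := by
          simp [stp]
        rw [← hi] at hx
        simp only [stp, Sym2.mem_iff] at hx
        apply hnew
        rcases hx with hx | hx
        · exact mem_image.mpr ⟨i.castSucc, mem_univ _, hx.symm⟩
        · exact mem_image.mpr ⟨i.succ, mem_univ _, hx.symm⟩
      rw [e1, card_insert_of_notMem hnew, e2, card_insert_of_notMem hnew2]
      omega

omit [Fintype V] in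
lemma two_mul_card_le {m : ℕ} (x : Fin (m + 1) → V)
    (h : ∀ e ∈ univ.image (stp x), 2 ≤ (univ.filter fun i => stp x i = e).card) :
    2 * (univ.image (stp x)).card ≤ m := by
  have h1 : (univ : Finset (Fin m)).card = ∑ e ∈ univ.image (stp x),
      (univ.filter fun i => stp x i = e).card := card_eq_sum_card_image _ _
  rw [card_univ, Fintype.card_fin] at h1
  calc 2 * (univ.image (stp x)).card = ∑ e ∈ univ.image (stp x), 2 := by
        rw [sum_const, smul_eq_mul, mul_comm]
    _ ≤ ∑ e ∈ univ.image (stp x), (univ.filter fun i => stp x i = e).card := sum_le_sum h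
    _ = m := h1.symm

/-- the trace bound -/
theorem Ex_fr_le {p : ℝ} (h0 : 0 ≤ p) (h1 : p ≤ 1) (hs : 1 ≤ (Fintype.card V : ℝ) * p) (q : ℕ) :
    Ex p (fun ω : Sym2 V → Bool => fr (Em p ω ^ q)) ≤
      (q + 1 : ℝ) ^ (2 * q + 2) * (Fintype.card V : ℝ) * ((Fintype.card V : ℝ) * p) ^ q := by
  set n : ℝ := (Fintype.card V : ℝ) with hn
  have e0 : (fun ω : Sym2 V → Bool => fr (Em p ω ^ q)) = fun ω => ∑ x : Fin (2 * q + 1) → V,
      if x 0 = x (Fin.last (2 * q)) then pw (Em p ω) x else 0 := by
    ext ω; exact fr_pow_eq (Em_isSymm p ω) q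
  rw [e0, Ex_sum]
  -- bound by a function of the image
  have hterm : ∀ x : Fin (2 * q + 1) → V,
      Ex p (fun ω => if x 0 = x (Fin.last (2 * q)) then pw (Em p ω) x else 0) ≤
        if (univ.image x).card ≤ q + 1 then p ^ ((univ.image x).card - 1) else 0 := by
    intro x
    have hR : 0 ≤ (if (univ.image x).card ≤ q + 1 then p ^ ((univ.image x).card - 1) else 0) := by
      split_ifs <;> positivity
    by_cases hx : x 0 = x (Fin.last (2 * q))
    · simp only [hx, if_true]
      refine (Ex_pw_le h0 h1 x).trans ?_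
      split_ifs with h2 h3 h3
      · refine pow_le_pow_of_le_one h0 h1 ?_
        have := card_image_walk x
        omega
      · have a := card_image_walk x
        have b := two_mul_card_le x h2
        omega
      · positivity
      · exact le_rfl
    · simp only [hx, if_false]
      rw [Ex_const]; exact hR
  refine (sum_le_sum fun x _ => hterm x).trans ?_
  -- group by the image
  set F : ℕ → ℝ := fun v => if v ≤ q + 1 then p ^ (v - 1) else 0 with hF
  have hFnn : ∀ v, 0 ≤ F v := fun v => by simp only [hF]; split_ifs <;> positivity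
  have h2 : ∑ x : Fin (2 * q + 1) → V, F (univ.image x).card ≤
      ∑ T ∈ (univ : Finset V).powerset, F T.card * (T.card : ℝ) ^ (2 * q + 1) := by
    rw [← Finset.sum_fiberwise_of_maps_to (s := univ) (t := (univ : Finset V).powerset)
      (g := fun x : Fin (2 * q + 1) → V => univ.image x) (fun x _ => by simp)]
    refine sum_le_sum fun T _ => ?_
    have : ∑ x ∈ univ.filter (fun x : Fin (2 * q + 1) → V => univ.image x = T),
        F (univ.image x).card = (univ.filter (fun x : Fin (2 * q + 1) → V => univ.image x = T)).card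
          • F T.card := by
      rw [← sum_const]
      refine sum_congr rfl fun x hx => ?_
      rw [(mem_filter.mp hx).2]
    rw [this, nsmul_eq_mul, mul_comm]
    refine mul_le_mul_of_nonneg_left ?_ (hFnn _)
    have hc : (univ.filter (fun x : Fin (2 * q + 1) → V => univ.image x = T)).card ≤
        (Fintype.piFinset (fun _ : Fin (2 * q + 1) => T)).card := by
      refine card_le_card fun x hx => ?_
      rw [Fintype.mem_piFinset]
      intro i
      have := (mem_filter.mp hx).2
      rw [← this]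
      exact mem_image_of_mem _ (mem_univ _)
    rw [Fintype.card_piFinset_const] at hc
    exact_mod_cast hc
  refine h2.trans ?_
  have h3 := Finset.sum_powerset_apply_card (fun v => F v * (v : ℝ) ^ (2 * q + 1))
    (x := (univ : Finset V))
  rw [h3]
  -- termwise bound
  have hnn : 0 ≤ n := Nat.cast_nonneg _
  have h4 : ∀ v ∈ range ((univ : Finset V).card + 1),
      (univ : Finset V).card.choose v • (F v * (v : ℝ) ^ (2 * q + 1)) ≤
      if v ∈ Icc 1 (q + 1) then (q + 1 : ℝ) ^ (2 * q + 1) * (n * (n * p) ^ q) else 0 := by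
    intro v _
    rw [nsmul_eq_mul]
    rcases Nat.eq_zero_or_pos v with rfl | hv
    · simp
    by_cases hvq : v ≤ q + 1
    · rw [if_pos (mem_Icc.mpr ⟨hv, hvq⟩)]
      have c1 : (((univ : Finset V).card.choose v : ℕ) : ℝ) ≤ n ^ v := by
        rw [hn, ← Nat.cast_pow, card_univ]
        exact_mod_cast Nat.choose_le_pow _ _
      have c2 : F v = p ^ (v - 1) := by simp only [hF]; rw [if_pos hvq]
      have c3 : (v : ℝ) ^ (2 * q + 1) ≤ (q + 1 : ℝ) ^ (2 * q + 1) := by
        refine pow_le_pow_left₀ (Nat.cast_nonneg _) ?_ _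
        exact_mod_cast hvq
      rw [c2]
      have c4 : n ^ v * p ^ (v - 1) = n * (n * p) ^ (v - 1) := by
        obtain ⟨w, rfl⟩ := Nat.exists_eq_add_of_le hv
        rw [show 1 + w - 1 = w by omega, mul_pow, pow_add, pow_one]; ring
      have c5 : (n * p) ^ (v - 1) ≤ (n * p) ^ q := pow_le_pow_right₀ hs (by omega)
      calc (((univ : Finset V).card.choose v : ℕ) : ℝ) * (p ^ (v - 1) * (v : ℝ) ^ (2 * q + 1))
          ≤ n ^ v * (p ^ (v - 1) * (q + 1 : ℝ) ^ (2 * q + 1)) := by
            apply mul_le_mul c1 _ (by positivity) (by positivity)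
            exact mul_le_mul_of_nonneg_left c3 (by positivity)
        _ = (q + 1 : ℝ) ^ (2 * q + 1) * (n ^ v * p ^ (v - 1)) := by ring
        _ = (q + 1 : ℝ) ^ (2 * q + 1) * (n * (n * p) ^ (v - 1)) := by rw [c4]
        _ ≤ _ := by
          refine mul_le_mul_of_nonneg_left ?_ (by positivity)
          exact mul_le_mul_of_nonneg_left c5 hnn
    · have c2 : F v = 0 := by simp only [hF]; rw [if_neg hvq]
      rw [c2, if_neg (fun h => hvq (mem_Icc.mp h).2)]
      simp
  refine (sum_le_sum h4).trans ?_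
  rw [← sum_filter]
  have h5 : ∑ v ∈ (range ((univ : Finset V).card + 1)).filter (fun v => v ∈ Icc 1 (q + 1)),
      ((q + 1 : ℝ) ^ (2 * q + 1) * (n * (n * p) ^ q)) ≤
      ∑ v ∈ Icc 1 (q + 1), ((q + 1 : ℝ) ^ (2 * q + 1) * (n * (n * p) ^ q)) := by
    refine sum_le_sum_of_subset_of_nonneg (fun v hv => (mem_filter.mp hv).2) fun _ _ _ => ?_
    positivity
  refine h5.trans ?_
  rw [sum_const, Nat.card_Icc, nsmul_eq_mul]
  apply le_of_eq
  push_cast
  ring

/-- the norm bound holds with high probability -/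
theorem Pr_norm {p : ℝ} (h0 : 0 ≤ p) (h1 : p ≤ 1) (hs : 1 ≤ (Fintype.card V : ℝ) * p) (j : ℕ)
    {Θ : ℝ} (hΘ : 0 < Θ) :
    Pr p (fun ω : Sym2 V → Bool => ¬ ∀ x : V → ℝ, ns ((Em p ω).mulVec x) ≤ Θ * ns x) ≤
      (2 ^ j + 1 : ℝ) ^ (2 * 2 ^ j + 2) * (Fintype.card V : ℝ) *
        ((Fintype.card V : ℝ) * p) ^ 2 ^ j / Θ ^ 2 ^ j := by
  have h := Pr_le_Ex h0 h1 (A := fun ω : Sym2 V → Bool =>
    ¬ ∀ x : V → ℝ, ns ((Em p ω).mulVec x) ≤ Θ * ns x)
    (f := fun ω => (Θ ^ 2 ^ j)⁻¹ * fr (Em p ω ^ 2 ^ j))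
    (fun ω => mul_nonneg (by positivity) (fr_nonneg _)) ?_
  · refine h.trans ?_
    rw [Ex_mul_left, div_eq_inv_mul]
    refine mul_le_mul_of_nonneg_left ?_ (by positivity)
    have := Ex_fr_le (V := V) h0 h1 hs (2 ^ j)
    push_cast at this
    exact this
  · intro ω hω
    by_contra hlt
    apply hω
    intro x
    refine ns_le_of_fr (Em_isSymm p ω) j hΘ.le ?_ x
    push Not at hlt
    rw [inv_mul_lt_iff₀ (by positivity), mul_one] at hlt
    exact hlt.le

end Pool.MP_1bacea_co
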